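import Pool.Agent.Strip051.LC.E1.V2.Cert.C1
import Pool.Agent.Strip051.LC.E1.V2.Cert.C2
import Pool.Agent.Strip051.LC.E1.V2.Cert.C3
import Pool.Agent.Strip051.LC.E1.V2.Cert.C4
import Pool.Agent.Strip051.LC.E1.V2.Cert.C5
import Pool.Agent.Strip051.LC.E1.V2.Cert.C6
import Pool.Agent.Strip051.LC.E1.V2.Cert.C7
import Pool.Agent.Strip051.LC.E1.V2.Cert.C8
import Pool.Agent.Strip051.LC.E1.V2.Cert.C9
import Pool.Agent.Strip051.LC.E1.V2.Cert.C10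
import Pool.Agent.Strip051.LC.E1.V2.Cert.C11
import Pool.Agent.Strip051.LC.E1.V2.Cert.C12

/-! # Rests near the full period: certificates below `2 h0` -/

set_option maxRecDepth 100000

namespace Pool.Agent.Strip051.LC.E1.V2

open Pool.Agent.Strip051.PB
open Pool.Agent.Strip051.LC.E0.Ch (onCell Tree)

theorem y1f : Tree 0 2684354560 1610612736 12884901888 0 26843546 (L1 Ff) :=
  ⟨_, (chk3_b (chk3_b (chk3_a (chk3_c (chk3_b (chk3_a y1f_h0 (chk3_b y1f_h1 (chk3_a y1f_h2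
      (chk3_a y1f_h3 (chk3_c y1f_h4 y1f_h5))))) (chk3_a (chk3_b y1f_h6 y1f_h7) (chk3_b (chk3_c
      y1f_h8 y1f_h9) (chk3_c y1f_h10 y1f_h11)))) (chk3_b (chk3_a (chk3_b y1f_h12 (chk3_a y1f_h13
      (chk3_c y1f_h14 (chk3_a y1f_h15 (chk3_c y1f_h16 (chk3_a y1f_h17 y1f_h18)))))) (chk3_b
      y1f_h19 (chk3_c (chk3_a (chk3_a y1f_h20 y1f_h21) y1f_h22) (chk3_a (chk3_a y1f_h23 (chk3_b
      (chk3_b y1f_h24 y1f_h25) y1f_h26)) (chk3_b (chk3_b y1f_h27 y1f_h28) y1f_h29))))) (chk3_a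
      (chk3_b (chk3_c y1f_h30 (chk3_a y1f_h31 (chk3_c y1f_h32 y1f_h33))) (chk3_a y1f_h34
      y1f_h35)) (chk3_b (chk3_c (chk3_a y1f_h36 y1f_h37) (chk3_a (chk3_b (chk3_c y1f_h38 y1f_h39)
      (chk3_c y1f_h40 y1f_h41)) (chk3_b y1f_h42 y1f_h43))) (chk3_c (chk3_a y1f_h44 y1f_h45)
      (chk3_a (chk3_b y1f_h46 y1f_h47) (chk3_b y1f_h48 y1f_h49))))))) (chk3_c (chk3_b (chk3_a
      (chk3_b y1f_h50 (chk3_c y1f_h51 y1f_h52)) (chk3_b y1f_h53 y1f_h54)) (chk3_a (chk3_c y1f_h55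
      (chk3_b y1f_h56 y1f_h57)) y1f_h58)) (chk3_b (chk3_a (chk3_b y1f_h59 (chk3_a (chk3_c y1f_h60
      y1f_h61) y1f_h62)) (chk3_b (chk3_c y1f_h63 y1f_h64) (chk3_c y1f_h65 y1f_h66))) (chk3_a
      (chk3_a (chk3_b (chk3_c y1f_h67 y1f_h68) (chk3_c y1f_h69 y1f_h70)) (chk3_b y1f_h71
      y1f_h72)) (chk3_b y1f_h73 y1f_h74))))) (chk3_a (chk3_c (chk3_b (chk3_a y1f_h75 (chk3_b
      (chk3_c y1f_h76 y1f_h77) (chk3_c y1f_h78 y1f_h79))) (chk3_a (chk3_b y1f_h80 y1f_h81)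
      (chk3_b (chk3_c y1f_h82 y1f_h83) (chk3_c y1f_h84 y1f_h85)))) (chk3_b (chk3_a (chk3_b
      y1f_h86 y1f_h87) (chk3_b (chk3_c (chk3_a y1f_h88 y1f_h89) (chk3_a y1f_h90 y1f_h91)) (chk3_c
      y1f_h92 y1f_h93))) (chk3_a (chk3_b (chk3_c y1f_h94 y1f_h95) y1f_h96) y1f_h97))) (chk3_c
      (chk3_b (chk3_a (chk3_b (chk3_c y1f_h98 y1f_h99) (chk3_c y1f_h100 (chk3_a y1f_h101
      y1f_h102))) y1f_h103) (chk3_a (chk3_b y1f_h104 y1f_h105) (chk3_b (chk3_c (chk3_a (chk3_a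
      y1f_h106 y1f_h107) y1f_h108) y1f_h109) y1f_h110))) (chk3_b (chk3_a (chk3_b (chk3_a y1f_h111
      y1f_h112) y1f_h113) y1f_h114) y1f_h115)))) (chk3_b (chk3_a (chk3_c (chk3_b (chk3_a (chk3_b
      y1f_h116 y1f_h117) (chk3_b (chk3_c y1f_h118 y1f_h119) (chk3_c y1f_h120 y1f_h121))) (chk3_a
      y1f_h122 y1f_h123)) (chk3_b (chk3_a y1f_h124 y1f_h125) y1f_h126)) (chk3_c (chk3_b (chk3_a
      y1f_h127 y1f_h128) (chk3_a (chk3_b (chk3_c (chk3_a (chk3_a y1f_h129 y1f_h130) y1f_h131)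
      y1f_h132) y1f_h133) y1f_h134)) y1f_h135)) (chk3_a (chk3_c (chk3_b y1f_h136 y1f_h137)
      y1f_h138) (chk3_c (chk3_b y1f_h139 y1f_h140) y1f_h141))))⟩

theorem y2f : Tree 1610612736 12884901888 0 429496730 0 67108864 (L2 Ff) :=
  ⟨_, (chk3_a (chk3_a (chk3_c (chk3_a (chk3_b (chk3_c (chk3_a y2f_h0 (chk3_b (chk3_c y2f_h1
      y2f_h2) y2f_h3)) (chk3_a y2f_h4 y2f_h5)) y2f_h6) y2f_h7) (chk3_a (chk3_c (chk3_a (chk3_b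
      y2f_h8 y2f_h9) y2f_h10) (chk3_a (chk3_b y2f_h11 y2f_h12) y2f_h13)) y2f_h14)) y2f_h15)
      y2f_h16)⟩

theorem y1n : Tree 0 2684354560 1610612736 12884901888 0 26843546 (L1 Fnr) :=
  ⟨_, (chk3_b (chk3_b (chk3_a (chk3_c (chk3_b (chk3_a (chk3_b y1n_h0 (chk3_a y1n_h1 (chk3_c
      y1n_h2 y1n_h3))) (chk3_b y1n_h4 (chk3_a (chk3_c y1n_h5 y1n_h6) (chk3_c y1n_h7 y1n_h8))))
      (chk3_a (chk3_a y1n_h9 (chk3_c (chk3_b y1n_h10 y1n_h11) (chk3_b y1n_h12 y1n_h13))) (chk3_b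
      (chk3_c y1n_h14 y1n_h15) (chk3_c y1n_h16 y1n_h17)))) (chk3_b (chk3_a (chk3_b y1n_h18
      (chk3_a y1n_h19 (chk3_c y1n_h20 y1n_h21))) (chk3_b y1n_h22 (chk3_c (chk3_b y1n_h23 y1n_h24)
      (chk3_a (chk3_a y1n_h25 y1n_h26) (chk3_b y1n_h27 y1n_h28))))) (chk3_a (chk3_b (chk3_a
      y1n_h29 (chk3_c y1n_h30 y1n_h31)) (chk3_c y1n_h32 y1n_h33)) (chk3_b (chk3_c (chk3_a y1n_h34
      (chk3_b y1n_h35 y1n_h36)) (chk3_a y1n_h37 y1n_h38)) (chk3_c (chk3_a y1n_h39 y1n_h40)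
      (chk3_a y1n_h41 y1n_h42)))))) (chk3_c (chk3_b (chk3_a (chk3_b y1n_h43 (chk3_c y1n_h44
      y1n_h45)) y1n_h46) (chk3_a (chk3_c y1n_h47 (chk3_b y1n_h48 (chk3_a y1n_h49 y1n_h50)))
      (chk3_b y1n_h51 (chk3_c y1n_h52 (chk3_a y1n_h53 y1n_h54))))) (chk3_b (chk3_a (chk3_b
      y1n_h55 (chk3_c (chk3_a y1n_h56 y1n_h57) (chk3_a y1n_h58 y1n_h59))) (chk3_b (chk3_b y1n_h60
      (chk3_a y1n_h61 y1n_h62)) (chk3_c y1n_h63 (chk3_a y1n_h64 y1n_h65)))) (chk3_a (chk3_c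
      (chk3_b y1n_h66 y1n_h67) (chk3_a y1n_h68 y1n_h69)) (chk3_b (chk3_a y1n_h70 y1n_h71)
      y1n_h72))))) (chk3_a (chk3_c (chk3_b (chk3_a (chk3_a y1n_h73 (chk3_c y1n_h74 y1n_h75))
      (chk3_b (chk3_c y1n_h76 y1n_h77) (chk3_c y1n_h78 y1n_h79))) (chk3_a (chk3_b y1n_h80
      y1n_h81) (chk3_b (chk3_c y1n_h82 y1n_h83) (chk3_c y1n_h84 y1n_h85)))) (chk3_b (chk3_a
      (chk3_b y1n_h86 (chk3_c y1n_h87 y1n_h88)) (chk3_b (chk3_c (chk3_a y1n_h89 y1n_h90) y1n_h91)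
      (chk3_c y1n_h92 y1n_h93))) (chk3_a (chk3_b y1n_h94 y1n_h95) y1n_h96))) (chk3_c (chk3_b
      (chk3_a (chk3_b (chk3_c y1n_h97 y1n_h98) (chk3_c y1n_h99 y1n_h100)) (chk3_b (chk3_c
      y1n_h101 y1n_h102) y1n_h103)) (chk3_a (chk3_b y1n_h104 y1n_h105) y1n_h106)) (chk3_b (chk3_a
      (chk3_b (chk3_a y1n_h107 y1n_h108) y1n_h109) y1n_h110) y1n_h111)))) (chk3_b (chk3_a (chk3_c
      (chk3_b (chk3_a (chk3_b y1n_h112 y1n_h113) (chk3_b (chk3_c y1n_h114 y1n_h115) y1n_h116))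
      (chk3_a y1n_h117 (chk3_b y1n_h118 y1n_h119))) (chk3_b y1n_h120 y1n_h121)) (chk3_c (chk3_b
      (chk3_a y1n_h122 (chk3_b (chk3_c (chk3_a y1n_h123 (chk3_b (chk3_a (chk3_a y1n_h124
      y1n_h125) y1n_h126) y1n_h127)) y1n_h128) y1n_h129)) (chk3_a (chk3_b y1n_h130 y1n_h131)
      y1n_h132)) y1n_h133)) (chk3_a (chk3_c (chk3_b y1n_h134 y1n_h135) y1n_h136) (chk3_c (chk3_b
      y1n_h137 y1n_h138) y1n_h139))))⟩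

theorem y2n : Tree 1610612736 12884901888 0 429496730 0 67108864 (L2 Fnr) :=
  ⟨_, (chk3_a (chk3_a (chk3_c (chk3_a y2n_h0 y2n_h1) (chk3_a (chk3_a y2n_h2 (chk3_c y2n_h3
      y2n_h4)) y2n_h5)) y2n_h6) y2n_h7)⟩

end Pool.Agent.Strip051.LC.E1.V2
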