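import Pool.Agent.Strip051.LC.E1.V2.Ss
import Pool.Agent.Strip051.LC.E1.V2.CertA
import Pool.Agent.Strip051.LC.E1.Ch.Lk

/-! # Rests near the full period: the row between `1.15` and `1.6` below `2 h0` -/

set_option linter.unusedVariables false
set_option linter.unusedSimpArgs false

namespace Pool.Agent.Strip051.LC.E1.V2

open Pool.Agent.Strip051.PB
open Pool.Agent.Strip051.LC.E1.Ch
open Pool.Agent.Strip051.LC.E0.Ch (onCell Tree)
open Pool.Agent.Strip051.LC.E1.G (hg x3v)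

/-- The two trees decide the row. -/
theorem charts2 {F : VF} {r lam w z q : ℝ} {K : Prop}
    (t1 : Tree 0 2684354560 1610612736 12884901888 0 26843546 (L1 F))
    (t2 : Tree 1610612736 12884901888 0 429496730 0 67108864 (L2 F))
    (D : Dom .npn r lam w z) (q0 : 3 / 2 ≤ q) (q1 : q ≤ 27 / 2)
    (l : ∀ {E : Pt} {h NN P M Q : ℕ}, Enc E NN (-w) → Enc E P q → Enc E M lam → Enc E Q r →
      LfV F h NN P M Q = true → K) : K := by
  have r0 := D.r0
  have l0 := D.l0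
  have n0 : 0 < -w := D.l
  rcases dom_crd D with ⟨e, hN, hr⟩ | ⟨e, hl, hr⟩
  · have hN' : -w ≤ 5 / 2 := hN
    refine t1.sound (Q := fun N' p' r' => N' = -w → p' = q → r' = r → K) ?_ (p := -w) (q := q)
      (x := r) ?_ ?_ ?_ ?_ ?_ ?_ rfl rfl rfl
    · rintro E h A B C N' p' r' hA hB hC hh rfl rfl rfl
      unfold L1 at hh
      rw [frc_eq] at hh
      have h1 : Enc E pone lam := by rw [e]; exact enc_one E
      exact l hA hB h1 hC hh
    all_goals (unfold S; push_cast; linarith)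
  · have e' : -w = 1 := e
    refine t2.sound (Q := fun p' l' r' => p' = q → l' = lam → r' = r → K) ?_ (p := q) (q := lam)
      (x := r) ?_ ?_ ?_ ?_ ?_ ?_ rfl rfl rfl
    · rintro E h A B C p' l' r' hA hB hC hh rfl rfl rfl
      unfold L2 at hh
      rw [frc_eq] at hh
      have h1 : Enc E pone (-w) := by rw [e']; exact enc_one E
      exact l h1 hA hB hC hh
    all_goals (unfold S; push_cast; linarith)

theorem leaf {E : Pt} {F : VF} {R : RowF} (k : Lk F R) {h NN P M Q : ℕ} {r m w z nb : ℝ}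
    {K : Prop} (g : Gm r m w z) (hz : 0 ≤ z) (gd : Good R w z m r K)
    (B : -(E0.G.sg1 w r) ≤ 167 / 50 * m → SBase R w (z0 (-(E0.G.sg1 w r)) r) m r nb)
    (hn : Enc E NN (-w)) (hp : Enc E P (x3v (w + z) r / -(E0.G.sg1 w r))) (hm : Enc E M m)
    (hr : Enc E Q r) (h0 : LfV F h NN P M Q = true) : K := by
  unfold LfV at h0
  refine body_sound ?_ ?_ ?_ ?_ ?_ ?_ h0
  · exact fun _ k' s' hh => gd.of_sk fun lev D hl => dirL_sound k g hn hp hm hr D hl hh
  · exact fun _ k' s' hh => gd.of_sk fun lev D hl => slL_sound k g hn hp hm hr D B hl hh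
  · exact noF_sound
  · exact noF_sound
  · exact fun _ _ j hh => (exL_sound g hz hn hp hm hr hh).elim
  · exact noF_sound

end Pool.Agent.Strip051.LC.E1.V2

namespace Pool.Agent.Strip051.LC.E1

open Pool.Agent.Strip051.LC.E1.Ch
open Pool.Agent.Strip051.LC.E1.V2

/-- V, 12 and 23 on `c1`, `w ≤ 0 ≤ z`, 13 in `[1.15, 1.6]`, the far vertex -/
theorem vu_2_far : ∀ r lam w z xi : ℝ, Dom .npn r lam w z → w + z < 0 →
    xi = E0.G.xi1 w r - E0.G.xi1 z r → G.xv5 (w + z) r ≤ xi → xi ≤ G.xv6 (w + z) r →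
    RowV .far .npn r lam w z xi 0 (G.C1d r lam w) (-G.C1u r lam z) (G.V2 xi r lam (w + z)) := by
  intro r lam w z xi D ht e h5 h6
  have e' : xi = V2.xi w z r := e
  obtain ⟨g, q0, q1⟩ := gm_of D ht (by rw [← e']; exact h5) (by rw [← e']; exact h6)
  have gd := gf D e (by rw [e']; exact g.lt)
  obtain ⟨_, k2, _⟩ : w ≤ 0 ∧ 0 ≤ z ∧ w + z ≤ 0 := D.ok
  refine charts2 y1f y2f D q0 q1 ?_
  intro E h NN P M Q hn hp hm hr h0
  refine leaf (nb := E0.G.om (-(E0.G.sg1 w r)) r) lk_f g k2 gd (fun hs => ?_) hn hp hm hr h0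
  have Hw0 : Hc r lam (w0 (-(E0.G.sg1 w r)) r) := by rw [← g.ew]; exact g.hw
  have := sb_f g.r0 g.m0 D.e g.s0 hs Hw0
  rwa [← g.ew] at this

/-- V, 12 and 23 on `c1`, `w ≤ 0 ≤ z`, 13 in `[1.15, 1.6]`, the near vertex -/
theorem vu_2_near : ∀ r lam w z xi : ℝ, Dom .npn r lam w z → w + z < 0 →
    xi = E0.G.xi1 w r - E0.G.xi1 z r → G.xv5 (w + z) r ≤ xi → xi ≤ G.xv6 (w + z) r →
    RowV .near .npn r lam w z xi 0 (G.C1d r lam w) (-G.C1u r lam z) (G.V2 xi r lam (w + z)) := by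
  intro r lam w z xi D ht e h5 h6
  have e' : xi = V2.xi w z r := e
  obtain ⟨g, q0, q1⟩ := gm_of D ht (by rw [← e']; exact h5) (by rw [← e']; exact h6)
  have gd := gn D e (by rw [e']; exact g.lt)
  obtain ⟨_, k2, _⟩ : w ≤ 0 ∧ 0 ≤ z ∧ w + z ≤ 0 := D.ok
  refine charts2 y1n y2n D q0 q1 ?_
  intro E h NN P M Q hn hp hm hr h0
  refine leaf (nb := G.be (lam * r) * E0.G.om (-(E0.G.sg1 w r)) r) lk_n g k2 gd (fun hs => ?_) hn
    hp hm hr h0
  have Hw0 : Hc r lam (w0 (-(E0.G.sg1 w r)) r) := by rw [← g.ew]; exact g.hw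
  have := sb_n g.r0 g.m0 D.e g.s0 hs Hw0
  rwa [← g.ew] at this

end Pool.Agent.Strip051.LC.E1
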