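import Pool.Agent.Strip051.LC.E1.V2.Rw
import Pool.Agent.Strip051.LC.E1.Ch.Sb
import Pool.Agent.Strip051.LC.E1.Ch.Ph

/-! # Rests near the full period: the rotated triangle as a base point -/

set_option linter.unusedVariables false
set_option linter.unusedSimpArgs false

namespace Pool.Agent.Strip051.LC.E1.V2

open Pool.Agent.Strip051.PB
open Pool.Agent.Strip051.LC.E1.Ch
open Pool.Agent.Strip051.LC.E1.V0
open Pool.Agent.Strip051.LC.E1.G (hg x3v)

theorem hc_le {r m h h' : ℝ} (H : Hc r m h) (e : |h'| ≤ |h|) : Hc r m h' := by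
  have k : |r * h'| ≤ |r * h| := by
    rw [abs_mul, abs_mul]
    exact mul_le_mul_of_nonneg_left e (abs_nonneg r)
  exact ⟨H.r0, k.trans H.a, fun e => k.trans (H.b e), fun e => by have := H.c e; linarith⟩

section

variable {s m r : ℝ} (hr : 0 < r) (hm : 0 < m) (x1 : m * r ≤ 1 / 40) (hs : 0 < s)
  (hs1 : s ≤ 167 / 50 * m)

/-- the height of the first side -/
noncomputable def w0 (s r : ℝ) : ℝ := -(s / 2) - r * E0.G.om s r
/-- the height of the second side -/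
noncomputable def z0 (s r : ℝ) : ℝ := s / 2 - r * E0.G.om s r
/-- the slope of the circles -/
noncomputable def g0 (s r : ℝ) : ℝ := 3 / 4 * s / (1 + E0.G.qw s r)

include hr hm x1 hs hs1

theorem rs_le : r * s ≤ 167 / 2000 := by nlinarith

theorem rs_le' : r * s ≤ 3 / 20 := by
  have := rs_le hr hm x1 hs hs1
  linarith

theorem ab_z : G.aL (m * r) r m s = 0 ∧ G.bL (m * r) r m s = 0 := by
  have h1 := rs_le hr hm x1 hs hs1
  have h2 := rT_le (r := r) (s := s) (c := 167 / 2000) (by norm_num) h1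
  have e1 : hg (s - 167 / 50 * m) = 0 := hg_le (by linarith)
  have e2 := hgz (s := s) hr (a := 29) (b := 400) (by norm_num) (h2.trans (by norm_num))
  have e3 := hgz (s := s) hr (a := 9) (b := 100) (by norm_num) (h2.trans (by norm_num))
  have e4 := hgz (s := s) hr (a := 3) (b := 25) (by norm_num) (h2.trans (by norm_num))
  unfold G.aL G.bL
  rw [e1, e2, e3, e4]
  constructor <;> ring

theorem kU'_e : G.kU' r m s = G.kU r m s := by
  have h1 := rs_le hr hm x1 hs hs1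
  have h2 := rT_le (r := r) (s := s) (c := 167 / 2000) (by norm_num) h1
  have e1 := hgz (s := s) hr (a := 1) (b := 5) (by norm_num) (h2.trans (by norm_num))
  unfold G.kU'
  rw [e1]
  ring

theorem bU'_e : G.bU' r m s = G.bU r m s := by
  have h1 := rs_le hr hm x1 hs hs1
  have h2 := rT_le (r := r) (s := s) (c := 167 / 2000) (by norm_num) h1
  have e1 := hgz (s := s) hr (a := 1) (b := 5) (by norm_num) (h2.trans (by norm_num))
  unfold G.bU'
  rw [e1]
  ring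

omit hm x1 hs1 in
theorem z0_le (h : r * s ≤ 3 / 20) : |z0 s r| ≤ |w0 s r| := by
  have h1 := mul_nonneg hr.le (om_nn hr hs.le h)
  have e : |w0 s r| = s / 2 + r * E0.G.om s r := by
    unfold w0
    rw [abs_of_nonpos (by linarith)]
    ring
  rw [e]
  unfold z0
  rw [abs_le]
  constructor <;> linarith

theorem C1d_k : (G.C1d r m (w0 s r)).k = G.kU r m s * (1 / 2 + r * g0 s r) + g0 s r := by
  have h := rs_le' hr hm x1 hs hs1
  show G.kU r m (-(E0.G.sg1 (w0 s r) r)) * (1 / 2 - r * G.g1 (w0 s r) r) - G.g1 (w0 s r) r = _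
  unfold w0
  rw [E2_sg1 hr hs.le h, E2_g1 hr hs.le h, neg_neg]
  unfold g0
  ring

theorem C1d_b : (G.C1d r m (w0 s r)).b = G.bU r m s * (1 / 2 + r * g0 s r) +
    G.B0 (m * r) * g0 s r := by
  have h := rs_le' hr hm x1 hs hs1
  show G.bU r m (-(E0.G.sg1 (w0 s r) r)) * (1 / 2 - r * G.g1 (w0 s r) r) -
    G.B0 (m * r) * G.g1 (w0 s r) r = _
  unfold w0
  rw [E2_sg1 hr hs.le h, E2_g1 hr hs.le h, neg_neg]
  unfold g0
  ring

theorem C1u_k : (G.C1u r m (z0 s r)).k = G.kU r m s * (1 / 2 - r * g0 s r) - g0 s r := by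
  have h := rs_le' hr hm x1 hs hs1
  show G.kU r m (E0.G.sg1 (z0 s r) r) * (1 / 2 - r * G.g1 (z0 s r) r) - G.g1 (z0 s r) r = _
  unfold z0
  rw [E1_sg1 hr hs.le h, E1_g1 hr hs.le h]
  rfl

theorem C1u_b : (G.C1u r m (z0 s r)).b = G.bU r m s * (1 / 2 - r * g0 s r) -
    G.B0 (m * r) * g0 s r := by
  have h := rs_le' hr hm x1 hs hs1
  show G.bU r m (E0.G.sg1 (z0 s r) r) * (1 / 2 - r * G.g1 (z0 s r) r) -
    G.B0 (m * r) * G.g1 (z0 s r) r = _
  unfold z0
  rw [E1_sg1 hr hs.le h, E1_g1 hr hs.le h]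
  rfl

omit hm x1 hs1 in
theorem wz0 : w0 s r + z0 s r = -2 * (r * E0.G.om s r) := by
  unfold w0 z0
  ring

omit hm x1 hs1 in
theorem xi_0 (h : r * s ≤ 3 / 20) : xi (w0 s r) (z0 s r) r = 3 / 2 * s := by
  unfold xi w0 z0
  rw [E2_xi1 hr hs.le h, E1_xi1 hr hs.le h]
  ring

omit hm x1 hs1 in
theorem y_0 (h : r * s ≤ 3 / 20) : x3v (w0 s r + z0 s r) r = 3 / 2 * s := by
  rw [wz0 hr hs]
  exact x3v_0 hr hs.le h

omit hm x1 hs1 in
theorem rom_le (h : r * s ≤ 3 / 20) : r * E0.G.om s r ≤ 3 / 50 * s := by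
  have h3 := om_mul hr hs.le h
  have h4 := qw_ge hr hs.le h
  have h1 := om_nn hr hs.le h
  have h5 : E0.G.om s r ≤ 2 / 5 * s ^ 2 := by nlinarith
  calc r * E0.G.om s r ≤ r * (2 / 5 * s ^ 2) := mul_le_mul_of_nonneg_left h5 hr.le
    _ = 2 / 5 * (r * s) * s := by ring
    _ ≤ 2 / 5 * (3 / 20) * s := by gcongr
    _ = 3 / 50 * s := by ring

omit hm x1 hs1 in
theorem t0_abs (h : r * s ≤ 3 / 20) : |w0 s r + z0 s r| ≤ |w0 s r| := by
  have h1 := mul_nonneg hr.le (om_nn hr hs.le h)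
  have h2 := rom_le hr hs h
  rw [wz0 hr hs]
  have e : |w0 s r| = s / 2 + r * E0.G.om s r := by
    unfold w0
    rw [abs_of_nonpos (by linarith)]
    ring
  rw [e, abs_le]
  constructor <;> linarith

omit hm x1 hs1 in
theorem xi1t0 (h : r * s ≤ 3 / 20) (H : Hc r m (w0 s r)) :
    0 ≤ E0.G.xi1 (w0 s r + z0 s r) r ∧ E0.G.xi1 (w0 s r + z0 s r) r < 3 / 2 * s := by
  obtain ⟨h6, h7⟩ := D1_b (hc_le H (t0_abs hr hs h))
  rw [xi1_D, wz0 hr hs] at *
  have h1 := mul_nonneg hr.le (om_nn hr hs.le h)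
  have h2 := rom_le hr hs h
  constructor
  · nlinarith
  · nlinarith

/-! ### The values of the third side -/

omit hm x1 hs1 in
theorem V2_k0 (h : r * s ≤ 3 / 20) (H : Hc r m (w0 s r)) :
    (G.V2 (xi (w0 s r) (z0 s r) r) r m (w0 s r + z0 s r)).k =
      (G.C33 r m (w0 s r + z0 s r)).k := by
  have h1 := xi1t0 hr hs h H
  have h2 := y_0 hr hs h
  show (G.W3 r m (w0 s r + z0 s r)).k + ((G.C33 r m (w0 s r + z0 s r)).k -
    (G.W3 r m (w0 s r + z0 s r)).k) * ((xi (w0 s r) (z0 s r) r -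
      E0.G.xi1 (w0 s r + z0 s r) r) / (x3v (w0 s r + z0 s r) r -
      E0.G.xi1 (w0 s r + z0 s r) r)) = _
  rw [xi_0 hr hs h, h2, div_self (by linarith)]
  ring

omit hm x1 hs1 in
theorem V2_b0 (h : r * s ≤ 3 / 20) (H : Hc r m (w0 s r)) :
    (G.V2 (xi (w0 s r) (z0 s r) r) r m (w0 s r + z0 s r)).b =
      (G.C33 r m (w0 s r + z0 s r)).b := by
  have h1 := xi1t0 hr hs h H
  have h2 := y_0 hr hs h
  show (G.W3 r m (w0 s r + z0 s r)).b + ((G.C33 r m (w0 s r + z0 s r)).b -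
    (G.W3 r m (w0 s r + z0 s r)).b) * ((xi (w0 s r) (z0 s r) r -
      E0.G.xi1 (w0 s r + z0 s r) r) / (x3v (w0 s r + z0 s r) r -
      E0.G.xi1 (w0 s r + z0 s r) r)) = _
  rw [xi_0 hr hs h, h2, div_self (by linarith)]
  ring

theorem C33_k0 : (G.C33 r m (w0 s r + z0 s r)).k = 2 * g0 s r * (1 + r * G.kU r m s) := by
  have h := rs_le' hr hm x1 hs hs1
  have h4 := qw_ge hr hs.le h
  have h5 := rrom hr hs.le h
  show x3v (w0 s r + z0 s r) r * (1 + r * G.kU' r m (2 / 3 * x3v (w0 s r + z0 s r) r)) /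
    (2 + r * (w0 s r + z0 s r) / 2) = _
  rw [y_0 hr hs h, show 2 / 3 * (3 / 2 * s) = s by ring, kU'_e hr hm x1 hs hs1, wz0 hr hs,
    show 2 + r * (-2 * (r * E0.G.om s r)) / 2 = 1 + E0.G.qw s r by linear_combination -h5]
  unfold g0
  field_simp
  ring

theorem C33_b0 : (G.C33 r m (w0 s r + z0 s r)).b =
    2 * g0 s r * (G.B0 (m * r) + r * G.bU r m s) := by
  have h := rs_le' hr hm x1 hs hs1
  have h4 := qw_ge hr hs.le h
  have h5 := rrom hr hs.le h
  show x3v (w0 s r + z0 s r) r * (G.B0 (m * r) + r * G.bU' r m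
    (2 / 3 * x3v (w0 s r + z0 s r) r)) / (2 + r * (w0 s r + z0 s r) / 2) = _
  rw [y_0 hr hs h, show 2 / 3 * (3 / 2 * s) = s by ring, bU'_e hr hm x1 hs hs1, wz0 hr hs,
    show 2 + r * (-2 * (r * E0.G.om s r)) / 2 = 1 + E0.G.qw s r by linear_combination -h5]
  unfold g0
  field_simp
  ring

omit hm x1 hs1 in
theorem sg0 (h : r * s ≤ 3 / 20) : s * g0 s r = E0.G.om s r := by
  unfold g0 E0.G.om
  ring

theorem b13_0 : (if x3v (w0 s r + z0 s r) r ≤ xi (w0 s r) (z0 s r) r then 0 else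
    (G.V2 (xi (w0 s r) (z0 s r) r) r m (w0 s r + z0 s r)).cB) = 0 := by
  have h := rs_le' hr hm x1 hs hs1
  rw [if_pos]
  rw [xi_0 hr hs h, y_0 hr hs h]

theorem l_0 (H : Hc r m (w0 s r)) : l1m.v (w0 s r) m r (m * r) = 0 := by
  have h := rs_le' hr hm x1 hs hs1
  rw [l1m_val H]
  show G.LAM (m * r) * G.bL (m * r) r m (-(E0.G.sg1 (w0 s r) r)) = 0
  unfold w0
  rw [E2_sg1 hr hs.le h, neg_neg, (ab_z hr hm x1 hs hs1).2, mul_zero]

theorem l_1 (H : Hc r m (w0 s r)) : l1p.v (z0 s r) m r (m * r) = 0 := by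
  have h := rs_le' hr hm x1 hs hs1
  rw [l1p_val (hc_le H (z0_le hr hs h))]
  show G.LAM (m * r) * (G.aL (m * r) r m (E0.G.sg1 (z0 s r) r) -
    G.bL (m * r) r m (E0.G.sg1 (z0 s r) r)) = 0
  unfold z0
  rw [E1_sg1 hr hs.le h, (ab_z hr hm x1 hs hs1).1, (ab_z hr hm x1 hs hs1).2, sub_zero, mul_zero]

theorem sb_f (H : Hc r m (w0 s r)) : SBase Rf (w0 s r) (z0 s r) m r (E0.G.om s r) := by
  have h := rs_le' hr hm x1 hs hs1
  have Hz := hc_le H (z0_le hr hs h)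
  have hsg := sg0 hr hs h
  have hom := om_w hr hs.le h
  have hU : Rf.U (w0 s r) (z0 s r) m r = 0 := rfl
  have k12 : Rf.K12 (w0 s r) (z0 s r) m r = G.kU r m s * (1 / 2 + r * g0 s r) + g0 s r := by
    unfold RowF.K12
    simp only [Rf, k1m_wp]
    rw [k1m_val H, C1d_k hr hm x1 hs hs1]
  have k23 : Rf.K23 (w0 s r) (z0 s r) m r = -(G.kU r m s * (1 / 2 - r * g0 s r) - g0 s r) := by
    unfold RowF.K23
    simp only [Rf, k1p_zn]
    rw [k1p_val Hz, C1u_k hr hm x1 hs hs1]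
  have k13 : Rf.K13 (w0 s r) (z0 s r) m r = 2 * g0 s r * (1 + r * G.kU r m s) := by
    have e : Rf.K13 (w0 s r) (z0 s r) m r =
      (G.V2 (xi (w0 s r) (z0 s r) r) r m (w0 s r + z0 s r)).k := rfl
    rw [e, V2_k0 hr hs h H, C33_k0 hr hm x1 hs hs1]
  have a12 : Rf.A12 (w0 s r) (z0 s r) m r = 0 := by
    unfold RowF.A12
    simp only [Rf, zr7]
    push_cast
    ring
  have a23 : Rf.A23 (w0 s r) (z0 s r) m r = 0 := by
    unfold RowF.A23
    simp only [Rf, zr7]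
    push_cast
    ring
  have a13 : Rf.A13 (w0 s r) (z0 s r) m r = 0 := by
    unfold RowF.A13
    simp only [Rf, zr7]
    push_cast
    ring
  have b12 : Rf.B12 (w0 s r) (z0 s r) m r = 0 := by
    unfold RowF.B12
    simp only [Rf, l1m_wp, l_0 hr hm x1 hs hs1 H]
  have b23 : Rf.B23 (w0 s r) (z0 s r) m r = 0 := by
    unfold RowF.B23
    simp only [Rf, l1p_zn, l_1 hr hm x1 hs hs1 H, neg_zero]
  have b13 : Rf.B13 (w0 s r) (z0 s r) m r = 0 := b13_0 hr hm x1 hs hs1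
  have hD : Rf.DL (w0 s r) (z0 s r) m r = 0 := by
    unfold RowF.DL
    rw [dln_val, k12, k23, k13]
    ring
  have hN : Rf.NF (w0 s r) (z0 s r) m r = r * E0.G.om s r := by
    simp only [RowF.NF, Rf, v0_nff]
    rw [wz0 hr hs]
    push_cast
    ring
  have hG : Rf.GM (w0 s r) (z0 s r) m r = -E0.G.om s r := by
    unfold RowF.GM
    rw [k12, k23, k13]
    show Fn6.v gm2 _ _ _ _ _ _ = _
    rw [gm2_val, wz0 hr hs]
    unfold z0
    linear_combination (-(1 + r * G.kU r m s)) * hsg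
  have hb : Rf.NU (w0 s r) (z0 s r) m r / r + Rf.BS (w0 s r) (z0 s r) m r =
      -E0.G.om s r + 0 := by
    have e1 := E2_xi1 hr hs.le h
    have e2 := E1_xi1 hr hs.le h
    simp only [RowF.NU, RowF.BS, Rf, nu0, v0_bsf, xi1_val]
    rw [wz0 hr hs]
    unfold w0 z0
    rw [e1, e2]
    push_cast
    linear_combination (-1 : ℝ) * hom
  have v1 : 0 ≤ Rf.V1A (w0 s r) (z0 s r) m r / r + Rf.V1B (w0 s r) (z0 s r) m r := by
    unfold RowF.V1A RowF.V1B
    rw [a12, a23, a13, b12, b23, b13]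
    simp only [Rf, vf1_val]
    simp
  have v2 : 0 ≤ Rf.V2A (w0 s r) (z0 s r) m r / r + Rf.V2B (w0 s r) (z0 s r) m r := by
    unfold RowF.V2A RowF.V2B
    rw [a12, a23, a13, b12, b23, b13]
    simp only [Rf, vf2_val]
    simp
  have hL : Rf.L (w0 s r) (z0 s r) ≠ 0 := by
    show Fn3.v lnw _ _ _ ≠ 0
    rw [lnw_val]
    have := mul_nonneg hr.le (om_nn hr hs.le h)
    unfold w0
    intro h0
    linarith
  exact sb_core hr hm x1 hU hD hN hG hb le_rfl (Or.inl hL) v1 v2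

theorem sb_n (H : Hc r m (w0 s r)) :
    SBase Rn (w0 s r) (z0 s r) m r (G.be (m * r) * E0.G.om s r) := by
  have h := rs_le' hr hm x1 hs hs1
  have Hz := hc_le H (z0_le hr hs h)
  have hsg := sg0 hr hs h
  have hom := om_w hr hs.le h
  have x0 : 0 < m * r := mul_pos hm hr
  have hU : Rn.U (w0 s r) (z0 s r) m r = 0 := rfl
  have k12 : Rn.K12 (w0 s r) (z0 s r) m r = G.nk (m * r)
      (G.kU r m s * (1 / 2 + r * g0 s r) + g0 s r)
      (G.bU r m s * (1 / 2 + r * g0 s r) + G.B0 (m * r) * g0 s r) := by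
    unfold RowF.K12
    simp only [Rn, nk1m_wp, k1m_wp, b1m_wp, nkf_val]
    rw [k1m_val H, C1d_k hr hm x1 hs hs1, b1m_val H, C1d_b hr hm x1 hs hs1]
    rfl
  have k23 : Rn.K23 (w0 s r) (z0 s r) m r = G.nk (m * r)
      (-(G.kU r m s * (1 / 2 - r * g0 s r) - g0 s r))
      (-(G.bU r m s * (1 / 2 - r * g0 s r) - G.B0 (m * r) * g0 s r)) := by
    unfold RowF.K23
    simp only [Rn, nk1p_zn, k1p_zn, b1p_zn, nkf_val]
    rw [k1p_val Hz, C1u_k hr hm x1 hs hs1, b1p_val Hz, C1u_b hr hm x1 hs hs1]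
    rfl
  have k13 : Rn.K13 (w0 s r) (z0 s r) m r = G.nk (m * r) (2 * g0 s r * (1 + r * G.kU r m s))
      (2 * g0 s r * (G.B0 (m * r) + r * G.bU r m s)) := by
    have e : Rn.K13 (w0 s r) (z0 s r) m r = G.nk (m * r)
      (G.V2 (xi (w0 s r) (z0 s r) r) r m (w0 s r + z0 s r)).k
      (G.V2 (xi (w0 s r) (z0 s r) r) r m (w0 s r + z0 s r)).b := rfl
    rw [e, V2_k0 hr hs h H, C33_k0 hr hm x1 hs hs1, V2_b0 hr hs h H, C33_b0 hr hm x1 hs hs1]
  have a12 : Rn.A12 (w0 s r) (z0 s r) m r = 0 := by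
    unfold RowF.A12
    simp only [Rn, zr7]
    push_cast
    ring
  have a23 : Rn.A23 (w0 s r) (z0 s r) m r = 0 := by
    unfold RowF.A23
    simp only [Rn, zr7]
    push_cast
    ring
  have a13 : Rn.A13 (w0 s r) (z0 s r) m r = 0 := by
    unfold RowF.A13
    simp only [Rn, zr7]
    push_cast
    ring
  have b12 : Rn.B12 (w0 s r) (z0 s r) m r = 0 := by
    unfold RowF.B12
    simp only [Rn, l1m_wp, l_0 hr hm x1 hs hs1 H]
  have b23 : Rn.B23 (w0 s r) (z0 s r) m r = 0 := by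
    unfold RowF.B23
    simp only [Rn, l1p_zn, l_1 hr hm x1 hs hs1 H, neg_zero]
  have b13 : Rn.B13 (w0 s r) (z0 s r) m r = 0 := b13_0 hr hm x1 hs hs1
  have hD : Rn.DL (w0 s r) (z0 s r) m r = 0 := by
    unfold RowF.DL
    rw [dln_val, k12, k23, k13]
    unfold G.nk
    ring
  have hN : Rn.NF (w0 s r) (z0 s r) m r = r * (G.be (m * r) * E0.G.om s r) := by
    simp only [RowF.NF, Rn, v0_nfn, bef_val]
    rw [wz0 hr hs]
    push_cast
    ring
  have hG : Rn.GM (w0 s r) (z0 s r) m r = -(G.be (m * r) * E0.G.om s r) := by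
    unfold RowF.GM
    rw [k12, k23, k13]
    show Fn6.v gm2 _ _ _ _ _ _ = _
    rw [gm2_val, wz0 hr hs]
    unfold z0 G.nk G.be
    linear_combination (-((1 + G.LAM (m * r) * G.mu (m * r)) * (1 + r * G.kU r m s) +
      G.mu (m * r) * (G.B0 (m * r) + r * G.bU r m s))) * hsg
  have hb : Rn.NU (w0 s r) (z0 s r) m r / r + Rn.BS (w0 s r) (z0 s r) m r =
      -(G.be (m * r) * E0.G.om s r) +
        E0.G.om s r * (G.mu (m * r) * G.LAM (m * r) / 2) := by
    have e1 := E2_xi1 hr hs.le h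
    have e2 := E1_xi1 hr hs.le h
    have e3 := one_sub_eh' x0.le (by linarith : m * r ≤ 1)
    have e4 : G.eh (m * r) ≠ 0 := (eh_pos' x0 (by linarith)).ne'
    simp only [RowF.NU, RowF.BS, Rn, nu0, v0_bsn, xi1_val, n1f_val, lmf_val, mu_val', qo_val,
      eh_val]
    rw [wz0 hr hs]
    unfold w0 z0
    rw [e1, e2]
    push_cast
    unfold G.be G.B0
    have e5 := mul_inv_cancel₀ e4
    simp only [div_eq_mul_inv, mul_inv]
    linear_combination (-(1 + G.LAM (m * r) * G.mu (m * r))) * hom +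
      (G.LAM (m * r) * G.mu (m * r) * E0.G.om s r * (G.eh (m * r))⁻¹ / 2) * e3 +
      (G.LAM (m * r) * G.mu (m * r) * E0.G.om s r / 2) * e5
  have v1 : 0 ≤ Rn.V1A (w0 s r) (z0 s r) m r / r + Rn.V1B (w0 s r) (z0 s r) m r := by
    unfold RowF.V1A RowF.V1B
    rw [a12, a23, a13, b12, b23, b13]
    simp only [Rn, mv1_val]
    simp
  have v2 : 0 ≤ Rn.V2A (w0 s r) (z0 s r) m r / r + Rn.V2B (w0 s r) (z0 s r) m r := by
    unfold RowF.V2A RowF.V2B
    rw [a12, a23, a13, b12, b23, b13]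
    simp only [Rn, mv2_val]
    simp
  have hL : Rn.L (w0 s r) (z0 s r) ≠ 0 := by
    show Fn3.v lnw _ _ _ ≠ 0
    rw [lnw_val]
    have := mul_nonneg hr.le (om_nn hr hs.le h)
    unfold w0
    intro h0
    linarith
  have he : (0 : ℝ) ≤ E0.G.om s r * (G.mu (m * r) * G.LAM (m * r) / 2) := by
    have h1 := LAM_nn x0.le (by linarith : m * r ≤ 1)
    have h2 := mu_nn (m * r)
    have h3 := om_nn hr hs.le h
    positivity
  exact sb_core hr hm x1 hU hD hN hG hb he (Or.inl hL) v1 v2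

end

end Pool.Agent.Strip051.LC.E1.V2
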