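import Pool.Agent.Strip051.LC.E1.V2.Rw

/-! # Rests near the full period: the values of the third side and its increments -/

set_option linter.unusedVariables false
set_option linter.unusedSimpArgs false
set_option linter.unusedSectionVars false

namespace Pool.Agent.Strip051.LC.E1.V2

open Pool.Agent.Strip051.PB
open Pool.Agent.Strip051.LC.E1.Ch
open Pool.Agent.Strip051.LC.E1.V0
open Pool.Agent.Strip051.LC.E1.G (hg x3v)

/-! ### The third side -/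

section

variable {r t m xi : ℝ} (hr : 0 < r) (hm : 0 < m) (ht : t < 0) (h1 : -(1 / 8) ≤ r * t)

include hr hm ht h1

theorem k13f_val : v2_k13f.v (x3v t r) t (xi - E0.G.xi1 t r) m r (m * r) =
    (G.V2 xi r m t).k := by
  simp only [v2_k13f, w3k_val, gk_val' hr ht h1 hm]
  show _ = G.wK3 r m (-t) + ((G.C33 r m t).k - G.wK3 r m (-t)) *
    ((xi - E0.G.xi1 t r) / (x3v t r - E0.G.xi1 t r))
  show G.wK3 r m (-t) + (xi - E0.G.xi1 t r) * (((G.C33 r m t).k - G.wK3 r m (-t)) /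
    (x3v t r - E0.G.xi1 t r)) = _
  ring

theorem k13b_val : v0_w3b.v t m r (m * r) +
    (xi - E0.G.xi1 t r) * v2_gb.v (x3v t r) t m r (m * r) = (G.V2 xi r m t).b := by
  simp only [w3b_val, gb_val' hr ht h1 hm]
  show G.wB3 r m (-t) + (xi - E0.G.xi1 t r) * (((G.C33 r m t).b - G.wB3 r m (-t)) /
    (x3v t r - E0.G.xi1 t r)) = G.wB3 r m (-t) + ((G.C33 r m t).b - G.wB3 r m (-t)) *
    ((xi - E0.G.xi1 t r) / (x3v t r - E0.G.xi1 t r))
  ring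

theorem k13n_val : v2_k13n.v (x3v t r) t (xi - E0.G.xi1 t r) m r (m * r) =
    G.nk (m * r) (G.V2 xi r m t).k (G.V2 xi r m t).b := by
  rw [← k13f_val hr hm ht h1, ← k13b_val hr hm ht h1]
  simp only [v2_k13n, v2_w3n, v2_gn, v2_k13f, nkf_val]
  unfold G.nk
  ring

theorem b2_val (h2 : 0 < x3v t r - E0.G.xi1 t r) :
    -t * v2_b2.v (r * x3v t r) t (x3v t r - E0.G.xi1 t r) (xi - E0.G.xi1 t r) r (m * r) =
      (G.V2 xi r m t).cB := by
  simp only [v2_b2, v2_c5, v2_c6, hf_val hr ht h1, lmf_val]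
  push_cast
  show _ = G.v5 r m t + (G.v6 r m t - G.v5 r m t) *
    (20 / 9 * (((xi - E0.G.xi1 t r) / (x3v t r - E0.G.xi1 t r)) - 3 / 20))
  unfold G.v5 G.v6 G.xv5 G.xv6
  have h3 := h2.ne'
  field_simp
  ring

end

/-! ### The increments in `y` -/

section

variable {r s y t m : ℝ}

theorem t0_val (s r : ℝ) : v2_t0.v s r = -2 * (r * E0.G.om s r) := by
  simp only [v2_t0, om_val]
  push_cast
  ring

theorem oms_val (s r : ℝ) : s ^ 2 * v2_oms.v s r = E0.G.om s r := by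
  simp only [v2_oms, qw_val]
  push_cast
  unfold E0.G.om
  rw [div_eq_mul_inv _ (1 + E0.G.qw s r)]
  ring

/-- `r (y - y0) U0` -/
theorem sr_val {q t0 : ℝ} (hr : 0 < r) (hs : 0 < s) (hq : 0 < q) (ht : t < 0)
    (h1 : -(1 / 8) ≤ r * t) (e0 : t0 = -2 * (r * E0.G.om s r)) (ht0 : t0 ≤ 0)
    (h0 : -(1 / 8) ≤ r * t0) (hy : x3v t r = q * s) (hy0 : x3v t0 r = 3 / 2 * s) :
    (3 / 2 * s - E0.G.xi1 t0 r) * (r * (x3v t r - x3v t0 r)) =
      (t0 - t) * v2_sr.v q s t t0 r := by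
  have k1 := x3v_t hr ht.le h1
  have k2 := x3v_t hr ht0 h0
  have e1 : 3 / 2 * s - E0.G.xi1 t0 r =
      s * (3 / 2 - 2 * (r * s * (v2_oms.v s r * D1 t0 r))) := by
    rw [xi1_D]
    have := oms_val s r
    linear_combination D1 t0 r * e0 + (2 * r * D1 t0 r) * this
  have e2 : (q + 3 / 2) * (s * (r * (x3v t r - x3v t0 r))) =
      (t0 - t) * (3 + 3 / 4 * (r * (t + t0))) := by
    have : s * (r * (x3v t r - x3v t0 r)) * (q + 3 / 2) =
        r * x3v t r ^ 2 - r * x3v t0 r ^ 2 := by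
      rw [hy, hy0]; ring
    linear_combination this + k1 - k2
  have h3 : q + 3 / 2 ≠ 0 := by linarith
  simp only [v2_sr, dd1_val]
  push_cast
  rw [e1]
  have e3 : s * (r * (x3v t r - x3v t0 r)) =
      (t0 - t) * (3 + 3 / 4 * (r * (t + t0))) * (q + 3 / 2)⁻¹ := by
    rw [← e2, mul_comm (q + 3 / 2), mul_inv_cancel_right₀ h3]
  linear_combination (3 / 2 - 2 * (r * s * (v2_oms.v s r * D1 t0 r))) * e3

/-- `-t` in terms of the increment of `t` -/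
theorem vv_val {q t0 : ℝ} (hr : 0 < r) (hs : 0 < s) (hv : t < t0) (ht : t < 0)
    (h1 : -(1 / 8) ≤ r * t) (ht0 : t0 ≤ 0)
    (h0 : -(1 / 8) ≤ r * t0) (hy : x3v t r = q * s) (hy0 : x3v t0 r = 3 / 2 * s) :
    (t0 - t) * v2_vv.v q t t0 r = -t := by
  have k1 := x3v_t hr ht.le h1
  have k2 := x3v_t hr ht0 h0
  have h2 : 3 + 3 / 4 * (r * t) ≠ 0 := by nlinarith
  have e1 : r * s ^ 2 * q ^ 2 = -t * (3 + 3 / 4 * (r * t)) := by
    rw [← k1, hy]; ring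
  have e2 : r * s ^ 2 * ((q - 3 / 2) * (q + 3 / 2)) =
      (t0 - t) * (3 + 3 / 4 * (r * (t + t0))) := by
    have : r * s ^ 2 * ((q - 3 / 2) * (q + 3 / 2)) = r * x3v t r ^ 2 - r * x3v t0 r ^ 2 := by
      rw [hy, hy0]; ring
    linear_combination this + k1 - k2
  have h3 : (q - 3 / 2) * (q + 3 / 2) ≠ 0 := by
    intro h
    rw [h, mul_zero] at e2
    have e5 : (3 + 3 / 4 * (r * (t + t0))) ≠ 0 := by nlinarith
    rcases mul_eq_zero.1 e2.symm with h' | h'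
    · linarith
    · exact e5 h'
  simp only [v2_vv]
  push_cast
  rw [show (t0 - t) * (q ^ 2 * ((q - 3 / 2) * (q + 3 / 2))⁻¹ *
    ((3 + 3 / 4 * (r * (t + t0))) * (3 + 3 / 4 * (r * t))⁻¹)) =
    (t0 - t) * (3 + 3 / 4 * (r * (t + t0))) * (q ^ 2 * ((q - 3 / 2) * (q + 3 / 2))⁻¹ *
      (3 + 3 / 4 * (r * t))⁻¹) by ring, ← e2]
  rw [show r * s ^ 2 * ((q - 3 / 2) * (q + 3 / 2)) * (q ^ 2 * ((q - 3 / 2) * (q + 3 / 2))⁻¹ *
      (3 + 3 / 4 * (r * t))⁻¹) = (((q - 3 / 2) * (q + 3 / 2)) *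
        ((q - 3 / 2) * (q + 3 / 2))⁻¹) * ((r * s ^ 2 * q ^ 2) * (3 + 3 / 4 * (r * t))⁻¹) by ring,
    mul_inv_cancel₀ h3, one_mul, e1, mul_assoc, mul_inv_cancel₀ h2, mul_one]

/-- the increment of a quotient -/
theorem gr_alg {p p0 iv d1 o k k0 th dy i2 g0 : ℝ} (hp : p - p0 = dy) (hk : k - k0 = dy * (2 / 3 * (th * i2)))
    (n0 : 1 - d1 * (p0 * iv) ≠ 0) (n1 : 1 - d1 * (p * iv) ≠ 0)
    (e0 : g0 = (k0 - o * (p0 * iv)) * (1 - d1 * (p0 * iv))⁻¹) :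
    (k - o * (p * iv)) * (1 - d1 * (p * iv))⁻¹ - g0 =
      dy * ((2 / 3 * (th * i2) - (o - g0 * d1) * iv) * (1 - d1 * (p * iv))⁻¹) := by
  have e1 : k0 - o * (p0 * iv) = g0 * (1 - d1 * (p0 * iv)) := by
    rw [e0, inv_mul_cancel_right₀ n0]
  have e2 : g0 = g0 * (1 - d1 * (p * iv)) * (1 - d1 * (p * iv))⁻¹ := by
    rw [mul_inv_cancel_right₀ n1]
  have e3 : (k - o * (p * iv)) - g0 * (1 - d1 * (p * iv)) =
      dy * (2 / 3 * (th * i2) - (o - g0 * d1) * iv) := by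
    linear_combination hk + e1 + (g0 * d1 * iv - o * iv) * hp
  calc (k - o * (p * iv)) * (1 - d1 * (p * iv))⁻¹ - g0 =
      ((k - o * (p * iv)) - g0 * (1 - d1 * (p * iv))) * (1 - d1 * (p * iv))⁻¹ := by
        linear_combination (-1 : ℝ) * e2
    _ = _ := by rw [e3]; ring

theorem grk_val {y0 x θ : ℝ}
    (hθ : v2_ruk.v (2 / 3 * y) m r x - v2_ruk.v (2 / 3 * y0) m r x = r * (y - y0) * (2 / 3 * θ))
    (n0 : 1 - D1 t r * (r * y0 * (3 + 3 / 4 * (r * t))⁻¹) ≠ 0)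
    (n1 : 1 - D1 t r * (r * y * (3 + 3 / 4 * (r * t))⁻¹) ≠ 0) :
    v2_gk.v y t m r x - v2_gk.v y0 t m r x =
      r * (y - y0) * v2_grk.v θ (v2_gk.v y0 t m r x) (r * y) t m r x := by
  simp only [v2_grk, v2_grk_7, v2_grk_11, v2_gk, v2_gk_9, v2_gk_20, dd1_val]
  push_cast
  refine gr_alg (p := r * y) (p0 := r * y0) (k0 := (1 + v2_ruk.v (2 / 3 * y0) m r x) *
    (2 + r * t / 2)⁻¹) (by ring) ?_ n0 n1 rfl
  linear_combination (2 + r * t / 2)⁻¹ * hθ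

theorem grb_val {y0 x θ : ℝ}
    (hθ : v2_rub.v (2 / 3 * y) m r x - v2_rub.v (2 / 3 * y0) m r x = r * (y - y0) * (2 / 3 * θ))
    (n0 : 1 - D1 t r * (r * y0 * (3 + 3 / 4 * (r * t))⁻¹) ≠ 0)
    (n1 : 1 - D1 t r * (r * y * (3 + 3 / 4 * (r * t))⁻¹) ≠ 0) :
    v2_gb.v y t m r x - v2_gb.v y0 t m r x =
      r * (y - y0) * v2_grb.v θ (v2_gb.v y0 t m r x) (r * y) t m r x := by
  simp only [v2_grb, v2_grb_7, v2_grb_11, v2_gb, v2_gb_9, v2_gb_20, dd1_val]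
  push_cast
  refine gr_alg (p := r * y) (p0 := r * y0) (k0 := (b0f.v x + v2_rub.v (2 / 3 * y0) m r x) *
    (2 + r * t / 2)⁻¹) (by ring) ?_ n0 n1 rfl
  linear_combination (2 + r * t / 2)⁻¹ * hθ

end

end Pool.Agent.Strip051.LC.E1.V2
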