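import Pool.Agent.Strip051.LC.E1.V2.Lf
import Pool.Agent.Strip051.LC.E1.V2.Vl
import Pool.Agent.Strip051.LC.E1.V2.Bs

/-! # Rests near the full period: the coordinates below `2 h0` -/

set_option linter.unusedVariables false
set_option linter.unusedSimpArgs false
set_option linter.unusedSectionVars false

namespace Pool.Agent.Strip051.LC.E1.V2

open Pool.Agent.Strip051.PB
open Pool.Agent.Strip051.LC.E1.Ch
open Pool.Agent.Strip051.LC.E1.V0
open Pool.Agent.Strip051.LC.E1.G (hg x3v)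

attribute [local irreducible] padd psub pneg pmul psq pinv psqrt psqrtg pabs pps pmax pmin pphi plam
  pcase phf pnat prat pscale pnorm pdc pnc pone ppos pnn Enc

/-! ### The geometry -/

/-- The position of the row. -/
structure Gm (r m w z : ℝ) : Prop where
  r0 : 0 < r
  m0 : 0 < m
  n0 : 0 < -w
  t0 : w + z < 0
  rt : -(1 / 8) ≤ r * (w + z)
  s0 : 0 < -(E0.G.sg1 w r)
  rs : r * -(E0.G.sg1 w r) ≤ 3 / 20
  ew : w = w0 (-(E0.G.sg1 w r)) r
  yy : 0 < x3v (w + z) r - E0.G.xi1 (w + z) r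
  lt : xi w z r < x3v (w + z) r
  u5 : 3 / 20 * (x3v (w + z) r - E0.G.xi1 (w + z) r) ≤ xi w z r - E0.G.xi1 (w + z) r
  u6 : xi w z r - E0.G.xi1 (w + z) r ≤ 3 / 5 * (x3v (w + z) r - E0.G.xi1 (w + z) r)
  v0 : w + z < -2 * (r * E0.G.om (-(E0.G.sg1 w r)) r)
  hw : Hc r m w
  hz : Hc r m z
  ht : Hc r m (w + z)

/-! ### The coordinates -/

/-- what the coordinates are -/
structure CF (E : Pt) (w z m r : ℝ) (X W SN Y C T ZN Z UN YN : ℕ) : Prop where
  kx : Enc E X (m * r)
  kw : Enc E W w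
  ksn : Enc E SN (-(E0.G.sg1 w r) / -w)
  ky : Enc E Y (x3v (w + z) r)
  kc : Enc E C (-(w + z) / r)
  kt : Enc E T (w + z)
  kzn : Enc E ZN (z / -w)
  kz : Enc E Z z
  kun : Enc E UN ((xi w z r - E0.G.xi1 (w + z) r) / -w)
  kyn : Enc E YN ((x3v (w + z) r - E0.G.xi1 (w + z) r) / -w)

theorem crd_sound {E : Pt} {NN P M Q : ℕ} {w z m r : ℝ} {f : (X W SN Y C T ZN Z UN YN : ℕ) → Bool}
    (g : Gm r m w z) (hn : Enc E NN (-w)) (hp : Enc E P (x3v (w + z) r / -(E0.G.sg1 w r)))
    (hm : Enc E M m) (hr : Enc E Q r) (h : crd NN P M Q f = true) :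
    ∃ X W SN Y C T ZN Z UN YN : ℕ, f X W SN Y C T ZN Z UN YN = true ∧
      CF E w z m r X W SN Y C T ZN Z UN YN := by
  unfold crd at h
  simp only [frc_eq] at h
  have n0 := g.n0.ne'
  have s0 := g.s0.ne'
  have r0 := g.r0.ne'
  have hX : Enc E (pnorm (pmul M Q)) (m * r) := enc_norm (enc_mul hm hr)
  have hW : Enc E (pneg NN) w := by
    have := enc_neg hn
    rwa [neg_neg] at this
  have hD : Enc E (dd1.t (pneg NN) Q) (D1 w r) := by
    have := dd1.enc hW hr
    rwa [dd1_val] at this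
  have es : -(E0.G.sg1 w r) / -w = 1 / 2 + D1 w r := by
    unfold E0.G.sg1
    rw [xi1_D, div_eq_iff n0]
    ring
  have hS : Enc E (padd (phf pone) (dd1.t (pneg NN) Q)) (-(E0.G.sg1 w r) / -w) := by
    rw [es]
    exact enc_add (enc_half (enc_one E)) hD
  have hA : Enc E (pnorm (pmul P (padd (phf pone) (dd1.t (pneg NN) Q))))
      (x3v (w + z) r / -w) := by
    have := enc_norm (enc_mul hp hS)
    rwa [div_mul_div_cancel₀ s0] at this
  have hY : Enc E (pnorm (pmul NN (pnorm (pmul P (padd (phf pone) (dd1.t (pneg NN) Q))))))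
      (x3v (w + z) r) := by
    have := enc_norm (enc_mul hn hA)
    rwa [mul_div_cancel₀ _ n0] at this
  set A := pnorm (pmul P (padd (phf pone) (dd1.t (pneg NN) Q))) with hA'
  set Y := pnorm (pmul NN A) with hY'
  have hV : Enc E (v2_vyr.t Y Q) (v2_vyr.v (x3v (w + z) r) r) := v2_vyr.enc hY hr
  have ev := vyr_val g.r0 g.t0 g.rt
  have hC : Enc E (pnorm (pmul Y (v2_vyr.t Y Q))) (-(w + z) / r) := by
    have := enc_norm (enc_mul hY hV)
    rwa [ev] at this
  have hT : Enc E (pnorm (pneg (pmul Q (pnorm (pmul Y (v2_vyr.t Y Q)))))) (w + z) := by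
    have := enc_norm (enc_neg (enc_mul hr hC))
    have e : -(r * (-(w + z) / r)) = w + z := by
      rw [mul_div_cancel₀ _ r0]; ring
    rwa [e] at this
  have hTN : Enc E (pnorm (pneg (pmul Q (pnorm (pmul A (v2_vyr.t Y Q)))))) ((w + z) / -w) := by
    have := enc_norm (enc_neg (enc_mul hr (enc_norm (enc_mul hA hV))))
    have e : -(r * (x3v (w + z) r / -w * v2_vyr.v (x3v (w + z) r) r)) = (w + z) / -w := by
      have e2 : r * (x3v (w + z) r * v2_vyr.v (x3v (w + z) r) r) = -(w + z) := by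
        rw [ev, mul_div_cancel₀ _ r0]
      have e3 : -(r * (x3v (w + z) r / -w * v2_vyr.v (x3v (w + z) r) r)) =
          -(r * (x3v (w + z) r * v2_vyr.v (x3v (w + z) r) r)) / -w := by ring
      rw [e3, e2, neg_neg]
    rwa [e] at this
  set T := pnorm (pneg (pmul Q (pnorm (pmul Y (v2_vyr.t Y Q))))) with hT'
  set TN := pnorm (pneg (pmul Q (pnorm (pmul A (v2_vyr.t Y Q))))) with hTN'
  have hZN : Enc E (padd pone TN) (z / -w) := by
    have := enc_add (enc_one E) hTN
    have e : 1 + (w + z) / -w = z / -w := by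
      rw [eq_div_iff n0, add_mul, div_mul_cancel₀ _ n0]
      ring
    rwa [e] at this
  have hZ : Enc E (pnorm (pmul NN (padd pone TN))) z := by
    have := enc_norm (enc_mul hn hZN)
    rwa [mul_div_cancel₀ _ n0] at this
  set Z := pnorm (pmul NN (padd pone TN)) with hZ'
  have hDt : Enc E (dd1.t T Q) (D1 (w + z) r) := by
    have := dd1.enc hT hr
    rwa [dd1_val] at this
  have hDz : Enc E (dd1.t Z Q) (D1 z r) := by
    have := dd1.enc hZ hr
    rwa [dd1_val] at this
  refine ⟨_, _, _, _, _, _, _, _, _, _, h, hX, hW, hS, hY, hC, hT, hZN, hZ, ?_, ?_⟩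
  · have := enc_norm (enc_add (enc_add hD (enc_mul (enc_norm hZN) hDz)) (enc_mul hTN hDt))
    have e : D1 w r + z / -w * D1 z r + (w + z) / -w * D1 (w + z) r =
        (xi w z r - E0.G.xi1 (w + z) r) / -w := by
      unfold xi
      rw [xi1_D, xi1_D, xi1_D, eq_div_iff n0, add_mul, add_mul, mul_right_comm (z / -w),
        div_mul_cancel₀ _ n0, mul_right_comm ((w + z) / -w), div_mul_cancel₀ _ n0]
      ring
    rwa [e] at this
  · have := enc_norm (enc_add hA (enc_mul hTN hDt))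
    have e : x3v (w + z) r / -w + (w + z) / -w * D1 (w + z) r =
        (x3v (w + z) r - E0.G.xi1 (w + z) r) / -w := by
      rw [xi1_D]
      ring
    rwa [e] at this

end Pool.Agent.Strip051.LC.E1.V2
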