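import Pool.Agent.Strip051.LC.E1.Ch.Pr

/-! # Rests near the full period: finer slopes of the positive part -/

namespace Pool.Agent.Strip051.PB

attribute [local irreducible] padd psub pneg pmul psq pinv psqrt psqrtg pabs pps pmax pmin pphi plam
  pcase phf pnat prat pscale pnorm pdc pnc pone ppos pnn Enc

/-- slope of the positive part, with the quotient if the signs are different -/
noncomputable def pchl (A B D : ℕ) : ℕ :=
  Bool.rec (motive := fun _ => ℕ)
    (Bool.rec (motive := fun _ => ℕ)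
      (Bool.rec (motive := fun _ => ℕ)
        (Bool.rec (motive := fun _ => ℕ) (pmul (pflat 1073741824) (pnorm D))
          (pmul (plam B (psub B A)) (pnorm D)) (ppos (psub B A)))
        (pmul (plam A (psub A B)) (pnorm D)) (ppos (psub A B))) D (band (ppos A) (ppos B)))
    pzero (band (pnp A) (pnp B))

section

variable {E : Pt} {N : ℝ} {A B D : ℕ} {a b : ℝ}

theorem lam_slope {a b N d : ℝ} (e : a - b = N * d) (h : 0 < a - b) :
    max a 0 - max b 0 = N * (min (max (a * (a - b)⁻¹) 0) 1 * d) := by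
  have e2 : ∀ θ : ℝ, N * (θ * d) = θ * (a - b) := fun θ => by rw [e]; ring
  rw [e2]
  rcases le_total a 0 with ha | ha
  · have hb : b ≤ 0 := by linarith
    have h1 : a * (a - b)⁻¹ ≤ 0 := mul_nonpos_of_nonpos_of_nonneg ha (inv_nonneg.2 h.le)
    rw [max_eq_right ha, max_eq_right hb, max_eq_right h1, min_eq_left zero_le_one]
    ring
  · have h1 : 0 ≤ a * (a - b)⁻¹ := mul_nonneg ha (inv_nonneg.2 h.le)
    rw [max_eq_left ha, max_eq_left h1]
    rcases le_total b 0 with hb | hb
    · have h2 : a * (a - b)⁻¹ ≤ 1 := by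
        rw [← div_eq_mul_inv]
        exact (div_le_one h).2 (by linarith)
      rw [max_eq_right hb, min_eq_left h2]
      field_simp
      ring
    · have h2 : 1 ≤ a * (a - b)⁻¹ := by
        rw [← div_eq_mul_inv]
        exact (one_le_div h).2 (by linarith)
      rw [max_eq_left hb, min_eq_right h2]
      ring

/-- positive part, any signs -/
theorem pr_posl (h : Pr E N A B D a b) :
    Pr E N (pps A) (pps B) (pchl A B D) (max a 0) (max b 0) := by
  obtain ⟨d, k, e⟩ := h.d
  refine ⟨enc_pos h.l, enc_pos h.r, ?_⟩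
  unfold pchl
  rcases h1 : band (pnp A) (pnp B) with _ | _
  · rcases h2 : band (ppos A) (ppos B) with _ | _
    · rcases h3 : ppos (psub A B) with _ | _
      · rcases h4 : ppos (psub B A) with _ | _
        · obtain ⟨θ, t0, t1, e'⟩ := pos_slope e
          exact ⟨θ * d, enc_mul (enc_unit t0 t1) (enc_norm k), e'⟩
        · have hp := ppos_sound (enc_sub h.r h.l) h4
          refine ⟨_, enc_mul (enc_lam h.r (enc_sub h.r h.l)) (enc_norm k), ?_⟩
          have := lam_slope (a := b) (b := a) (N := -N) (d := d) (by linarith) hp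
          linarith
      · have hp := ppos_sound (enc_sub h.l h.r) h3
        exact ⟨_, enc_mul (enc_lam h.l (enc_sub h.l h.r)) (enc_norm k), lam_slope e hp⟩
    · obtain ⟨t1, t2⟩ := band_true h2
      refine ⟨d, k, ?_⟩
      rw [max_eq_left (ppos_sound h.l t1).le, max_eq_left (ppos_sound h.r t2).le, e]
  · obtain ⟨t1, t2⟩ := band_true h1
    refine ⟨0, enc_zero E, ?_⟩
    rw [max_eq_right (pnp_sound h.l t1), max_eq_right (pnp_sound h.r t2)]
    ring

end

/-- slopes; the kinds of the arguments are `cvccc` -/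
structure Sl_cvccc (F : Fn5) where
  s : ℕ → ℕ → ℕ → ℕ → ℕ → ℕ → ℕ → ℕ
  snd : ∀ {E : Pt} {N : ℝ} {C1 A2 B2 D2 C3 C4 C5 : ℕ} {c1 a2 b2 c3 c4 c5 : ℝ}, Enc E C1 c1 → Pr E N A2 B2 D2 a2 b2 → Enc E C3 c3 → Enc E C4 c4 → Enc E C5 c5 →
    Pr E N (F.t C1 A2 C3 C4 C5) (F.t C1 B2 C3 C4 C5) (s C1 A2 B2 D2 C3 C4 C5) (F.v c1 a2 c3 c4 c5) (F.v c1 b2 c3 c4 c5)

end Pool.Agent.Strip051.PB
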