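import Pool.Agent.Strip051.LC.E1.V0.Fn
import Pool.Agent.Strip051.LC.E1.V2.Psl

/-! # Rests near the full period: the functions of the row between `1.15` and `1.6` -/

set_option linter.unusedVariables false

namespace Pool.Agent.Strip051.LC.E1.V2

open Pool.Agent.Strip051.PB
open Pool.Agent.Strip051.LC.E1.Ch
open Pool.Agent.Strip051.LC.E1.V0

attribute [local irreducible] padd psub pneg pmul psq pinv psqrt psqrtg pabs pps pmax pmin pphi plam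
  pcase phf pnat prat pscale pnorm pdc pnc pone ppos pnn Enc

noncomputable def v2_l23 : Fn4 := ⟨_, _, fun h1 h2 h3 h4 => (enc_neg (l1p.enc h1 h2 h3 h4))⟩
noncomputable def v2_abg_7 : Fn7 := ⟨_, _, fun h1 h2 h3 h4 h5 h6 h7 => (enc_inv h3)⟩
noncomputable def v2_abg : Fn7 := ⟨_, _, fun h1 h2 h3 h4 h5 h6 h7 => (enc_norm (enc_mul (enc_norm (enc_mul (enc_norm (enc_mul h2 (kx.enc h1))) (enc_norm (enc_mul (enc_norm (enc_mul h4 (v2_abg_7.enc h1 h2 h3 h4 h5 h6 h7))) (enc_norm (enc_mul h5 (v2_abg_7.enc h1 h2 h3 h4 h5 h6 h7))))))) (enc_norm (enc_mul (enc_norm (enc_mul h2 (enc_sq h6))) (enc_inv h7)))))⟩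
noncomputable def v2_h0 : Fn1 := ⟨_, _, fun h1 => (enc_half (enc_sqrt (enc_pnc _ 3)))⟩
noncomputable def v2_c5 : Fn1 := ⟨_, _, fun h1 => (enc_norm (enc_mul (lmf.enc h1) (enc_norm (enc_subr 1283 6250 (enc_scale 2598 125 h1)))))⟩
noncomputable def v2_c6 : Fn1 := ⟨_, _, fun h1 => (enc_norm (enc_mul (lmf.enc h1) (enc_norm (enc_add (enc_scale 2028 125 h1) (enc_rat _ 611 6250)))))⟩
noncomputable def v2_hf_10 : Fn3 := ⟨_, _, fun h1 h2 h3 => (enc_mul (dd1.enc h2 h3) (enc_norm (enc_mul h1 (enc_inv (enc_add (enc_pnc _ 3) (enc_scale 3 4 (enc_mul h3 h2)))))))⟩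
noncomputable def v2_hf : Fn3 := ⟨_, _, fun h1 h2 h3 => (enc_norm (enc_mul (enc_norm (v2_hf_10.enc h1 h2 h3)) (enc_inv (enc_sub (enc_pnc _ 1) (v2_hf_10.enc h1 h2 h3)))))⟩
noncomputable def v2_b2 : Fn6 := ⟨_, _, fun h1 h2 h3 h4 h5 h6 => (enc_norm (enc_scale 20 9 (enc_add (enc_mul (v2_c5.enc h6) (enc_norm (enc_mul (enc_norm (enc_add (v2_hf.enc h1 h2 h5) (enc_rat _ 3 20))) (enc_norm (enc_sub (enc_scale 3 5 h3) h4))))) (enc_mul (v2_c6.enc h6) (enc_norm (enc_mul (enc_norm (enc_add (v2_hf.enc h1 h2 h5) (enc_rat _ 3 5))) (enc_norm (enc_sub h4 (enc_scale 3 20 h3)))))))))⟩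
noncomputable def v2_oms : Fn2 := ⟨_, _, fun h1 h2 => (enc_scale 3 4 (enc_inv (enc_add (enc_pnc _ 1) (qw.enc h1 h2))))⟩
noncomputable def v2_t0 : Fn2 := ⟨_, _, fun h1 h2 => (enc_norm (enc_neg (enc_nat 2 (enc_mul h2 (om.enc h1 h2)))))⟩
noncomputable def v2_sr : Fn5 := ⟨_, _, fun h1 h2 h3 h4 h5 => (enc_norm (enc_mul (enc_norm (enc_mul (enc_norm (enc_add (enc_pnc _ 3) (enc_scale 3 4 (enc_mul h5 (enc_norm (enc_add h3 h4)))))) (enc_norm (enc_sub (enc_rat _ 3 2) (enc_nat 2 (enc_mul (enc_norm (enc_mul h5 h2)) (enc_norm (enc_mul (v2_oms.enc h2 h5) (dd1.enc h4 h5))))))))) (enc_inv (enc_add h1 (enc_rat _ 3 2)))))⟩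
noncomputable def v2_vv : Fn4 := ⟨_, _, fun h1 h2 h3 h4 => (enc_norm (enc_mul (enc_norm (enc_mul (enc_sq h1) (enc_inv (enc_mul (enc_norm (enc_subr 3 2 h1)) (enc_norm (enc_add h1 (enc_rat _ 3 2))))))) (enc_norm (enc_mul (enc_norm (enc_add (enc_pnc _ 3) (enc_scale 3 4 (enc_mul h4 (enc_norm (enc_add h2 h3)))))) (enc_inv (enc_add (enc_pnc _ 3) (enc_scale 3 4 (enc_mul h4 h2))))))))⟩
noncomputable def v2_omk_4 : Fn4 := ⟨_, _, fun h1 h2 h3 h4 => (enc_neg h1)⟩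
noncomputable def v2_omk_7 : Fn4 := ⟨_, _, fun h1 h2 h3 h4 => (enc_subr 1377 2500 (vw3.enc h4))⟩
noncomputable def v2_omk_11 : Fn4 := ⟨_, _, fun h1 h2 h3 h4 => (enc_nat 2 (enc_add (v2_omk_7.enc h1 h2 h3 h4) (enc_rat _ 157 625)))⟩
noncomputable def v2_omk_12 : Fn4 := ⟨_, _, fun h1 h2 h3 h4 => (enc_scale 2 3 (v2_omk_7.enc h1 h2 h3 h4))⟩
noncomputable def v2_omk_16 : Fn4 := ⟨_, _, fun h1 h2 h3 h4 => (enc_sub (v2_omk_4.enc h1 h2 h3 h4) (enc_half h2))⟩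
noncomputable def v2_omk_26 : Fn4 := ⟨_, _, fun h1 h2 h3 h4 => (enc_sub (v2_omk_4.enc h1 h2 h3 h4) h2)⟩
noncomputable def v2_omk_34 : Fn4 := ⟨_, _, fun h1 h2 h3 h4 => (enc_sub (v2_omk_4.enc h1 h2 h3 h4) (enc_scale 5 2 h2))⟩
noncomputable def v2_omk : Fn4 := ⟨_, _, fun h1 h2 h3 h4 => (enc_norm (enc_add (enc_add (enc_add (enc_rat _ 121 2500) (enc_mul (enc_case (v2_omk_16.enc h1 h2 h3 h4) (enc_pnc _ 0) (enc_lam (enc_pos (v2_omk_16.enc h1 h2 h3 h4)) (v2_omk_4.enc h1 h2 h3 h4))) (enc_norm (enc_add (v2_omk_11.enc h1 h2 h3 h4) (enc_rat _ 314 625))))) (enc_mul (enc_case (v2_omk_26.enc h1 h2 h3 h4) (enc_pnc _ 0) (enc_lam (enc_pos (v2_omk_26.enc h1 h2 h3 h4)) (v2_omk_4.enc h1 h2 h3 h4))) (enc_norm (enc_sub (enc_neg (v2_omk_12.enc h1 h2 h3 h4)) (v2_omk_11.enc h1 h2 h3 h4))))) (enc_mul (enc_case (v2_omk_34.enc h1 h2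 h3 h4) (enc_pnc _ 0) (enc_lam (enc_pos (v2_omk_34.enc h1 h2 h3 h4)) (v2_omk_4.enc h1 h2 h3 h4))) (enc_norm (v2_omk_12.enc h1 h2 h3 h4)))))⟩
noncomputable def v2_grk_7 : Fn7 := ⟨_, _, fun h1 h2 h3 h4 h5 h6 h7 => (enc_mul h6 h4)⟩
noncomputable def v2_grk_11 : Fn7 := ⟨_, _, fun h1 h2 h3 h4 h5 h6 h7 => (enc_inv (enc_add (enc_pnc _ 3) (enc_scale 3 4 (v2_grk_7.enc h1 h2 h3 h4 h5 h6 h7))))⟩
noncomputable def v2_grk : Fn7 := ⟨_, _, fun h1 h2 h3 h4 h5 h6 h7 => (enc_norm (enc_mul (enc_norm (enc_sub (enc_scale 2 3 (enc_mul h1 (enc_inv (enc_add (enc_pnc _ 2) (enc_half (v2_grk_7.enc h1 h2 h3 h4 h5 h6 h7)))))) (enc_mul (enc_norm (enc_sub (v2_omk.enc h4 h5 h6 h7) (enc_mul h2 (dd1.enc h4 h6)))) (v2_grk_11.enc h1 h2 h3 h4 h5 h6 h7)))) (enc_inv (enc_sub (enc_pnc _ 1) (enc_mul (dd1.enc h4 h6) (enc_norm (enc_mul h3 (v2_grk_11.enc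 h1 h2 h3 h4 h5 h6 h7))))))))⟩
noncomputable def v2_omb_4 : Fn4 := ⟨_, _, fun h1 h2 h3 h4 => (enc_neg h1)⟩
noncomputable def v2_omb_8 : Fn4 := ⟨_, _, fun h1 h2 h3 h4 => (enc_sub (v2_omb_4.enc h1 h2 h3 h4) (enc_half h2))⟩
noncomputable def v2_omb_15 : Fn4 := ⟨_, _, fun h1 h2 h3 h4 => (enc_sub (v2_omb_4.enc h1 h2 h3 h4) h2)⟩
noncomputable def v2_omb_22 : Fn4 := ⟨_, _, fun h1 h2 h3 h4 => (enc_sub (v2_omb_4.enc h1 h2 h3 h4) (enc_scale 5 2 h2))⟩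
noncomputable def v2_omb : Fn4 := ⟨_, _, fun h1 h2 h3 h4 => (enc_norm (enc_sub (enc_add (enc_subr 3097 2500 (enc_scale 3097 1250 (enc_case (v2_omb_8.enc h1 h2 h3 h4) (enc_pnc _ 0) (enc_lam (enc_pos (v2_omb_8.enc h1 h2 h3 h4)) (v2_omb_4.enc h1 h2 h3 h4))))) (enc_scale 3681 5000 (enc_case (v2_omb_15.enc h1 h2 h3 h4) (enc_pnc _ 0) (enc_lam (enc_pos (v2_omb_15.enc h1 h2 h3 h4)) (v2_omb_4.enc h1 h2 h3 h4))))) (enc_scale 79 100 (enc_case (v2_omb_22.enc h1 h2 h3 h4) (enc_pnc _ 0) (enc_lam (enc_pos (v2_omb_22.enc h1 h2 h3 h4)) (v2_omb_4.enc h1 h2 h3 h4))))))⟩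
noncomputable def v2_grb_7 : Fn7 := ⟨_, _, fun h1 h2 h3 h4 h5 h6 h7 => (enc_mul h6 h4)⟩
noncomputable def v2_grb_11 : Fn7 := ⟨_, _, fun h1 h2 h3 h4 h5 h6 h7 => (enc_inv (enc_add (enc_pnc _ 3) (enc_scale 3 4 (v2_grb_7.enc h1 h2 h3 h4 h5 h6 h7))))⟩
noncomputable def v2_grb : Fn7 := ⟨_, _, fun h1 h2 h3 h4 h5 h6 h7 => (enc_norm (enc_mul (enc_norm (enc_sub (enc_scale 2 3 (enc_mul h1 (enc_inv (enc_add (enc_pnc _ 2) (enc_half (v2_grb_7.enc h1 h2 h3 h4 h5 h6 h7)))))) (enc_mul (enc_norm (enc_sub (v2_omb.enc h4 h5 h6 h7) (enc_mul h2 (dd1.enc h4 h6)))) (v2_grb_11.enc h1 h2 h3 h4 h5 h6 h7)))) (enc_inv (enc_sub (enc_pnc _ 1) (enc_mul (dd1.enc h4 h6) (enc_norm (enc_mul h3 (v2_grb_11.enc h1 h2 h3 h4 h5 h6 h7))))))))⟩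
noncomputable def v2_fak_4 : Fn3 := ⟨_, _, fun h1 h2 h3 => (enc_sqrt (enc_pnc _ 3))⟩
noncomputable def v2_fak_6 : Fn3 := ⟨_, _, fun h1 h2 h3 => (enc_scale 109997 100000 (v2_fak_4.enc h1 h2 h3))⟩
noncomputable def v2_fak_9 : Fn3 := ⟨_, _, fun h1 h2 h3 => (enc_scale 559209 200000 (v2_fak_4.enc h1 h2 h3))⟩
noncomputable def v2_fak : Fn3 := ⟨_, _, fun h1 h2 h3 => (enc_norm (enc_add (enc_add (enc_add (enc_sub (enc_mul (enc_pos (enc_sub h1 h2)) (enc_norm (enc_add (u2k.enc h3) (v2_fak_6.enc h1 h2 h3)))) (enc_mul h1 (v2_fak_6.enc h1 h2 h3))) (enc_mul (enc_pos (enc_sub h1 (enc_scale 8 5 h2))) (enc_norm (enc_sub (enc_neg (v2_fak_9.enc h1 h2 h3)) (u2k.enc h3))))) (enc_mul (enc_pos (enc_sub h1 (enc_scale 11 5 h2))) (enc_norm (enc_add (u4k.enc h3) (v2_fak_9.enc h1 h2 h3))))) (enc_mul (enc_pos (enc_sub h1 (enc_scale 5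 2 h2))) (enc_norm (enc_sub (enc_neg (enc_scale 6303 3125 (v2_fak_4.enc h1 h2 h3))) (u4k.enc h3))))))⟩
noncomputable def v2_fbk : Fn2 := ⟨_, _, fun h1 h2 => (enc_norm (enc_add (enc_sub (enc_scale 2753 2500 (enc_pos (enc_subr 1 10 h1))) (enc_scale 6894 3125 (enc_pos (enc_subr 1 16 h1)))) (enc_scale 12847 2500 (enc_pos (enc_subr 1 5 h1)))))⟩
noncomputable def v2_ruk : Fn4 := ⟨_, _, fun h1 h2 h3 h4 => (enc_norm (enc_add (enc_mul h3 (v2_fak.enc h1 h2 h4)) (v2_fbk.enc (enc_norm (enc_mul h3 (enc_norm (enc_mul (enc_half (enc_sqrt (enc_pnc _ 3))) h1)))) h4)))⟩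
noncomputable def v2_gk_9 : Fn5 := ⟨_, _, fun h1 h2 h3 h4 h5 => (enc_mul h4 h2)⟩
noncomputable def v2_gk_20 : Fn5 := ⟨_, _, fun h1 h2 h3 h4 h5 => (enc_mul (enc_norm (enc_mul h4 h1)) (enc_inv (enc_add (enc_pnc _ 3) (enc_scale 3 4 (v2_gk_9.enc h1 h2 h3 h4 h5)))))⟩
noncomputable def v2_gk : Fn5 := ⟨_, _, fun h1 h2 h3 h4 h5 => (enc_norm (enc_mul (enc_norm (enc_sub (enc_mul (enc_norm (enc_add (enc_pnc _ 1) (v2_ruk.enc (enc_scale 2 3 h1) h3 h4 h5))) (enc_inv (enc_add (enc_pnc _ 2) (enc_half (v2_gk_9.enc h1 h2 h3 h4 h5))))) (enc_mul (v2_omk.enc h2 h3 h4 h5) (enc_norm (v2_gk_20.enc h1 h2 h3 h4 h5))))) (enc_inv (enc_sub (enc_pnc _ 1) (enc_mul (dd1.enc h2 h4) (enc_norm (v2_gk_20.enc h1 h2 h3 h4 h5)))))))⟩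
noncomputable def v2_fab : Fn3 := ⟨_, _, fun h1 h2 h3 => (enc_norm (enc_add (enc_add (enc_add (enc_add (enc_mul h1 (u1b.enc h3)) (enc_mul (enc_pos (enc_sub h1 h2)) (enc_norm (enc_sub (u2b.enc h3) (u1b.enc h3))))) (enc_mul (enc_pos (enc_sub h1 (enc_scale 8 5 h2))) (enc_norm (enc_sub (u3b.enc h3) (u2b.enc h3))))) (enc_mul (enc_pos (enc_sub h1 (enc_scale 11 5 h2))) (enc_norm (enc_sub (u4b.enc h3) (u3b.enc h3))))) (enc_mul (enc_pos (enc_sub h1 (enc_scale 5 2 h2))) (enc_norm (enc_sub (u5b.enc h3) (u4b.enc h3))))))⟩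
noncomputable def v2_fbb_6 : Fn2 := ⟨_, _, fun h1 h2 => (enc_subr 8487 100000 (enc_scale 4 5 (b0f.enc h2)))⟩
noncomputable def v2_fbb_11 : Fn2 := ⟨_, _, fun h1 h2 => (enc_scale 80 3 (enc_sub (v2_fbb_6.enc h1 h2) (enc_add (enc_scale 7 8 (b0f.enc h2)) (enc_rat _ 23151 50000))))⟩
noncomputable def v2_fbb : Fn2 := ⟨_, _, fun h1 h2 => (enc_norm (enc_add (enc_add (enc_mul (enc_pos (enc_subr 1 16 h1)) (enc_norm (enc_sub (v2_fbb_11.enc h1 h2) (enc_sub (enc_rat _ 23151 3125) (enc_nat 2 (b0f.enc h2)))))) (enc_mul (enc_pos (enc_subr 1 10 h1)) (enc_norm (enc_sub (enc_neg (enc_nat 10 (v2_fbb_6.enc h1 h2))) (v2_fbb_11.enc h1 h2))))) (enc_mul (enc_pos (enc_subr 1 5 h1)) (enc_norm (enc_subr 8487 10000 (enc_nat 8 (b0f.enc h2)))))))⟩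
noncomputable def v2_rub : Fn4 := ⟨_, _, fun h1 h2 h3 h4 => (enc_norm (enc_add (enc_mul h3 (v2_fab.enc h1 h2 h4)) (v2_fbb.enc (enc_norm (enc_mul h3 (enc_norm (enc_mul (enc_half (enc_sqrt (enc_pnc _ 3))) h1)))) h4)))⟩
noncomputable def v2_gb_9 : Fn5 := ⟨_, _, fun h1 h2 h3 h4 h5 => (enc_mul h4 h2)⟩
noncomputable def v2_gb_20 : Fn5 := ⟨_, _, fun h1 h2 h3 h4 h5 => (enc_mul (enc_norm (enc_mul h4 h1)) (enc_inv (enc_add (enc_pnc _ 3) (enc_scale 3 4 (v2_gb_9.enc h1 h2 h3 h4 h5)))))⟩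
noncomputable def v2_gb : Fn5 := ⟨_, _, fun h1 h2 h3 h4 h5 => (enc_norm (enc_mul (enc_norm (enc_sub (enc_mul (enc_norm (enc_add (b0f.enc h5) (v2_rub.enc (enc_scale 2 3 h1) h3 h4 h5))) (enc_inv (enc_add (enc_pnc _ 2) (enc_half (v2_gb_9.enc h1 h2 h3 h4 h5))))) (enc_mul (v2_omb.enc h2 h3 h4 h5) (enc_norm (v2_gb_20.enc h1 h2 h3 h4 h5))))) (enc_inv (enc_sub (enc_pnc _ 1) (enc_mul (dd1.enc h2 h4) (enc_norm (v2_gb_20.enc h1 h2 h3 h4 h5)))))))⟩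
noncomputable def v2_vyr : Fn2 := ⟨_, _, fun h1 h2 => (enc_norm (enc_scale 2 3 (enc_mul h1 (enc_inv (enc_add (enc_pnc _ 1) (enc_sqrt (enc_sub (enc_pnc _ 1) (enc_scale 1 3 (enc_sq (enc_norm (enc_mul h2 h1)))))))))))⟩
noncomputable def v2_l23_vccc : Sl_vccc v2_l23 := ⟨_, fun h1 h2 h3 h4 => (pr_neg (l1p_vccc.snd h1 h2 h3 h4))⟩
noncomputable def v2_fak_vcc : Sl_vcc v2_fak := ⟨_, fun h1 h2 h3 => (pr_norm (pr_add (pr_add (pr_add (pr_sub (pr_mulc (pr_nd (pr_posl (pr_subc h1 h2))) (enc_norm (enc_add (u2k.enc h3) (v2_fak_6.enc h1.l h2 h3)))) (pr_mulc h1 (v2_fak_6.enc h1.l h2 h3))) (pr_mulc (pr_nd (pr_posl (pr_subc h1 (enc_scale 8 5 h2)))) (enc_norm (enc_sub (enc_neg (v2_fak_9.enc h1.l h2 h3)) (u2k.enc h3))))) (pr_mulc (pr_nd (pr_posl (pr_subc h1 (enc_scale 11 5 h2)))) (enc_norm (enc_add (u4k.enc h3) (v2_fak_9.enc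 h1.l h2 h3))))) (pr_mulc (pr_nd (pr_posl (pr_subc h1 (enc_scale 5 2 h2)))) (enc_norm (enc_sub (enc_neg (enc_scale 6303 3125 (v2_fak_4.enc h1.l h2 h3))) (u4k.enc h3))))))⟩
noncomputable def v2_fab_vcc : Sl_vcc v2_fab := ⟨_, fun h1 h2 h3 => (pr_norm (pr_add (pr_add (pr_add (pr_add (pr_mulc h1 (u1b.enc h3)) (pr_mulc (pr_nd (pr_posl (pr_subc h1 h2))) (enc_norm (enc_sub (u2b.enc h3) (u1b.enc h3))))) (pr_mulc (pr_nd (pr_posl (pr_subc h1 (enc_scale 8 5 h2)))) (enc_norm (enc_sub (u3b.enc h3) (u2b.enc h3))))) (pr_mulc (pr_nd (pr_posl (pr_subc h1 (enc_scale 11 5 h2)))) (enc_norm (enc_sub (u4b.enc h3) (u3b.enc h3))))) (pr_mulc (pr_nd (pr_posl (pr_subc h1 (enc_scale 5 2 h2)))) (enc_norm (enc_sub (u5b.enc h3) (u4b.enc h3))))))⟩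
noncomputable def v2_fbk_vc : Sl_vc v2_fbk := ⟨_, fun h1 h2 => (pr_norm (pr_add (pr_sub (pr_scale 2753 2500 (pr_posh (pr_subr 1 10 h1))) (pr_scale 6894 3125 (pr_posh (pr_subr 1 16 h1)))) (pr_scale 12847 2500 (pr_posh (pr_subr 1 5 h1)))))⟩
noncomputable def v2_fbb_vc : Sl_vc v2_fbb := ⟨_, fun h1 h2 => (pr_norm (pr_add (pr_add (pr_mulc (pr_nd (pr_posh (pr_subr 1 16 h1))) (enc_norm (enc_sub (v2_fbb_11.enc h1.l h2) (enc_sub (enc_rat _ 23151 3125) (enc_nat 2 (b0f.enc h2)))))) (pr_mulc (pr_nd (pr_posh (pr_subr 1 10 h1))) (enc_norm (enc_sub (enc_neg (enc_nat 10 (v2_fbb_6.enc h1.l h2))) (v2_fbb_11.enc h1.l h2))))) (pr_mulc (pr_nd (pr_posh (pr_subr 1 5 h1))) (enc_norm (enc_subr 8487 10000 (enc_nat 8 (b0f.enc h2)))))))⟩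
noncomputable def v2_uk_5 : Fn4 := ⟨_, _, fun h1 h2 h3 h4 => (enc_sqrt (enc_pnc _ 3))⟩
noncomputable def v2_uk_7 : Fn4 := ⟨_, _, fun h1 h2 h3 h4 => (enc_scale 109997 100000 (v2_uk_5.enc h1 h2 h3 h4))⟩
noncomputable def v2_uk_10 : Fn4 := ⟨_, _, fun h1 h2 h3 h4 => (enc_scale 559209 200000 (v2_uk_5.enc h1 h2 h3 h4))⟩
noncomputable def v2_uk_41 : Fn4 := ⟨_, _, fun h1 h2 h3 h4 => (enc_mul h3 (enc_norm (enc_mul (enc_half (v2_uk_5.enc h1 h2 h3 h4)) h1)))⟩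
noncomputable def v2_uk : Fn4 := ⟨_, _, fun h1 h2 h3 h4 => (enc_norm (enc_add (enc_add (enc_add (enc_add (enc_sub (enc_mul (enc_pos (enc_sub h1 h2)) (enc_norm (enc_add (u2k.enc h4) (v2_uk_7.enc h1 h2 h3 h4)))) (enc_mul h1 (v2_uk_7.enc h1 h2 h3 h4))) (enc_mul (enc_pos (enc_sub h1 (enc_scale 8 5 h2))) (enc_norm (enc_sub (enc_neg (v2_uk_10.enc h1 h2 h3 h4)) (u2k.enc h4))))) (enc_mul (enc_pos (enc_sub h1 (enc_scale 11 5 h2))) (enc_norm (enc_add (u4k.enc h4) (v2_uk_10.enc h1 h2 h3 h4))))) (enc_mul (enc_pos (enc_sub h1 (enc_scale 5 2 h2))) (enc_norm (enc_sub (enc_neg (enc_scale 6303 3125 (v2_uk_5.enc h1 h2 h3 h4))) (u4k.enc h4))))) (enc_mul (enc_norm (enc_sub (enc_scale 2753 2500 (enc_pos (enc_subr 1 10 (v2_uk_41.enc h1 h2 h3 h4)))) (enc_scale 6894 3125 (enc_pos (enc_subr 1 16 (v2_uk_41.enc h1 h2 h3 h4)))))) (enc_inv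 (enc_max h3 (enc_rat _ 1 100))))))⟩
noncomputable def v2_k1p_5 : Fn4 := ⟨_, _, fun h1 h2 h3 h4 => (v2_uk.enc (sg1.enc h1 h3) h2 h3 h4)⟩
noncomputable def v2_k1p : Fn4 := ⟨_, _, fun h1 h2 h3 h4 => (enc_norm (enc_sub (enc_half (v2_k1p_5.enc h1 h2 h3 h4)) (enc_scale 3 4 (enc_mul (enc_norm (enc_mul (sg1.enc h1 h3) (ic1.enc h1 h3))) (enc_norm (enc_add (enc_pnc _ 1) (enc_mul h3 (v2_k1p_5.enc h1 h2 h3 h4))))))))⟩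
noncomputable def v2_k23f : Fn4 := ⟨_, _, fun h1 h2 h3 h4 => (enc_neg (v2_k1p.enc h1 h2 h3 h4))⟩
noncomputable def v2_hk_9 : Fn5 := ⟨_, _, fun h1 h2 h3 h4 h5 => (enc_mul h4 h2)⟩
noncomputable def v2_hk_20 : Fn5 := ⟨_, _, fun h1 h2 h3 h4 h5 => (enc_mul (enc_norm (enc_mul h4 h1)) (enc_inv (enc_add (enc_pnc _ 3) (enc_scale 3 4 (v2_hk_9.enc h1 h2 h3 h4 h5)))))⟩
noncomputable def v2_hk : Fn5 := ⟨_, _, fun h1 h2 h3 h4 h5 => (enc_norm (enc_mul (enc_norm (enc_sub (enc_mul (enc_norm (enc_add (enc_pnc _ 1) (v2_ruk.enc (enc_scale 2 3 h1) h3 h4 h5))) (enc_inv (enc_add (enc_pnc _ 2) (enc_half (v2_hk_9.enc h1 h2 h3 h4 h5))))) (enc_mul (om3k.enc h2 h3 h4 h5) (enc_norm (v2_hk_20.enc h1 h2 h3 h4 h5))))) (enc_inv (enc_sub (enc_pnc _ 1) (enc_mul (dd1.enc h2 h4) (enc_norm (v2_hk_20.enc h1 h2 h3 h4 h5)))))))⟩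
noncomputable def v2_k13f : Fn6 := ⟨_, _, fun h1 h2 h3 h4 h5 h6 => (enc_norm (enc_add (w3k.enc h2 h4 h5 h6) (enc_mul h3 (v2_gk.enc h1 h2 h4 h5 h6))))⟩
noncomputable def v2_nhf : Fn1 := ⟨_, _, fun h1 => (enc_rat _ 1 2)⟩
noncomputable def v2_uk_41_vccc : Sl_vccc v2_uk_41 := ⟨_, fun h1 h2 h3 h4 => (pr_cmul h3 (pr_norm (pr_cmul (enc_half (v2_uk_5.enc h1.l h2 h3 h4)) h1)))⟩
noncomputable def v2_uk_vccc : Sl_vccc v2_uk := ⟨_, fun h1 h2 h3 h4 => (pr_norm (pr_add (pr_add (pr_add (pr_add (pr_sub (pr_mulc (pr_nd (pr_posl (pr_subc h1 h2))) (enc_norm (enc_add (u2k.enc h4) (v2_uk_7.enc h1.l h2 h3 h4)))) (pr_mulc h1 (v2_uk_7.enc h1.l h2 h3 h4))) (pr_mulc (pr_nd (pr_posl (pr_subc h1 (enc_scale 8 5 h2)))) (enc_norm (enc_sub (enc_neg (v2_uk_10.enc h1.l h2 h3 h4)) (u2k.enc h4))))) (pr_mulc (pr_nd (pr_posl (pr_subc h1 (enc_scale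 11 5 h2)))) (enc_norm (enc_add (u4k.enc h4) (v2_uk_10.enc h1.l h2 h3 h4))))) (pr_mulc (pr_nd (pr_posl (pr_subc h1 (enc_scale 5 2 h2)))) (enc_norm (enc_sub (enc_neg (enc_scale 6303 3125 (v2_uk_5.enc h1.l h2 h3 h4))) (u4k.enc h4))))) (pr_mulc (pr_norm (pr_sub (pr_scale 2753 2500 (pr_posl (pr_subr 1 10 (v2_uk_41_vccc.snd h1 h2 h3 h4)))) (pr_scale 6894 3125 (pr_posl (pr_subr 1 16 (v2_uk_41_vccc.snd h1 h2 h3 h4)))))) (enc_inv (enc_max h3 (enc_rat _ 1 100))))))⟩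
noncomputable def v2_k1p_5_vccc : Sl_vccc v2_k1p_5 := ⟨_, fun h1 h2 h3 h4 => (v2_uk_vccc.snd (sg1_vc.snd h1 h3) h2 h3 h4)⟩
noncomputable def v2_k1p_vccc : Sl_vccc v2_k1p := ⟨_, fun h1 h2 h3 h4 => (pr_norm (pr_sub (pr_half (v2_k1p_5_vccc.snd h1 h2 h3 h4)) (pr_scale 3 4 (pr_mul (pr_norm (pr_mul (sg1_vc.snd h1 h3) (pr_nd (ic1_vc.snd h1 h3)))) (pr_norm (pr_cadd (enc_pnc _ 1) (pr_cmul h3 (v2_k1p_5_vccc.snd h1 h2 h3 h4))))))))⟩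
noncomputable def v2_k23f_vccc : Sl_vccc v2_k23f := ⟨_, fun h1 h2 h3 h4 => (pr_neg (v2_k1p_vccc.snd h1 h2 h3 h4))⟩
noncomputable def v2_hk_9_cvccc : Sl_cvccc v2_hk_9 := ⟨_, fun h1 h2 h3 h4 h5 => (pr_cmul h4 h2)⟩
noncomputable def v2_hk_20_cvccc : Sl_cvccc v2_hk_20 := ⟨_, fun h1 h2 h3 h4 h5 => (pr_cmul (enc_norm (enc_mul h4 h1)) (pr_nd (pr_inv (pr_cadd (enc_pnc _ 3) (pr_scale 3 4 (v2_hk_9_cvccc.snd h1 h2 h3 h4 h5))))))⟩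
noncomputable def v2_hk_cvccc : Sl_cvccc v2_hk := ⟨_, fun h1 h2 h3 h4 h5 => (pr_norm (pr_mul (pr_norm (pr_sub (pr_cmul (enc_norm (enc_add (enc_pnc _ 1) (v2_ruk.enc (enc_scale 2 3 h1) h3 h4 h5))) (pr_nd (pr_inv (pr_cadd (enc_pnc _ 2) (pr_half (v2_hk_9_cvccc.snd h1 h2 h3 h4 h5)))))) (pr_mul (om3k_vccc.snd h2 h3 h4 h5) (pr_norm (v2_hk_20_cvccc.snd h1 h2 h3 h4 h5))))) (pr_nd (pr_inv (pr_csub (enc_pnc _ 1) (pr_mul (dd1_vc.snd h2 h4) (pr_norm (v2_hk_20_cvccc.snd h1 h2 h3 h4 h5))))))))⟩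
noncomputable def v2_k12 : Fn4 := ⟨_, _, fun h1 h2 h3 h4 => (nkf.enc h4 (k1m.enc h1 h2 h3 h4) (b1m.enc h1 h2 h3 h4))⟩
noncomputable def v2_ub_37 : Fn4 := ⟨_, _, fun h1 h2 h3 h4 => (enc_mul h3 (enc_norm (enc_mul (enc_half (enc_sqrt (enc_pnc _ 3))) h1)))⟩
noncomputable def v2_ub_45 : Fn4 := ⟨_, _, fun h1 h2 h3 h4 => (enc_subr 8487 100000 (enc_scale 4 5 (b0f.enc h4)))⟩
noncomputable def v2_ub_50 : Fn4 := ⟨_, _, fun h1 h2 h3 h4 => (enc_scale 80 3 (enc_sub (v2_ub_45.enc h1 h2 h3 h4) (enc_add (enc_scale 7 8 (b0f.enc h4)) (enc_rat _ 23151 50000))))⟩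
noncomputable def v2_ub : Fn4 := ⟨_, _, fun h1 h2 h3 h4 => (enc_norm (enc_add (enc_add (enc_add (enc_add (enc_add (enc_mul h1 (u1b.enc h4)) (enc_mul (enc_pos (enc_sub h1 h2)) (enc_norm (enc_sub (u2b.enc h4) (u1b.enc h4))))) (enc_mul (enc_pos (enc_sub h1 (enc_scale 8 5 h2))) (enc_norm (enc_sub (u3b.enc h4) (u2b.enc h4))))) (enc_mul (enc_pos (enc_sub h1 (enc_scale 11 5 h2))) (enc_norm (enc_sub (u4b.enc h4) (u3b.enc h4))))) (enc_mul (enc_pos (enc_sub h1 (enc_scale 5 2 h2))) (enc_norm (enc_sub (u5b.enc h4) (u4b.enc h4))))) (enc_mul (enc_norm (enc_add (enc_mul (enc_pos (enc_subr 1 16 (v2_ub_37.enc h1 h2 h3 h4))) (enc_norm (enc_sub (v2_ub_50.enc h1 h2 h3 h4) (enc_sub (enc_rat _ 23151 3125) (enc_nat 2 (b0f.enc h4)))))) (enc_mul (enc_pos (enc_subr 1 10 (v2_ub_37.enc h1 h2 h3 h4))) (enc_norm (enc_sub (enc_neg (enc_nat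 10 (v2_ub_45.enc h1 h2 h3 h4))) (v2_ub_50.enc h1 h2 h3 h4)))))) (enc_inv (enc_max h3 (enc_rat _ 1 100))))))⟩
noncomputable def v2_b1p_5 : Fn4 := ⟨_, _, fun h1 h2 h3 h4 => (v2_ub.enc (sg1.enc h1 h3) h2 h3 h4)⟩
noncomputable def v2_b1p : Fn4 := ⟨_, _, fun h1 h2 h3 h4 => (enc_norm (enc_sub (enc_half (v2_b1p_5.enc h1 h2 h3 h4)) (enc_scale 3 4 (enc_mul (enc_norm (enc_mul (sg1.enc h1 h3) (ic1.enc h1 h3))) (enc_norm (enc_add (b0f.enc h4) (enc_mul h3 (v2_b1p_5.enc h1 h2 h3 h4))))))))⟩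
noncomputable def v2_k23n : Fn4 := ⟨_, _, fun h1 h2 h3 h4 => (enc_neg (nkf.enc h4 (v2_k1p.enc h1 h2 h3 h4) (v2_b1p.enc h1 h2 h3 h4)))⟩
noncomputable def v2_w3n : Fn4 := ⟨_, _, fun h1 h2 h3 h4 => (nkf.enc h4 (w3k.enc h1 h2 h3 h4) (v0_w3b.enc h1 h2 h3 h4))⟩
noncomputable def v2_gn : Fn5 := ⟨_, _, fun h1 h2 h3 h4 h5 => (nkf.enc h5 (v2_gk.enc h1 h2 h3 h4 h5) (v2_gb.enc h1 h2 h3 h4 h5))⟩
noncomputable def v2_hb_9 : Fn5 := ⟨_, _, fun h1 h2 h3 h4 h5 => (enc_mul h4 h2)⟩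
noncomputable def v2_hb_20 : Fn5 := ⟨_, _, fun h1 h2 h3 h4 h5 => (enc_mul (enc_norm (enc_mul h4 h1)) (enc_inv (enc_add (enc_pnc _ 3) (enc_scale 3 4 (v2_hb_9.enc h1 h2 h3 h4 h5)))))⟩
noncomputable def v2_hb : Fn5 := ⟨_, _, fun h1 h2 h3 h4 h5 => (enc_norm (enc_mul (enc_norm (enc_sub (enc_mul (enc_norm (enc_add (b0f.enc h5) (v2_rub.enc (enc_scale 2 3 h1) h3 h4 h5))) (enc_inv (enc_add (enc_pnc _ 2) (enc_half (v2_hb_9.enc h1 h2 h3 h4 h5))))) (enc_mul (v0_om3b.enc h2 h3 h4 h5) (enc_norm (v2_hb_20.enc h1 h2 h3 h4 h5))))) (enc_inv (enc_sub (enc_pnc _ 1) (enc_mul (dd1.enc h2 h4) (enc_norm (v2_hb_20.enc h1 h2 h3 h4 h5)))))))⟩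
noncomputable def v2_hn : Fn5 := ⟨_, _, fun h1 h2 h3 h4 h5 => (nkf.enc h5 (v2_hk.enc h1 h2 h3 h4 h5) (v2_hb.enc h1 h2 h3 h4 h5))⟩
noncomputable def v2_k13n : Fn6 := ⟨_, _, fun h1 h2 h3 h4 h5 h6 => (enc_norm (enc_add (v2_w3n.enc h2 h4 h5 h6) (enc_mul h3 (v2_gn.enc h1 h2 h4 h5 h6))))⟩
noncomputable def v2_nhn : Fn1 := ⟨_, _, fun h1 => (enc_half (bef.enc h1))⟩
noncomputable def v2_ub_37_vccc : Sl_vccc v2_ub_37 := ⟨_, fun h1 h2 h3 h4 => (pr_cmul h3 (pr_norm (pr_cmul (enc_half (enc_sqrt (enc_pnc _ 3))) h1)))⟩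
noncomputable def v2_ub_vccc : Sl_vccc v2_ub := ⟨_, fun h1 h2 h3 h4 => (pr_norm (pr_add (pr_add (pr_add (pr_add (pr_add (pr_mulc h1 (u1b.enc h4)) (pr_mulc (pr_nd (pr_posl (pr_subc h1 h2))) (enc_norm (enc_sub (u2b.enc h4) (u1b.enc h4))))) (pr_mulc (pr_nd (pr_posl (pr_subc h1 (enc_scale 8 5 h2)))) (enc_norm (enc_sub (u3b.enc h4) (u2b.enc h4))))) (pr_mulc (pr_nd (pr_posl (pr_subc h1 (enc_scale 11 5 h2)))) (enc_norm (enc_sub (u4b.enc h4) (u3b.enc h4))))) (pr_mulc (pr_nd (pr_posl (pr_subc h1 (enc_scale 5 2 h2)))) (enc_norm (enc_sub (u5b.enc h4) (u4b.enc h4))))) (pr_mulc (pr_norm (pr_add (pr_mulc (pr_nd (pr_posl (pr_subr 1 16 (v2_ub_37_vccc.snd h1 h2 h3 h4)))) (enc_norm (enc_sub (v2_ub_50.enc h1.l h2 h3 h4) (enc_sub (enc_rat _ 23151 3125) (enc_nat 2 (b0f.enc h4)))))) (pr_mulc (pr_nd (pr_posl (pr_subr 1 10 (v2_ub_37_vccc.snd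 h1 h2 h3 h4)))) (enc_norm (enc_sub (enc_neg (enc_nat 10 (v2_ub_45.enc h1.l h2 h3 h4))) (v2_ub_50.enc h1.l h2 h3 h4)))))) (enc_inv (enc_max h3 (enc_rat _ 1 100))))))⟩
noncomputable def v2_b1p_5_vccc : Sl_vccc v2_b1p_5 := ⟨_, fun h1 h2 h3 h4 => (v2_ub_vccc.snd (sg1_vc.snd h1 h3) h2 h3 h4)⟩
noncomputable def v2_b1p_vccc : Sl_vccc v2_b1p := ⟨_, fun h1 h2 h3 h4 => (pr_norm (pr_sub (pr_half (v2_b1p_5_vccc.snd h1 h2 h3 h4)) (pr_scale 3 4 (pr_mul (pr_norm (pr_mul (sg1_vc.snd h1 h3) (pr_nd (ic1_vc.snd h1 h3)))) (pr_norm (pr_cadd (b0f.enc h4) (pr_cmul h3 (v2_b1p_5_vccc.snd h1 h2 h3 h4))))))))⟩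
noncomputable def v2_k23n_vccc : Sl_vccc v2_k23n := ⟨_, fun h1 h2 h3 h4 => (pr_neg (nkf_cvv.snd h4 (v2_k1p_vccc.snd h1 h2 h3 h4) (v2_b1p_vccc.snd h1 h2 h3 h4)))⟩
noncomputable def v2_w3n_vccc : Sl_vccc v2_w3n := ⟨_, fun h1 h2 h3 h4 => (nkf_cvv.snd h4 (w3k_vccc.snd h1 h2 h3 h4) (v0_w3b_vccc.snd h1 h2 h3 h4))⟩
noncomputable def v2_hb_9_cvccc : Sl_cvccc v2_hb_9 := ⟨_, fun h1 h2 h3 h4 h5 => (pr_cmul h4 h2)⟩
noncomputable def v2_hb_20_cvccc : Sl_cvccc v2_hb_20 := ⟨_, fun h1 h2 h3 h4 h5 => (pr_cmul (enc_norm (enc_mul h4 h1)) (pr_nd (pr_inv (pr_cadd (enc_pnc _ 3) (pr_scale 3 4 (v2_hb_9_cvccc.snd h1 h2 h3 h4 h5))))))⟩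
noncomputable def v2_hb_cvccc : Sl_cvccc v2_hb := ⟨_, fun h1 h2 h3 h4 h5 => (pr_norm (pr_mul (pr_norm (pr_sub (pr_cmul (enc_norm (enc_add (b0f.enc h5) (v2_rub.enc (enc_scale 2 3 h1) h3 h4 h5))) (pr_nd (pr_inv (pr_cadd (enc_pnc _ 2) (pr_half (v2_hb_9_cvccc.snd h1 h2 h3 h4 h5)))))) (pr_mul (v0_om3b_vccc.snd h2 h3 h4 h5) (pr_norm (v2_hb_20_cvccc.snd h1 h2 h3 h4 h5))))) (pr_nd (pr_inv (pr_csub (enc_pnc _ 1) (pr_mul (dd1_vc.snd h2 h4) (pr_norm (v2_hb_20_cvccc.snd h1 h2 h3 h4 h5))))))))⟩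
noncomputable def v2_hn_cvccc : Sl_cvccc v2_hn := ⟨_, fun h1 h2 h3 h4 h5 => (nkf_cvv.snd h5 (v2_hk_cvccc.snd h1 h2 h3 h4 h5) (v2_hb_cvccc.snd h1 h2 h3 h4 h5))⟩

end Pool.Agent.Strip051.LC.E1.V2
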