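import Pool.Agent.Strip051.LC.E0.BaseP
import Pool.Agent.Strip051.LC.E1.Fn

/-! # Rests near the full period: the rotated triangle below `2 h0` -/

set_option linter.unusedVariables false
set_option linter.unusedSimpArgs false

namespace Pool.Agent.Strip051.LC.E1.V2

open Pool.Agent.Strip051.LC.E0.G (om cc1 xi1 sg1 qw)
open Pool.Agent.Strip051.LC.E0.BaseP (xi1_of x_xi1)
open G (x3v g1)

/-! ### The rotated triangle -/

section

variable {r w : ℝ} (hr : 0 < r) (hw : 0 ≤ w) (hrw : r * w ≤ 3 / 20)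

include hr hw hrw

theorem qw_sq : qw w r ^ 2 = 1 - 3 / 4 * r ^ 2 * w ^ 2 := by
  have h1 : 0 ≤ r * w := mul_nonneg hr.le hw
  exact Real.sq_sqrt (by nlinarith)

theorem qw_ge : 97 / 100 ≤ qw w r := by
  have h1 : 0 ≤ r * w := mul_nonneg hr.le hw
  exact Real.le_sqrt_of_sq_le (by nlinarith)

theorem om_mul : om w r * (1 + qw w r) = 3 / 4 * w ^ 2 := by
  have := qw_ge hr hw hrw
  unfold om
  rw [div_mul_cancel₀ _ (by linarith)]

theorem rrom : r ^ 2 * om w r = 1 - qw w r := by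
  have h1 := qw_sq hr hw hrw
  have h2 := qw_ge hr hw hrw
  have h3 := om_mul hr hw hrw
  have h4 : (r ^ 2 * om w r - (1 - qw w r)) * (1 + qw w r) = 0 := by
    linear_combination r ^ 2 * h3 + h1
  rcases mul_eq_zero.1 h4 with h5 | h5
  · linarith
  · linarith

theorem om_nn : 0 ≤ om w r := by
  have := qw_ge hr hw hrw
  unfold om
  positivity

theorem om_pos (h : 0 < w) : 0 < om w r := by
  have := qw_ge hr hw hrw
  unfold om
  positivity

theorem E1_h : 1 + r * (w / 2 - r * om w r) = qw w r + r * w / 2 := by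
  linear_combination -rrom hr hw hrw

theorem E1_cc1 : cc1 (w / 2 - r * om w r) r = qw w r / 2 - 3 / 4 * r * w := by
  have h1 := qw_sq hr hw hrw
  have h2 := qw_ge hr hw hrw
  unfold cc1
  rw [E1_h hr hw hrw]
  refine (Real.sqrt_eq_iff_mul_self_eq (by nlinarith) (by nlinarith)).2 ?_
  linear_combination -h1

theorem E1_le : 3 / 4 * (1 + r * (w / 2 - r * om w r)) ^ 2 ≤ 1 := by
  have h1 := qw_sq hr hw hrw
  rw [E1_h hr hw hrw]
  nlinarith [sq_nonneg (qw w r / 2 - 3 / 4 * r * w)]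

theorem E1_xi1 : xi1 (w / 2 - r * om w r) r = -(3 / 4 * w) - r * om w r / 2 :=
  xi1_of hr (E1_le hr hw hrw) (E1_cc1 hr hw hrw)
    (by linear_combination (-1 / 2) * rrom hr hw hrw)

theorem E1_sg1 : sg1 (w / 2 - r * om w r) r = w := by
  unfold sg1
  rw [E1_xi1 hr hw hrw]
  ring

theorem E1_g1 : g1 (w / 2 - r * om w r) r = 3 / 4 * w / (1 + qw w r) := by
  have e : cc1 (w / 2 - r * om w r) r / 2 + 3 / 4 * (1 + r * (w / 2 - r * om w r)) = qw w r := by
    rw [E1_cc1 hr hw hrw, E1_h hr hw hrw]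
    ring
  unfold g1
  rw [e, E1_sg1 hr hw hrw]

theorem E2_h : 1 + r * (-(w / 2) - r * om w r) = qw w r - r * w / 2 := by
  linear_combination -rrom hr hw hrw

theorem E2_cc1 : cc1 (-(w / 2) - r * om w r) r = qw w r / 2 + 3 / 4 * r * w := by
  have h1 := qw_sq hr hw hrw
  have h2 := qw_ge hr hw hrw
  have h3 : 0 ≤ r * w := mul_nonneg hr.le hw
  unfold cc1
  rw [E2_h hr hw hrw]
  refine (Real.sqrt_eq_iff_mul_self_eq (by nlinarith [sq_nonneg (qw w r / 2 + 3 / 4 * r * w)])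
    (by linarith)).2 ?_
  linear_combination -h1

theorem E2_le : 3 / 4 * (1 + r * (-(w / 2) - r * om w r)) ^ 2 ≤ 1 := by
  have h1 := qw_sq hr hw hrw
  rw [E2_h hr hw hrw]
  nlinarith [sq_nonneg (qw w r / 2 + 3 / 4 * r * w)]

theorem E2_xi1 : xi1 (-(w / 2) - r * om w r) r = 3 / 4 * w - r * om w r / 2 :=
  xi1_of hr (E2_le hr hw hrw) (E2_cc1 hr hw hrw)
    (by linear_combination (-1 / 2) * rrom hr hw hrw)

theorem E2_sg1 : sg1 (-(w / 2) - r * om w r) r = -w := by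
  unfold sg1
  rw [E2_xi1 hr hw hrw]
  ring

theorem E2_g1 : g1 (-(w / 2) - r * om w r) r = -(3 / 4 * w / (1 + qw w r)) := by
  have e : cc1 (-(w / 2) - r * om w r) r / 2 + 3 / 4 * (1 + r * (-(w / 2) - r * om w r)) =
      qw w r := by
    rw [E2_cc1 hr hw hrw, E2_h hr hw hrw]
    ring
  unfold g1
  rw [e, E2_sg1 hr hw hrw]
  ring

/-- the defect of the rotated triangle -/
theorem om_w : 3 / 8 * w ^ 2 + r ^ 2 * om w r ^ 2 / 2 = om w r := by
  linear_combination (-1 / 2) * om_mul hr hw hrw + om w r / 2 * rrom hr hw hrw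

end

/-- The height from the angle. -/
theorem w_of {r w : ℝ} (hr : 0 < r) (hw : |r * w| ≤ 1 / 16) :
    w = -(-(sg1 w r) / 2) - r * om (-(sg1 w r)) r := by
  obtain ⟨h1, h2⟩ := abs_le.1 hw
  have h3 : 3 / 4 * (1 + r * w) ^ 2 ≤ 1 := by nlinarith
  have h4 := x_xi1 (x := r) (z := w) h3
  have h5 : cc1 w r ^ 2 = 1 - 3 / 4 * (1 + r * w) ^ 2 := Real.sq_sqrt (by linarith)
  have h6 : 0 ≤ cc1 w r := Real.sqrt_nonneg _
  have e1 : r * -(sg1 w r) = cc1 w r - (1 + r * w) / 2 := by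
    unfold sg1
    linear_combination h4
  have e2 : qw (-(sg1 w r)) r = cc1 w r / 2 + 3 / 4 * (1 + r * w) := by
    unfold qw
    rw [show 1 - 3 / 4 * r ^ 2 * (-(sg1 w r)) ^ 2 = 1 - 3 / 4 * (r * -(sg1 w r)) ^ 2 by ring, e1]
    refine (Real.sqrt_eq_iff_mul_self_eq ?_ (by linarith)).2 ?_
    · nlinarith
    · linear_combination -h5
  have e3 : r ^ 2 * om (-(sg1 w r)) r = 1 - qw (-(sg1 w r)) r := by
    have e4 : 0 < 1 + qw (-(sg1 w r)) r := by rw [e2]; linarith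
    unfold om
    rw [← mul_div_assoc, div_eq_iff e4.ne']
    rw [show r ^ 2 * (3 / 4 * (-(sg1 w r)) ^ 2) = 3 / 4 * (r * -(sg1 w r)) ^ 2 by ring, e1, e2]
    linear_combination h5
  have e5 : r * w = r * (-(-(sg1 w r) / 2) - r * om (-(sg1 w r)) r) := by
    have : r * (-(-(sg1 w r) / 2) - r * om (-(sg1 w r)) r) =
        -(r * -(sg1 w r)) / 2 - r ^ 2 * om (-(sg1 w r)) r := by ring
    rw [this, e3, e2, e1]
    ring
  exact mul_left_cancel₀ hr.ne' e5

/-! ### The circle of radius `√3` -/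

section

variable {r t : ℝ} (hr : 0 < r) (h0 : t ≤ 0) (h1 : -(1 / 8) ≤ r * t)

include hr h0 h1

theorem v_nn : 0 ≤ -t / r * (3 + 3 / 4 * (r * t)) := by
  have : 0 ≤ -t / r := div_nonneg (by linarith) hr.le
  exact mul_nonneg this (by linarith)

theorem x3v_sq : x3v t r ^ 2 = -t / r * (3 + 3 / 4 * (r * t)) := by
  have e : -(3 * t / r) - 3 / 4 * t ^ 2 = -t / r * (3 + 3 / 4 * (r * t)) := by
    field_simp
    ring
  unfold x3v
  rw [e]
  exact Real.sq_sqrt (v_nn hr h0 h1)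

theorem rx3v_sq : (r * x3v t r) ^ 2 = -(r * t) * (3 + 3 / 4 * (r * t)) := by
  rw [mul_pow, x3v_sq hr h0 h1]
  field_simp

/-- `y²` and the height -/
theorem x3v_t : r * x3v t r ^ 2 = -t * (3 + 3 / 4 * (r * t)) := by
  rw [x3v_sq hr h0 h1]
  field_simp

end

theorem x3v_nn (t r : ℝ) : 0 ≤ x3v t r := Real.sqrt_nonneg _

theorem x3v_pos {r t : ℝ} (hr : 0 < r) (h0 : t < 0) (h1 : -(1 / 8) ≤ r * t) : 0 < x3v t r := by
  have h2 := x3v_sq hr h0.le h1
  have h3 : 0 < -t / r * (3 + 3 / 4 * (r * t)) :=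
    mul_pos (div_pos (by linarith) hr) (by linarith)
  rw [← h2] at h3
  have := x3v_nn t r
  nlinarith

theorem x3v_mono {r t t' : ℝ} (hr : 0 < r) (h0 : t' ≤ t) (h : t ≤ 0) (h1 : -(1 / 8) ≤ r * t') :
    x3v t r ≤ x3v t' r := by
  unfold x3v
  apply Real.sqrt_le_sqrt
  have h2 : r * t' ≤ r * t := mul_le_mul_of_nonneg_left h0 hr.le
  have e : ∀ u : ℝ, -(3 * u / r) - 3 / 4 * u ^ 2 = -u / r * (3 + 3 / 4 * (r * u)) := fun u => by
    field_simp
    ring
  rw [e, e]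
  have h3 : -t / r ≤ -t' / r := (div_le_div_iff_of_pos_right hr).2 (by linarith)
  have h4 : 0 ≤ -t / r := div_nonneg (by linarith) hr.le
  have e3 : r * t = -(r * r) * (-t / r) := by field_simp
  have e4 : r * t' = -(r * r) * (-t' / r) := by field_simp
  have h5 : r * r * (-t' / r) ≤ 1 / 8 := by linarith
  have h6 : 0 ≤ r * r * (-t / r) := by positivity
  rw [e3, e4]
  nlinarith [mul_nonneg (sub_nonneg.2 h3) (sub_nonneg.2 h5), mul_nonneg (sub_nonneg.2 h3) h6,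
    mul_nonneg (sub_nonneg.2 h3) (mul_nonneg hr.le hr.le)]

section

variable {r s : ℝ} (hr : 0 < r) (hs : 0 ≤ s) (hrs : r * s ≤ 3 / 20)

include hr hs hrs

theorem rt0_ge : -(1 / 8) ≤ r * (-2 * (r * om s r)) := by
  have h1 := rrom hr hs hrs
  have h2 := qw_ge hr hs hrs
  have : r * (-2 * (r * om s r)) = -2 * (r ^ 2 * om s r) := by ring
  rw [this, h1]
  linarith

theorem t0_le : -2 * (r * om s r) ≤ 0 := by
  have := mul_nonneg hr.le (om_nn hr hs hrs)
  linarith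

theorem x3v_0 : x3v (-2 * (r * om s r)) r = 3 / 2 * s := by
  have h1 := rrom hr hs hrs
  have h2 := om_mul hr hs hrs
  have h3 := x3v_sq hr (t0_le hr hs hrs) (rt0_ge hr hs hrs)
  have e : -(-2 * (r * om s r)) / r * (3 + 3 / 4 * (r * (-2 * (r * om s r)))) =
      (3 / 2 * s) ^ 2 := by
    rw [show -(-2 * (r * om s r)) / r = 2 * om s r by field_simp]
    linear_combination 3 * h2 - 3 * om s r * h1
  rw [e] at h3
  exact (sq_eq_sq₀ (x3v_nn _ _) (by linarith)).1 h3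

end

/-- `xi1` decreases. -/
theorem xi1_anti {r z z' : ℝ} (hr : 0 < r) (h : z ≤ z') (h1 : |r * z| ≤ 1 / 16)
    (h2 : |r * z'| ≤ 1 / 16) : xi1 z' r ≤ xi1 z r := by
  obtain ⟨a1, a2⟩ := abs_le.1 h1
  obtain ⟨b1, b2⟩ := abs_le.1 h2
  have e1 := x_xi1 (x := r) (z := z) (by nlinarith)
  have e2 := x_xi1 (x := r) (z := z') (by nlinarith)
  have h3 : cc1 z' r ≤ cc1 z r := by
    unfold cc1
    apply Real.sqrt_le_sqrt
    have : r * z ≤ r * z' := mul_le_mul_of_nonneg_left h hr.le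
    nlinarith
  have h4 : r * xi1 z' r ≤ r * xi1 z r := by rw [e1, e2]; linarith
  exact le_of_mul_le_mul_left h4 hr

end Pool.Agent.Strip051.LC.E1.V2
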