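import Pool.Agent.Strip051.LC.E1.V2.Cr

/-! # Rests near the full period: the position of the row below `2 h0` -/

set_option linter.unusedVariables false
set_option linter.unusedSimpArgs false
set_option linter.unusedSectionVars false

namespace Pool.Agent.Strip051.LC.E1.V2

open Pool.Agent.Strip051.PB
open Pool.Agent.Strip051.LC.E1.Ch
open Pool.Agent.Strip051.LC.E1.V0
open Pool.Agent.Strip051.LC.E1.G (hg x3v)

/-- `D1` below the lattice height -/
theorem D1_ge {r m h : ℝ} (H : Hc r m h) (h0 : h ≤ 0) : 13 / 10 ≤ D1 h r := by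
  have h1 := abs_le.1 H.a
  have hr := H.r0
  have h3 : E0.G.cc1 h r ≤ 3 / 5 := by
    unfold E0.G.cc1
    rw [Real.sqrt_le_iff]
    constructor
    · norm_num
    · nlinarith
  have h4 : 0 ≤ E0.G.cc1 h r := Real.sqrt_nonneg _
  unfold D1
  rw [le_div_iff₀ (by linarith)]
  linarith

theorem gm_of {r m w z : ℝ} (D : Dom .npn r m w z) (ht : w + z < 0)
    (h5 : G.xv5 (w + z) r ≤ xi w z r) (h6 : xi w z r ≤ G.xv6 (w + z) r) :
    Gm r m w z ∧ 3 / 2 ≤ x3v (w + z) r / -(E0.G.sg1 w r) ∧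
      x3v (w + z) r / -(E0.G.sg1 w r) ≤ 27 / 2 := by
  obtain ⟨H1, H2, H3⟩ := hc_of D
  obtain ⟨k1, k2, k3⟩ : w ≤ 0 ∧ 0 ≤ z ∧ w + z ≤ 0 := D.ok
  have hr := D.r0
  have hm := D.l0
  have n0 : 0 < -w := D.l
  have hrN : r * -w ≤ 1 / 16 := D.s
  have hrt : -(1 / 16) ≤ r * (w + z) := by nlinarith
  have hrt' : -(1 / 8) ≤ r * (w + z) := by linarith
  have hz1 : z ≤ -w := by linarith
  obtain ⟨a1, a2⟩ := D1_b H1
  have a3 := D1_ge H1 k1
  obtain ⟨b1, b2⟩ := D1_b H2
  obtain ⟨c1, c2⟩ := D1_b H3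
  have es : -(E0.G.sg1 w r) = -w * (1 / 2 + D1 w r) := by
    unfold E0.G.sg1
    rw [xi1_D]
    ring
  have s0 : 0 < -(E0.G.sg1 w r) := by
    rw [es]
    exact mul_pos n0 (by linarith)
  have s1 : -(E0.G.sg1 w r) ≤ 9 / 4 * -w := by
    rw [es]
    nlinarith
  have rs : r * -(E0.G.sg1 w r) ≤ 3 / 20 := by
    have : r * -(E0.G.sg1 w r) ≤ r * (9 / 4 * -w) := mul_le_mul_of_nonneg_left s1 hr.le
    linarith
  have ew : w = w0 (-(E0.G.sg1 w r)) r := w_of hr H1.a
  -- the circle of radius `√3`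
  have hy := x3v_sq hr ht.le hrt'
  have hy0 := x3v_pos hr ht hrt'
  have x0 : 0 ≤ E0.G.xi1 (w + z) r := by
    rw [xi1_D]
    have := mul_nonneg (by linarith : (0 : ℝ) ≤ -(w + z)) c1
    linarith
  have x1 : E0.G.xi1 (w + z) r ≤ 7 / 4 * -(w + z) := by
    rw [xi1_D]
    have := mul_le_mul_of_nonneg_left c2 (by linarith : (0 : ℝ) ≤ -(w + z))
    linarith
  have yy : 0 < x3v (w + z) r - E0.G.xi1 (w + z) r := by
    have e1 : (7 / 4 * -(w + z)) ^ 2 < x3v (w + z) r ^ 2 := by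
      rw [hy]
      have e2 : (7 / 4 * -(w + z)) ^ 2 = -(w + z) / r * (49 / 16 * (r * -(w + z))) := by
        field_simp
        ring
      rw [e2]
      exact mul_lt_mul_of_pos_left (by linarith) (div_pos (by linarith) hr)
    have e3 := lt_of_pow_lt_pow_left₀ 2 hy0.le e1
    linarith
  have u5 : 3 / 20 * (x3v (w + z) r - E0.G.xi1 (w + z) r) ≤ xi w z r - E0.G.xi1 (w + z) r := by
    unfold G.xv5 at h5
    linarith
  have u6 : xi w z r - E0.G.xi1 (w + z) r ≤ 3 / 5 * (x3v (w + z) r - E0.G.xi1 (w + z) r) := by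
    unfold G.xv6 at h6
    linarith
  have hlt : xi w z r < x3v (w + z) r := by linarith
  -- the base point
  set s := -(E0.G.sg1 w r) with hs
  have t1 := t0_le hr s0.le rs
  have t2 := rt0_ge hr s0.le rs
  have t3 := x3v_0 hr s0.le rs
  have ez : z0 s r = -2 * (r * E0.G.om s r) - w := by
    have := wz0 (s := s) (r := r) hr s0
    rw [← ew] at this
    linarith
  have Hw0 : Hc r m (w0 s r) := by rw [← ew]; exact H1
  have Hz0 := hc_le Hw0 (z0_le hr s0 rs)
  have v0 : w + z < -2 * (r * E0.G.om s r) := by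
    by_contra hc
    push Not at hc
    have e1 := x3v_mono hr hc ht.le t2
    have e2 : z0 s r ≤ z := by rw [ez]; linarith
    have e3 := xi1_anti hr e2 Hz0.a H2.a
    have e4 := xi_0 hr s0 rs
    unfold xi at e4 hlt
    rw [← ew] at e4
    linarith
  have q0 : 3 / 2 * s ≤ x3v (w + z) r := by
    have := x3v_mono hr v0.le t1 hrt'
    rw [t3] at this
    exact this
  have q1 : x3v (w + z) r ≤ 27 / 2 * s := by
    have e1 : x3v (w + z) r ≤ 20 / 3 * xi w z r := by linarith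
    have e2 : xi w z r ≤ -w * (D1 w r + D1 z r) := by
      unfold xi
      rw [xi1_D, xi1_D]
      have := mul_le_mul_of_nonneg_right hz1 b1
      linarith
    have e3 : -w * (D1 w r + D1 z r) ≤ 81 / 40 * s := by
      rw [es]
      have : -w * (D1 w r + D1 z r) ≤ -w * (81 / 40 * (1 / 2 + D1 w r)) :=
        mul_le_mul_of_nonneg_left (by linarith) n0.le
      linarith
    linarith
  refine ⟨⟨hr, hm, n0, ht, hrt', s0, rs, ew, yy, hlt, u5, u6, v0, H1, H2, H3⟩, ?_, ?_⟩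
  · rw [le_div_iff₀ s0]
    exact q0
  · rw [div_le_iff₀ s0]
    exact q1

end Pool.Agent.Strip051.LC.E1.V2
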