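import Pool.Agent.Strip051.LC.E1.V2.Fn
import Pool.Agent.Strip051.LC.E1.Ch.Main

/-! # Rests near the full period: the leaves below `2 h0` -/

set_option linter.unusedVariables false
set_option linter.unusedSimpArgs false
set_option linter.unusedSectionVars false

namespace Pool.Agent.Strip051.LC.E1.V2

open Pool.Agent.Strip051.PB
open Pool.Agent.Strip051.LC.E1.Ch
open Pool.Agent.Strip051.LC.E1.V0

attribute [local irreducible] padd psub pneg pmul psq pinv psqrt psqrtg pabs pps pmax pmin pphi plam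
  pcase phf pnat prat pscale pnorm pdc pnc pone ppos pnn Enc

/-! ### The functions of a vertex -/

/-- the slope of the slope of the third side, the far vertex -/
noncomputable def grf (Y S R T0 Y0 M Q X : ℕ) (f : ℕ → Bool) : Bool :=
  frc (pscale 2 3 Y) fun S1 => frc (v2_h0.t X) fun H0 =>
  frc (pnorm (pmul Q (pnorm (pmul H0 S1)))) fun T1 =>
  frc (pnorm (pmul Q (pnorm (pmul H0 S)))) fun T2 =>
  frc (pnorm (padd (v2_fak_vcc.s S1 S pone M X) (pmul H0 (v2_fbk_vc.s T1 T2 pone X)))) fun TH =>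
  frc (v2_grk.t TH (v2_gk.t Y0 T0 M Q X) R T0 M Q X) f

/-- the slope of the slope of the third side, the near vertex -/
noncomputable def grn (Y S R T0 Y0 M Q X : ℕ) (f : ℕ → Bool) : Bool :=
  frc (pscale 2 3 Y) fun S1 => frc (v2_h0.t X) fun H0 =>
  frc (pnorm (pmul Q (pnorm (pmul H0 S1)))) fun T1 =>
  frc (pnorm (pmul Q (pnorm (pmul H0 S)))) fun T2 =>
  frc (pnorm (padd (v2_fak_vcc.s S1 S pone M X) (pmul H0 (v2_fbk_vc.s T1 T2 pone X)))) fun TH =>
  frc (v2_grk.t TH (v2_gk.t Y0 T0 M Q X) R T0 M Q X) fun GK =>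
  frc (pnorm (padd (v2_fab_vcc.s S1 S pone M X) (pmul H0 (v2_fbb_vc.s T1 T2 pone X)))) fun TB =>
  frc (v2_grb.t TB (v2_gb.t Y0 T0 M Q X) R T0 M Q X) fun GB => frc (nkf.t X GK GB) f

/-- The functions of a vertex. -/
structure VF where
  nf : Fn3
  bs : Fn6
  k12 : Fn4
  k23 : Fn4
  w3 : Fn4
  g : Fn5
  h : Fn5
  k13 : Fn6
  nh : Fn1
  v1 : Fn8
  v2 : Fn8
  nfs : Sl_vvc nf
  bss : Sl_vvvccc bs
  k23s : Sl_vccc k23
  w3s : Sl_vccc w3
  hs : Sl_cvccc h
  v1s : Sl_vvvccvvv v1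
  v2s : Sl_vvvccvvv v2
  gr : (Y S R T0 Y0 M Q X : ℕ) → (ℕ → Bool) → Bool

/-- The far vertex. -/
noncomputable def Ff : VF :=
  ⟨v0_nff, v0_bsf, k1m, v2_k23f, w3k, v2_gk, v2_hk, v2_k13f, v2_nhf, vf1, vf2, v0_nff_vvc,
    v0_bsf_vvvccc, v2_k23f_vccc, w3k_vccc, v2_hk_cvccc, vf1_vvvccvvv, vf2_vvvccvvv, grf⟩

/-- The near vertex. -/
noncomputable def Fnr : VF :=
  ⟨v0_nfn, v0_bsn, v2_k12, v2_k23n, v2_w3n, v2_gn, v2_hn, v2_k13n, v2_nhn, mv1, mv2, v0_nfn_vvc,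
    v0_bsn_vvvccc, v2_k23n_vccc, v2_w3n_vccc, v2_hn_cvccc, mv1_vvvccvvv, mv2_vvvccvvv, grn⟩

/-! ### The tests -/

/-- kind `k = 0`: inside the gap, `1`: crude, else: beyond; `XC` is `x` or `m` -/
noncomputable def tstV (lo : Bool) (k s X R XC M L A B BN DS GP V1 V2 : ℕ) : Bool :=
  Bool.rec (motive := fun _ => Bool)
    (Bool.rec (motive := fun _ => Bool)
      (band (sgS s DS (ouS XC R M L B A (pneg DS) GP) (ouS XC R M L A B DS GP)) lo)
      (band (sgS s DS (lv0 (fcrf.t X M BN (pneg DS)) V1 V2) (lv0 (fcrf.t X M BN DS) V1 V2))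
        (pnn GP)) (Nat.beq k 1))
    (sgS s DS (inS (fun F => lv0 F V1 V2) X R M L B A BN (pneg DS) GP)
      (inS (fun F => lv0 F V1 V2) X R M L A B BN DS GP)) (Nat.beq k 0)

/-- the coordinates of a point: `NN` is `-w`, `P` is `y / s` -/
noncomputable def crd (NN P M Q : ℕ) (f : (X W SN Y C T ZN Z UN YN : ℕ) → Bool) : Bool :=
  frc (pnorm (pmul M Q)) fun X => frc (pneg NN) fun W => frc (dd1.t W Q) fun DW =>
  frc (padd (phf pone) DW) fun SN => frc (pnorm (pmul P SN)) fun A =>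
  frc (pnorm (pmul NN A)) fun Y => frc (v2_vyr.t Y Q) fun VR => frc (pnorm (pmul Y VR)) fun C =>
  frc (pnorm (pneg (pmul Q C))) fun T => frc (pnorm (pneg (pmul Q (pnorm (pmul A VR))))) fun TN =>
  frc (padd pone TN) fun ZN => frc (pnorm (pmul NN ZN)) fun Z =>
  frc (pmul TN (dd1.t T Q)) fun TT =>
  frc (pnorm (padd (padd DW (pmul (pnorm ZN) (dd1.t Z Q))) TT)) fun UN =>
  frc (pnorm (padd A TT)) fun YN => f X W SN Y C T ZN Z UN YN

/-- the values of a leaf -/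
noncomputable def vals (F : VF) (NN X W Y T Z UN YN M Q : ℕ)
    (f : (R NF BS K12 K23 K13 GM DL DS BN L12 L23 B2 L13 V1 V2 : ℕ) → Bool) : Bool :=
  frc (pnorm (pmul Q Y)) fun R => frc (pnorm (pmul NN UN)) fun U =>
  frc (pnorm (pmul NN YN)) fun YY => frc (F.nf.t W T X) fun NF =>
  frc (F.bs.t W Z T M Q X) fun BS => frc (F.k12.t W M Q X) fun K12 =>
  frc (F.k23.t Z M Q X) fun K23 => frc (F.k13.t Y T U M Q X) fun K13 =>
  frc (gm2.t W Z T K12 K23 K13) fun GM => frc (dln.t K12 K23 K13) fun DL =>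
  frc (dsf.t DL (shf.t Q NN)) fun DS => frc (bnf.t X M NF BS GM) fun BN =>
  frc (l1m.t W M Q X) fun L12 => frc (v2_l23.t Z M Q X) fun L23 =>
  frc (v2_b2.t R T YY U Q X) fun B2 => frc (pnorm (pmul (pneg T) B2)) fun L13 =>
  frc (F.v1.t W Z T Q X L12 L23 L13) fun V1 => frc (F.v2.t W Z T Q X L12 L23 L13) fun V2 =>
  f R NF BS K12 K23 K13 GM DL DS BN L12 L23 B2 L13 V1 V2

/-- direct leaf, the second moment divided by `r` -/
noncomputable def dirL (F : VF) (k s NN P M Q : ℕ) : Bool :=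
  crd NN P M Q fun X W SN Y C T ZN Z UN YN =>
  vals F NN X W Y T Z UN YN M Q fun R NF BS K12 K23 K13 GM DL DS BN L12 L23 B2 L13 V1 V2 =>
  frc (pneg T) fun B => frc (F.nh.t X) fun NH => frc (pnorm (padd (pmul NH C) GM)) fun G =>
  tstV (lv0 (padd (pmul (pnorm (pmul NH (m2f.t M NN))) C)
      (psub (brf.t X Q M NN (pnorm (psub Z B)) NF GM DS BS) (v2_abg.t X M NN Z B DS G))) V1 V2)
    k s X pone M M NN Z B BN DS G V1 V2

/-- leaf which tests slopes, with the rotated triangle as base point -/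
noncomputable def slL (F : VF) (k s NN P M Q : ℕ) : Bool :=
  crd NN P M Q fun X W SN Y C T ZN Z UN YN =>
  vals F NN X W Y T Z UN YN M Q fun R NF BS K12 K23 K13 GM DL DS BN L12 L23 B2 L13 V1 V2 =>
  frc (pnorm (pmul NN SN)) fun S => band (pnn (psub (pscale 167 50 M) S))
  (frc (pneg pone) fun D => frc (v2_t0.t S Q) fun T0 => frc (pnorm (psub T0 W)) fun Z0 =>
  frc (pscale 3 2 S) fun Y0 => frc (pnorm (psub Y0 (xi1.t T0 Q))) fun U0 =>
  F.gr Y S R T0 Y0 M Q X fun GR =>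
  frc (pnorm (pneg (padd (xi1_vc.s Z Z0 D Q) (xi1_vc.s T T0 D Q)))) fun Ud =>
  frc (pnorm (padd (padd (F.w3s.s T T0 D M Q X) (pmul Ud (F.g.t Y T M Q X)))
    (padd (pmul U0 (F.hs.s Y T T0 D M Q X)) (pmul (v2_sr.t P S T T0 Q) GR)))) fun Kd =>
  frc (F.k23.t Z0 M Q X) fun K23b => frc (F.k23s.s Z Z0 D M Q X) fun K23d =>
  frc (F.k13.t Y0 T0 U0 M Q X) fun K13b => frc (dln.t K12 K23b K13b) fun DLb =>
  frc (dln_vvv.s K12 K12 pzero K23 K23b K23d K13 K13b Kd) fun DLd =>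
  frc (shf.t Q NN) fun H => frc (shf_cv.s Q NN NN pzero) fun Hd =>
  frc (dsf_zv.s DL DLb DLd H H Hd) fun DSd => frc (gm2.t W Z0 T0 K12 K23b K13b) fun GMb =>
  frc (gm2_vvvvvv.s W W pzero Z Z0 D T T0 D K12 K12 pzero K23 K23b K23d K13 K13b Kd) fun GMd =>
  frc (F.nf.t W T0 X) fun NFb => frc (F.nfs.s W W pzero T T0 D X) fun NFd =>
  frc (F.bs.t W Z0 T0 M Q X) fun BSb => frc (F.bss.s W W pzero Z Z0 D T T0 D M Q X) fun BSd =>
  frc (gpf_cvv.s Q NF NFb NFd GM GMb GMd) fun GPd =>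
  frc (bnf_ccvvv.s X M NF NFb NFd BS BSb BSd GM GMb GMd) fun BNd =>
  frc (v2_l23.t Z0 M Q X) fun L23b => frc (v2_l23_vccc.s Z Z0 D M Q X) fun L23d =>
  frc (pnorm (pmul (v2_vv.t P T T0 Q) B2)) fun L13d =>
  frc (F.v1s.s W W pzero Z Z0 D T T0 D Q X L12 L12 pzero L23 L23b L23d L13 pzero L13d) fun V1d =>
  frc (F.v2s.s W W pzero Z Z0 D T T0 D Q X L12 L12 pzero L23 L23b L23d L13 pzero L13d) fun V2d =>
  frc (pneg T) fun B => tstV false k s X Q X M NN Z B BNd DSd GPd V1d V2d)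

/-- exits: `z` is negative, the position is on one of the sides -/
noncomputable def exL (NN P M Q j : ℕ) : Bool :=
  crd NN P M Q fun X W SN Y C T ZN Z UN YN =>
  Bool.rec (motive := fun _ => Bool)
    (Bool.rec (motive := fun _ => Bool) (ppos (psub UN (pscale 3 5 YN)))
      (ppos (psub (pscale 3 20 YN) UN)) (Nat.beq j 1)) (ppos (pneg ZN)) (Nat.beq j 0)

/-- a leaf -/
noncomputable def LfV (F : VF) (h NN P M Q : ℕ) : Bool :=
  body (fun _ k s => dirL F k s NN P M Q) (fun _ k s => slL F k s NN P M Q) noF noF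
    (fun _ _ j => exL NN P M Q j) noF h

/-- the chart: `lam = 1` -/
noncomputable def L1 (F : VF) (h A B C : ℕ) : Bool := frc pone fun M => LfV F h A B M C

/-- the chart: the height is `1` -/
noncomputable def L2 (F : VF) (h A B C : ℕ) : Bool := frc pone fun N => LfV F h N A B C

end Pool.Agent.Strip051.LC.E1.V2
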