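import Pool.Agent.Strip051.LC.E1.V2.Val

/-! # Rests near the full period: the row between `1.15` and `1.6` below `2 h0` -/

set_option linter.unusedVariables false
set_option linter.unusedSimpArgs false

namespace Pool.Agent.Strip051.LC.E1.V2

open Pool.Agent.Strip051.PB
open Pool.Agent.Strip051.LC.E1.Ch
open Pool.Agent.Strip051.LC.E1.V0
open Pool.Agent.Strip051.LC.E1.G (hg x3v)

/-- a function without an enclosure -/
noncomputable def ex4 (v : ℝ → ℝ → ℝ → ℝ → ℝ) : Fn4 :=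
  ⟨fun _ _ _ _ => 2 ^ 1662, v, fun _ _ _ _ => enc_bad _ _ le_rfl⟩

/-- a function without an enclosure -/
noncomputable def ex7 (v : ℝ → ℝ → ℝ → ℝ → ℝ → ℝ → ℝ → ℝ) : Fn7 :=
  ⟨fun _ _ _ _ _ _ _ => 2 ^ 1662, v, fun _ _ _ _ _ _ _ => enc_bad _ _ le_rfl⟩

/-- The position. -/
noncomputable def xi (w z r : ℝ) : ℝ := E0.G.xi1 w r - E0.G.xi1 z r

/-- the level of the third side; zero beyond the circle of radius `√3` -/
noncomputable def c13 : Fn7 := ex7 fun _ w z t m r _ =>
  if x3v t r ≤ xi w z r then 0 else (G.V2 (xi w z r) r m t).cB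

/-- The functions of the row, the far vertex. -/
noncomputable def Rf : RowF :=
  ⟨ex4 fun _ _ _ _ => 0, v0_nff, nu0, v0_bsf, k1m_wp, k1p_zn,
    ex7 fun _ w z t m r _ => (G.V2 (xi w z r) r m t).k, zr7, zr7, zr7, l1m_wp, l1p_zn, c13, vf1, vf2,
    lnw, lz, lnt, gm2⟩

/-- The functions of the row, the near vertex. -/
noncomputable def Rn : RowF :=
  ⟨ex4 fun _ _ _ _ => 0, v0_nfn, nu0, v0_bsn, nk1m_wp, nk1p_zn,
    ex7 fun _ w z t m r x => G.nk x (G.V2 (xi w z r) r m t).k (G.V2 (xi w z r) r m t).b, zr7, zr7,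
    zr7, l1m_wp, l1p_zn, c13, mv1, mv2, lnw, lz, lnt, gm2⟩

section

variable {r lam w z x : ℝ}

theorem gf (D : Dom .npn r lam w z) (e_xi : x = E0.G.xi1 w r - E0.G.xi1 z r)
    (h : x < x3v (w + z) r) :
    Good Rf w z lam r
      (RowV .far .npn r lam w z x 0 (G.C1d r lam w) (-G.C1u r lam z) (G.V2 x r lam (w + z))) := by
  obtain ⟨H1, H2, H3⟩ := hc_of D
  have hp : PatF .npn Rf := ⟨rfl, rfl, rfl, rfl⟩
  have hD := dm_of hp D (show (0 : ℝ) ≤ 0 from le_rfl)
  have hn : Rf.NF w z lam r = -BV.g w z := by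
    simp only [RowF.NF, Rf, v0_nff]
    unfold Bs.g BV
    push_cast
    ring
  have hb : Rf.NU w z lam r / r + Rf.BS w z lam r = 0 / r + (((G.x2 w r + G.x2 z r) / 2) +
      ((w + z) * (E0.G.xi1 w r) - w * x) / 2) := by
    subst e_xi
    simp only [RowF.NU, RowF.BS, Rf, nu0, v0_bsf, xi1_val]
    rw [x2_eq H1, x2_eq H2]
    push_cast
    ring
  have k12 : Rf.K12 w z lam r = (G.C1d r lam w).k := by
    unfold RowF.K12
    simp only [Rf, k1m_wp]
    rw [k1m_val H1]
  have c12 : Rf.A12 w z lam r / r + Rf.B12 w z lam r = (G.C1d r lam w).c r := by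
    unfold RowF.A12 RowF.B12
    simp only [Rf, zr7, l1m_wp]
    rw [cC1d H1]
    push_cast
    ring
  have k23 : Rf.K23 w z lam r = (-G.C1u r lam z).k := by
    unfold RowF.K23
    simp only [Rf, k1p_zn]
    rw [neg_k, k1p_val H2]
  have c23 : Rf.A23 w z lam r / r + Rf.B23 w z lam r = (-G.C1u r lam z).c r := by
    unfold RowF.A23 RowF.B23
    simp only [Rf, zr7, l1p_zn]
    rw [neg_c, cC1u H2]
    push_cast
    ring
  have k13 : Rf.K13 w z lam r = (G.V2 x r lam (w + z)).k := by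
    unfold RowF.K13
    show (G.V2 (xi w z r) r lam (w + z)).k = _
    rw [e_xi]
    rfl
  have c13 : Rf.A13 w z lam r / r + Rf.B13 w z lam r = (G.V2 x r lam (w + z)).c r := by
    unfold RowF.A13 RowF.B13
    have e : Rf.b13.v (Rf.U w z lam r) w z (w + z) lam r (lam * r) =
        if x3v (w + z) r ≤ xi w z r then 0 else (G.V2 (xi w z r) r lam (w + z)).cB := rfl
    have e2 : xi w z r = x := by rw [e_xi]; rfl
    rw [e, e2, if_neg h.not_ge]
    simp only [Rf, zr7]
    unfold Sv.c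
    have e3 : (G.V2 x r lam (w + z)).cA = 0 := rfl
    rw [e3]
    push_cast
    rfl
  exact far_good hp ⟨rfl, rfl⟩ hD hn hb ⟨k12, k23, k13, c12, c23, c13⟩

theorem gn (D : Dom .npn r lam w z) (e_xi : x = E0.G.xi1 w r - E0.G.xi1 z r)
    (h : x < x3v (w + z) r) :
    Good Rn w z lam r
      (RowV .near .npn r lam w z x 0 (G.C1d r lam w) (-G.C1u r lam z) (G.V2 x r lam (w + z))) := by
  obtain ⟨H1, H2, H3⟩ := hc_of D
  have hp : PatF .npn Rn := ⟨rfl, rfl, rfl, rfl⟩
  have hD := dm_of hp D (show (0 : ℝ) ≤ 0 from le_rfl)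
  have hn : Rn.NF w z lam r = -(G.be (lam * r) * BV.g w z) := by
    simp only [RowF.NF, Rn, v0_nfn, bef_val]
    unfold Bs.g BV
    push_cast
    ring
  have hb : Rn.NU w z lam r / r + Rn.BS w z lam r =
      (1 + G.LAM (lam * r) * G.mu (lam * r)) * 0 / r +
      ((1 + G.LAM (lam * r) * G.mu (lam * r)) * (((G.x2 w r + G.x2 z r) / 2) +
        ((w + z) * (E0.G.xi1 w r) - w * x) / 2) +
        G.mu (lam * r) * G.LAM (lam * r) * lam * G.q1 (lam * r) / (2 * G.eh (lam * r)) *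
          BV.g w z) := by
    subst e_xi
    simp only [RowF.NU, RowF.BS, Rn, nu0, v0_bsn, bef_val, n1f_val, lmf_val, mu_val',
      qo_val, eh_val, xi1_val]
    rw [x2_eq H1, x2_eq H2]
    unfold Bs.g BV
    push_cast
    ring
  have k12 : Rn.K12 w z lam r = G.nk (lam * r) (G.C1d r lam w).k (G.C1d r lam w).b := by
    unfold RowF.K12
    simp only [Rn, nk1m_wp, k1m_wp, b1m_wp, nkf_val]
    unfold G.nk
    rw [k1m_val H1, b1m_val H1]
  have c12 : Rn.A12 w z lam r / r + Rn.B12 w z lam r = (G.C1d r lam w).c r := by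
    unfold RowF.A12 RowF.B12
    simp only [Rn, zr7, l1m_wp]
    rw [cC1d H1]
    push_cast
    ring
  have k23 : Rn.K23 w z lam r = G.nk (lam * r) (-G.C1u r lam z).k (-G.C1u r lam z).b := by
    unfold RowF.K23
    simp only [Rn, nk1p_zn, k1p_zn, b1p_zn, nkf_val]
    unfold G.nk
    rw [neg_k, neg_b, k1p_val H2, b1p_val H2]
  have c23 : Rn.A23 w z lam r / r + Rn.B23 w z lam r = (-G.C1u r lam z).c r := by
    unfold RowF.A23 RowF.B23
    simp only [Rn, zr7, l1p_zn]
    rw [neg_c, cC1u H2]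
    push_cast
    ring
  have k13 : Rn.K13 w z lam r = G.nk (lam * r) (G.V2 x r lam (w + z)).k
      (G.V2 x r lam (w + z)).b := by
    unfold RowF.K13
    show G.nk (lam * r) (G.V2 (xi w z r) r lam (w + z)).k (G.V2 (xi w z r) r lam (w + z)).b = _
    rw [e_xi]
    rfl
  have c13 : Rn.A13 w z lam r / r + Rn.B13 w z lam r = (G.V2 x r lam (w + z)).c r := by
    unfold RowF.A13 RowF.B13
    have e : Rn.b13.v (Rn.U w z lam r) w z (w + z) lam r (lam * r) =
        if x3v (w + z) r ≤ xi w z r then 0 else (G.V2 (xi w z r) r lam (w + z)).cB := rfl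
    have e2 : xi w z r = x := by rw [e_xi]; rfl
    rw [e, e2, if_neg h.not_ge]
    simp only [Rn, zr7]
    unfold Sv.c
    have e3 : (G.V2 x r lam (w + z)).cA = 0 := rfl
    rw [e3]
    push_cast
    rfl
  exact near_goodV hp rfl rfl hD hn hb ⟨k12, k23, k13, c12, c23, c13⟩

end

end Pool.Agent.Strip051.LC.E1.V2
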