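import Pool.Agent.Strip051.LC.E1.V2.Cr

/-! # Rests near the full period: soundness of the leaves below `2 h0` -/

set_option linter.unusedVariables false
set_option linter.unusedSimpArgs false
set_option linter.unusedSectionVars false

namespace Pool.Agent.Strip051.LC.E1.V2

open Pool.Agent.Strip051.PB
open Pool.Agent.Strip051.LC.E1.Ch
open Pool.Agent.Strip051.LC.E1.V0
open Pool.Agent.Strip051.LC.E1.G (hg x3v)

attribute [local irreducible] padd psub pneg pmul psq pinv psqrt psqrtg pabs pps pmax pmin pphi plam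
  pcase phf pnat prat pscale pnorm pdc pnc pone ppos pnn Enc

/-! ### What the functions of a vertex are -/

/-- the factor of the level of the third side -/
noncomputable def B2v (w z m r : ℝ) : ℝ :=
  v2_b2.v (r * x3v (w + z) r) (w + z) (x3v (w + z) r - E0.G.xi1 (w + z) r)
    (xi w z r - E0.G.xi1 (w + z) r) r (m * r)

/-- The functions of the row in terms of the functions of the vertex. -/
structure Lk (F : VF) (R : RowF) : Prop where
  nf : R.nf = F.nf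
  bs : R.bs = F.bs
  v1 : R.v1 = F.v1
  v2 : R.v2 = F.v2
  gm : R.gm = gm2
  nu : ∀ w z m r : ℝ, R.NU w z m r = 0
  v1a : ∀ w z m r : ℝ, R.V1A w z m r = 0
  v2a : ∀ w z m r : ℝ, R.V2A w z m r = 0
  l : ∀ w z : ℝ, R.L w z = -w
  a : ∀ w z : ℝ, R.A w z = z
  b : ∀ w z : ℝ, R.B w z = -(w + z)
  k12 : ∀ w z m r : ℝ, R.K12 w z m r = F.k12.v w m r (m * r)
  k23 : ∀ w z m r : ℝ, R.K23 w z m r = F.k23.v z m r (m * r)
  b12 : ∀ w z m r : ℝ, R.B12 w z m r = l1m.v w m r (m * r)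
  b23 : ∀ w z m r : ℝ, R.B23 w z m r = v2_l23.v z m r (m * r)
  k13 : ∀ {w z m r : ℝ}, 0 < r → 0 < m → w + z < 0 → -(1 / 8) ≤ r * (w + z) →
    R.K13 w z m r = F.k13.v (x3v (w + z) r) (w + z) (xi w z r - E0.G.xi1 (w + z) r) m r (m * r)
  b13 : ∀ {w z m r : ℝ}, 0 < r → 0 < m → w + z < 0 → -(1 / 8) ≤ r * (w + z) →
    0 < x3v (w + z) r - E0.G.xi1 (w + z) r → xi w z r < x3v (w + z) r →
    R.B13 w z m r = -(w + z) * B2v w z m r
  b13z : ∀ {w z m r : ℝ}, x3v (w + z) r ≤ xi w z r → R.B13 w z m r = 0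
  nh : ∀ {w z m r : ℝ}, 0 < r → R.NF w z m r = r * (F.nh.v (m * r) * (-(w + z) / r))
  k13e : ∀ y t u m r x : ℝ, F.k13.v y t u m r x = F.w3.v t m r x + u * F.g.v y t m r x
  hg : ∀ {y t m r : ℝ}, 0 < m → t < 0 → F.h.v y t m r (m * r) = F.g.v y t m r (m * r)
  gr : ∀ {E : Pt} {Y S R' T0 Y0 M Q X : ℕ} {y s t0 m r : ℝ} {f : ℕ → Bool}, Enc E Y y →
    Enc E S s → Enc E R' (r * y) → Enc E T0 t0 → Enc E Y0 (3 / 2 * s) → Enc E M m → Enc E Q r →
    Enc E X (m * r) → 1 - D1 t0 r * (r * (3 / 2 * s) * (3 + 3 / 4 * (r * t0))⁻¹) ≠ 0 →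
    1 - D1 t0 r * (r * y * (3 + 3 / 4 * (r * t0))⁻¹) ≠ 0 → F.gr Y S R' T0 Y0 M Q X f = true →
    ∃ (GR : ℕ) (gr : ℝ), f GR = true ∧ Enc E GR gr ∧ F.g.v y t0 m r (m * r) -
      F.g.v (3 / 2 * s) t0 m r (m * r) = r * (y - 3 / 2 * s) * gr

theorem th_k {E : Pt} {S1 S H0 T1 T2 M X : ℕ} {y s m r x : ℝ} (h1 : Enc E S1 (2 / 3 * y))
    (h2 : Enc E S s) (h3 : Enc E H0 (Real.sqrt 3 / 2))
    (h4 : Enc E T1 (r * (Real.sqrt 3 / 2 * (2 / 3 * y)))) (h5 : Enc E T2 (r * (Real.sqrt 3 / 2 * s)))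
    (hm : Enc E M m) (hx : Enc E X x) :
    ∃ θ : ℝ, Enc E (pnorm (padd (v2_fak_vcc.s S1 S pone M X)
      (pmul H0 (v2_fbk_vc.s T1 T2 pone X)))) θ ∧
      v2_ruk.v (2 / 3 * y) m r x - v2_ruk.v (2 / 3 * (3 / 2 * s)) m r x =
        r * (y - 3 / 2 * s) * (2 / 3 * θ) := by
  obtain ⟨d1, k1, e1⟩ := (v2_fak_vcc.snd (N := 2 / 3 * y - s) ⟨h1, h2, 1, enc_one E, by ring⟩
    hm hx).d
  obtain ⟨d2, k2, e2⟩ := (v2_fbk_vc.snd (N := r * (Real.sqrt 3 / 2 * (2 / 3 * y)) -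
    r * (Real.sqrt 3 / 2 * s)) ⟨h4, h5, 1, enc_one E, by ring⟩ hx).d
  refine ⟨_, enc_norm (enc_add k1 (enc_mul h3 k2)), ?_⟩
  have e : ∀ u : ℝ, v2_ruk.v u m r x = r * v2_fak.v u m x +
      v2_fbk.v (r * (Real.sqrt 3 / 2 * u)) x := fun u => by
    simp only [v2_ruk]
    push_cast
    ring
  rw [e, e, show (2 : ℝ) / 3 * (3 / 2 * s) = s by ring]
  linear_combination r * e1 + e2

theorem th_b {E : Pt} {S1 S H0 T1 T2 M X : ℕ} {y s m r x : ℝ} (h1 : Enc E S1 (2 / 3 * y))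
    (h2 : Enc E S s) (h3 : Enc E H0 (Real.sqrt 3 / 2))
    (h4 : Enc E T1 (r * (Real.sqrt 3 / 2 * (2 / 3 * y)))) (h5 : Enc E T2 (r * (Real.sqrt 3 / 2 * s)))
    (hm : Enc E M m) (hx : Enc E X x) :
    ∃ θ : ℝ, Enc E (pnorm (padd (v2_fab_vcc.s S1 S pone M X)
      (pmul H0 (v2_fbb_vc.s T1 T2 pone X)))) θ ∧
      v2_rub.v (2 / 3 * y) m r x - v2_rub.v (2 / 3 * (3 / 2 * s)) m r x =
        r * (y - 3 / 2 * s) * (2 / 3 * θ) := by
  obtain ⟨d1, k1, e1⟩ := (v2_fab_vcc.snd (N := 2 / 3 * y - s) ⟨h1, h2, 1, enc_one E, by ring⟩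
    hm hx).d
  obtain ⟨d2, k2, e2⟩ := (v2_fbb_vc.snd (N := r * (Real.sqrt 3 / 2 * (2 / 3 * y)) -
    r * (Real.sqrt 3 / 2 * s)) ⟨h4, h5, 1, enc_one E, by ring⟩ hx).d
  refine ⟨_, enc_norm (enc_add k1 (enc_mul h3 k2)), ?_⟩
  have e : ∀ u : ℝ, v2_rub.v u m r x = r * v2_fab.v u m x +
      v2_fbb.v (r * (Real.sqrt 3 / 2 * u)) x := fun u => by
    simp only [v2_rub]
    push_cast
    ring
  rw [e, e, show (2 : ℝ) / 3 * (3 / 2 * s) = s by ring]
  linear_combination r * e1 + e2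

section

variable {w z m r : ℝ}

theorem nff_nh (hr : 0 < r) : v0_nff.v w (w + z) (m * r) =
    r * (v2_nhf.v (m * r) * (-(w + z) / r)) := by
  simp only [v0_nff, v2_nhf]
  push_cast
  field_simp

theorem nfn_nh (hr : 0 < r) : v0_nfn.v w (w + z) (m * r) =
    r * (v2_nhn.v (m * r) * (-(w + z) / r)) := by
  simp only [v0_nfn, v2_nhn]
  push_cast
  field_simp

end

theorem lk_f : Lk Ff Rf := by
  refine ⟨rfl, rfl, rfl, rfl, rfl, ?_, ?_, ?_, ?_, ?_, ?_, ?_, ?_, ?_, ?_, ?_, ?_, ?_, ?_, ?_, ?_,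
    ?_⟩
  · intro w z m r
    simp only [RowF.NU, Rf, nu0]
    push_cast
    ring
  · intro w z m r
    unfold RowF.V1A RowF.A12 RowF.A23 RowF.A13
    simp only [Rf, vf1_val, zr7]
    push_cast
    ring
  · intro w z m r
    unfold RowF.V2A RowF.A12 RowF.A23 RowF.A13
    simp only [Rf, vf2_val, zr7]
    push_cast
    ring
  · intro w z
    exact lnw_val _ _ _
  · intro w z
    exact lz_val _ _ _
  · intro w z
    exact lnt_val _ _ _
  · intro w z m r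
    unfold RowF.K12
    simp only [Rf, k1m_wp]
    rfl
  · intro w z m r
    unfold RowF.K23
    simp only [Rf, k1p_zn, Ff, v2_k23f, k1p_v]
  · intro w z m r
    unfold RowF.B12
    simp only [Rf, l1m_wp]
  · intro w z m r
    unfold RowF.B23
    simp only [Rf, l1p_zn, v2_l23]
  · intro w z m r hr hm ht h1
    exact (k13f_val hr hm ht h1).symm
  · intro w z m r hr hm ht h1 h2 h3
    unfold B2v
    rw [b2_val hr hm ht h1 h2]
    exact if_neg h3.not_ge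
  · intro w z m r h
    exact if_pos h
  · intro w z m r hr
    exact nff_nh hr
  · intro y t u m r x
    simp only [Ff, v2_k13f]
  · intro y t m r hm ht
    exact hk_gk ht y hm
  · intro E Y S R' T0 Y0 M Q X y s t0 m r f hy hs hr' ht0 hy0 hm hr hx n0 n1 h
    have h' : grf Y S R' T0 Y0 M Q X f = true := h
    unfold grf at h'
    simp only [frc_eq] at h'
    have h1 : Enc E (pscale 2 3 Y) (2 / 3 * y) := by
      have := enc_scale 2 3 hy
      push_cast at this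
      exact this
    have h3 : Enc E (v2_h0.t X) (Real.sqrt 3 / 2) := by
      have := v2_h0.enc hx
      rwa [h0_val] at this
    have h4 := enc_norm (enc_mul hr (enc_norm (enc_mul h3 h1)))
    have h5 := enc_norm (enc_mul hr (enc_norm (enc_mul h3 hs)))
    obtain ⟨θ, kθ, eθ⟩ := th_k h1 hs h3 h4 h5 hm hx
    exact ⟨_, _, h', v2_grk.enc kθ (v2_gk.enc hy0 ht0 hm hr hx) hr' ht0 hm hr hx,
      grk_val eθ n0 n1⟩

theorem lk_n : Lk Fnr Rn := by
  refine ⟨rfl, rfl, rfl, rfl, rfl, ?_, ?_, ?_, ?_, ?_, ?_, ?_, ?_, ?_, ?_, ?_, ?_, ?_, ?_, ?_, ?_,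
    ?_⟩
  · intro w z m r
    simp only [RowF.NU, Rn, nu0]
    push_cast
    ring
  · intro w z m r
    unfold RowF.V1A RowF.A12 RowF.A23 RowF.A13
    simp only [Rn, mv1_val, zr7]
    push_cast
    ring
  · intro w z m r
    unfold RowF.V2A RowF.A12 RowF.A23 RowF.A13
    simp only [Rn, mv2_val, zr7]
    push_cast
    ring
  · intro w z
    exact lnw_val _ _ _
  · intro w z
    exact lz_val _ _ _
  · intro w z
    exact lnt_val _ _ _
  · intro w z m r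
    unfold RowF.K12
    simp only [Rn, nk1m_wp, k1m_wp, b1m_wp, Fnr, v2_k12]
  · intro w z m r
    unfold RowF.K23
    simp only [Rn, nk1p_zn, k1p_zn, b1p_zn, Fnr, v2_k23n, k1p_v, b1p_v, nkf_val]
    ring
  · intro w z m r
    unfold RowF.B12
    simp only [Rn, l1m_wp]
  · intro w z m r
    unfold RowF.B23
    simp only [Rn, l1p_zn, v2_l23]
  · intro w z m r hr hm ht h1
    exact (k13n_val hr hm ht h1).symm
  · intro w z m r hr hm ht h1 h2 h3
    unfold B2v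
    rw [b2_val hr hm ht h1 h2]
    exact if_neg h3.not_ge
  · intro w z m r h
    exact if_pos h
  · intro w z m r hr
    exact nfn_nh hr
  · intro y t u m r x
    simp only [Fnr, v2_k13n]
  · intro y t m r hm ht
    simp only [Fnr, v2_hn, v2_gn, hk_gk ht y hm, hb_gb ht y hm]
  · intro E Y S R' T0 Y0 M Q X y s t0 m r f hy hs hr' ht0 hy0 hm hr hx n0 n1 h
    have h' : grn Y S R' T0 Y0 M Q X f = true := h
    unfold grn at h'
    simp only [frc_eq] at h'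
    have h1 : Enc E (pscale 2 3 Y) (2 / 3 * y) := by
      have := enc_scale 2 3 hy
      push_cast at this
      exact this
    have h3 : Enc E (v2_h0.t X) (Real.sqrt 3 / 2) := by
      have := v2_h0.enc hx
      rwa [h0_val] at this
    have h4 := enc_norm (enc_mul hr (enc_norm (enc_mul h3 h1)))
    have h5 := enc_norm (enc_mul hr (enc_norm (enc_mul h3 hs)))
    obtain ⟨θ, kθ, eθ⟩ := th_k h1 hs h3 h4 h5 hm hx
    obtain ⟨η, kη, eη⟩ := th_b h1 hs h3 h4 h5 hm hx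
    have g1 := v2_grk.enc kθ (v2_gk.enc hy0 ht0 hm hr hx) hr' ht0 hm hr hx
    have g2 := v2_grb.enc kη (v2_gb.enc hy0 ht0 hm hr hx) hr' ht0 hm hr hx
    refine ⟨_, _, h', nkf.enc hx g1 g2, ?_⟩
    have a1 := grk_val eθ n0 n1
    have a2 := grb_val eη n0 n1
    simp only [Fnr, v2_gn, nkf_val]
    linear_combination (1 + G.LAM (m * r) * G.mu (m * r)) * a1 + G.mu (m * r) * a2

end Pool.Agent.Strip051.LC.E1.V2
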