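import Pool.Agent.Strip051.LC.E1.V2.Sd
import Pool.Agent.Strip051.LC.E1.V2.Gp

/-! # Rests near the full period: soundness of the leaves below `2 h0` -/

set_option linter.unusedVariables false
set_option linter.unusedSimpArgs false
set_option linter.unusedSectionVars false

namespace Pool.Agent.Strip051.LC.E1.V2

open Pool.Agent.Strip051.PB
open Pool.Agent.Strip051.LC.E1.Ch
open Pool.Agent.Strip051.LC.E1.V0
open Pool.Agent.Strip051.LC.E1.G (hg x3v)

attribute [local irreducible] padd psub pneg pmul psq pinv psqrt psqrtg pabs pps pmax pmin pphi plam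
  pcase phf pnat prat pscale pnorm pdc pnc pone ppos pnn Enc

/-! ### The tests -/

/-- The alternatives; `xc` is `x` or `m`. -/
def RsV (x r xc m l a b bn fo ds gp l1 l2 : ℝ) : Prop :=
  ((ds ≤ 0 ∧ InR x r m l b a 0 bn (-ds) gp l1 l2) ∨
    (0 ≤ ds ∧ InR x r m l a b 0 bn ds gp l1 l2)) ∨
  (((ds ≤ 0 ∧ CrR x m 0 bn (-ds) l1 l2) ∨ (0 ≤ ds ∧ CrR x m 0 bn ds l1 l2)) ∧ 0 ≤ gp) ∨
  (((ds ≤ 0 ∧ OuR xc r m l b a (-ds) gp) ∨ (0 ≤ ds ∧ OuR xc r m l a b ds gp)) ∧ P2 l1 l2 fo)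

section

variable {E : Pt} {X R XC M L A B BN DS GP V1 V2 : ℕ} {lo : Bool}
  {x r xc m l a b bn fo ds gp l1 l2 : ℝ}

theorem tstV_sound {k s : ℕ} (hx : Enc E X x) (hr : Enc E R r) (hxc : Enc E XC xc)
    (hm : Enc E M m) (hl : Enc E L l) (ha : Enc E A a) (hb : Enc E B b) (hbn : Enc E BN bn)
    (hd : Enc E DS ds) (hg : Enc E GP gp) (h1 : Enc E V1 l1) (h2 : Enc E V2 l2)
    (hlo : lo = true → P2 l1 l2 fo)
    (h : tstV lo k s X R XC M L A B BN DS GP V1 V2 = true) :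
    RsV x r xc m l a b bn fo ds gp l1 l2 := by
  unfold tstV at h
  have LV : ∀ {F : ℕ} {f : ℝ}, Enc E F f → lv0 F V1 V2 = true → P2 l1 l2 (0 + f) := by
    intro F f k1 k2
    rw [zero_add]
    exact lv0_sound k1 h1 h2 k2
  have IN : ∀ {LF LN D : ℕ} {lf ln d : ℝ}, Enc E LF lf → Enc E LN ln → Enc E D d →
      inS (fun F => lv0 F V1 V2) X R M L LF LN BN D GP = true →
      InR x r m l lf ln 0 bn d gp l1 l2 := by
    intro LF LN D lf ln d h1 h2 h3 h4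
    unfold inS at h4
    obtain ⟨t1, t2⟩ := band_true h4
    exact ⟨LV (finf.enc hx hr hm hl h1 hbn h3 hg) t1, pnn_sound (cinf.enc hr h2 h3 hg) t2⟩
  have OU : ∀ {LF LN D : ℕ} {lf ln d : ℝ}, Enc E LF lf → Enc E LN ln → Enc E D d →
      ouS XC R M L LF LN D GP = true → OuR xc r m l lf ln d gp := by
    intro LF LN D lf ln d h1 h2 h3 h4
    unfold ouS at h4
    obtain ⟨t1, t2⟩ := band_true h4
    exact ⟨pnn_sound (couf.enc hxc hm hl h1 h3 hg) t1, ppos_sound (cinf.enc hr h2 h3 hg) t2⟩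
  rcases e0 : Nat.beq k 0 with _ | _ <;> rw [e0] at h
  · rcases e1 : Nat.beq k 1 with _ | _ <;> rw [e1] at h
    · obtain ⟨t1, t2⟩ := band_true h
      exact Or.inr (Or.inr ⟨sgS_sound hd (OU hb ha (enc_neg hd)) (OU ha hb hd) t1, hlo t2⟩)
    · obtain ⟨t1, t2⟩ := band_true h
      exact Or.inr (Or.inl ⟨sgS_sound hd (LV (fcrf.enc hx hm hbn (enc_neg hd)))
        (LV (fcrf.enc hx hm hbn hd)) t1, pnn_sound hg t2⟩)
  · exact Or.inl (sgS_sound hd (IN hb ha (enc_neg hd)) (IN ha hb hd) h)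

end

/-! ### The second moment divided by `r` -/

section

variable {x r m l lf ln a b bn bs fo ds g l1 l2 : ℝ}

theorem inv_r (hr : 0 < r) (y : ℝ) : r * (r * y)⁻¹ = y⁻¹ := by
  rw [mul_inv, ← mul_assoc, mul_inv_cancel₀ hr.ne', one_mul]

theorem finf_r (hr : 0 < r) :
    finf.v x r m l lf bn ds (r * g) = finf.v x 1 m l lf bn ds g := by
  rw [finf_val, finf_val]
  have e : r * g + r * ds * lf = r * (g + 1 * ds * lf) := by ring
  rw [e]
  have k := inv_r hr (g + 1 * ds * lf)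
  linear_combination (-(G.eh x / (1 - x) * l * (lf * (ds * ds)))) * k

theorem cinf_r : cinf.v r ln ds (r * g) = r * cinf.v 1 ln ds g := by
  rw [cinf_val, cinf_val]; ring

theorem couf_r (hx : x = m * r) : couf.v x m l lf ds (r * g) = r * couf.v m m l lf ds g := by
  rw [couf_val, couf_val, hx]; ring

theorem abf_r (hr : 0 < r) (hx : x = m * r) :
    abf.v x m l a b ds (r * g) = v2_abg.v x m l a b ds g := by
  rw [abf_val, hx]
  simp only [v2_abg, v2_abg_7, kx_val]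
  have k := inv_r hr g
  linear_combination (m * (G.eh (m * r) / (1 - m * r)) * (a * l⁻¹ * (b * l⁻¹)) * (m * ds ^ 2)) * k

/-- Division of the second moment by `r`. -/
theorem RsV.res (hr : 0 < r) (hx : x = m * r)
    (h : RsV x 1 m m l a b bn fo ds g l1 l2) (nnr : ℝ) :
    Res x r m l a b 0 nnr bn bs fo ds (r * g) l1 l2 := by
  have IN : ∀ {lf ln d : ℝ}, InR x 1 m l lf ln 0 bn d g l1 l2 →
      InR x r m l lf ln 0 bn d (r * g) l1 l2 := by
    rintro lf ln d ⟨h1, h2⟩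
    refine ⟨?_, ?_⟩
    · rw [finf_r hr]; exact h1
    · rw [cinf_r]; exact mul_nonneg hr.le h2
  have OU : ∀ {lf ln d : ℝ}, OuR m 1 m l lf ln d g → OuR x r m l lf ln d (r * g) := by
    rintro lf ln d ⟨h1, h2⟩
    refine ⟨?_, ?_⟩
    · rw [couf_r hx]; exact mul_nonneg hr.le h1
    · rw [cinf_r]; exact mul_pos hr h2
  rcases h with h | ⟨h, hg⟩ | ⟨h, hf⟩
  · refine Or.inl ?_
    rcases h with ⟨h1, h2⟩ | ⟨h1, h2⟩
    · exact Or.inl ⟨h1, IN h2⟩
    · exact Or.inr ⟨h1, IN h2⟩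
  · exact Or.inr (Or.inl ⟨h, mul_nonneg hr.le hg⟩)
  · refine Or.inr (Or.inr (Or.inl ⟨?_, hf⟩))
    rcases h with ⟨h1, h2⟩ | ⟨h1, h2⟩
    · exact Or.inl ⟨h1, OU h2⟩
    · exact Or.inr ⟨h1, OU h2⟩

theorem RsV.res' (h : RsV x r x m l a b bn fo ds g l1 l2) (nnr : ℝ) :
    Res x r m l a b 0 nnr bn bs fo ds g l1 l2 := by
  rcases h with h | h | h
  · exact Or.inl h
  · exact Or.inr (Or.inl h)
  · exact Or.inr (Or.inr (Or.inl h))

end

/-! ### The values -/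

/-- what the values are -/
structure VE (E : Pt) (R : RowF) (w z m r : ℝ)
    (R' NF BS K12 K23 K13 GM DL DS BN L12 L23 B2 L13 V1 V2 : ℕ) : Prop where
  hr : Enc E R' (r * x3v (w + z) r)
  nf : Enc E NF (R.NF w z m r)
  bs : Enc E BS (R.BS w z m r)
  k12 : Enc E K12 (R.K12 w z m r)
  k23 : Enc E K23 (R.K23 w z m r)
  k13 : Enc E K13 (R.K13 w z m r)
  gm : Enc E GM (R.GM w z m r)
  dl : Enc E DL (R.DL w z m r)
  ds : Enc E DS (R.DS w z m r)
  bn : Enc E BN (R.BN w z m r)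
  l12 : Enc E L12 (R.B12 w z m r)
  l23 : Enc E L23 (R.B23 w z m r)
  b2 : Enc E B2 (B2v w z m r)
  l13 : Enc E L13 (R.B13 w z m r)
  v1 : Enc E V1 (R.V1B w z m r)
  v2 : Enc E V2 (R.V2B w z m r)

theorem vals_sound {E : Pt} {F : VF} {R : RowF} (k : Lk F R) {NN X W SN Y C T ZN Z UN YN M Q : ℕ}
    {w z m r : ℝ} {f : (R NF BS K12 K23 K13 GM DL DS BN L12 L23 B2 L13 V1 V2 : ℕ) → Bool}
    (g : Gm r m w z) (hn : Enc E NN (-w)) (hm : Enc E M m) (hr : Enc E Q r)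
    (c : CF E w z m r X W SN Y C T ZN Z UN YN)
    (h : vals F NN X W Y T Z UN YN M Q f = true) :
    ∃ R' NF BS K12 K23 K13 GM DL DS BN L12 L23 B2 L13 V1 V2 : ℕ,
      f R' NF BS K12 K23 K13 GM DL DS BN L12 L23 B2 L13 V1 V2 = true ∧
      VE E R w z m r R' NF BS K12 K23 K13 GM DL DS BN L12 L23 B2 L13 V1 V2 := by
  unfold vals at h
  simp only [frc_eq] at h
  have n0 := g.n0.ne'
  have hR := enc_norm (enc_mul hr c.ky)
  have hU : Enc E (pnorm (pmul NN UN)) (xi w z r - E0.G.xi1 (w + z) r) := by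
    have := enc_norm (enc_mul hn c.kun)
    rwa [mul_div_cancel₀ _ n0] at this
  have hYY : Enc E (pnorm (pmul NN YN)) (x3v (w + z) r - E0.G.xi1 (w + z) r) := by
    have := enc_norm (enc_mul hn c.kyn)
    rwa [mul_div_cancel₀ _ n0] at this
  have hNF : Enc E (F.nf.t W T X) (R.NF w z m r) := by
    have := F.nf.enc c.kw c.kt c.kx
    unfold RowF.NF
    rw [k.nf]
    exact this
  have hBS : Enc E (F.bs.t W Z T M Q X) (R.BS w z m r) := by
    have := F.bs.enc c.kw c.kz c.kt hm hr c.kx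
    unfold RowF.BS
    rw [k.bs]
    exact this
  have h12 : Enc E (F.k12.t W M Q X) (R.K12 w z m r) := by
    rw [k.k12]
    exact F.k12.enc c.kw hm hr c.kx
  have h23 : Enc E (F.k23.t Z M Q X) (R.K23 w z m r) := by
    rw [k.k23]
    exact F.k23.enc c.kz hm hr c.kx
  have h13 : Enc E (F.k13.t Y T (pnorm (pmul NN UN)) M Q X) (R.K13 w z m r) := by
    rw [k.k13 g.r0 g.m0 g.t0 g.rt]
    exact F.k13.enc c.ky c.kt hU hm hr c.kx
  have hGM := gm2.enc c.kw c.kz c.kt h12 h23 h13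
  have hDL := dln.enc h12 h23 h13
  have hDS : Enc E (dsf.t (dln.t (F.k12.t W M Q X) (F.k23.t Z M Q X)
      (F.k13.t Y T (pnorm (pmul NN UN)) M Q X)) (shf.t Q NN)) (R.DS w z m r) := by
    have := dsf.enc hDL (shf.enc hr hn)
    unfold RowF.DS
    rw [k.l]
    exact this
  have hGM' : R.GM w z m r = gm2.v w z (w + z) (R.K12 w z m r) (R.K23 w z m r)
      (R.K13 w z m r) := by
    unfold RowF.GM
    rw [k.gm]
  have hBN := bnf.enc c.kx hm hNF hBS hGM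
  have hl12 : Enc E (l1m.t W M Q X) (R.B12 w z m r) := by
    rw [k.b12]
    exact l1m.enc c.kw hm hr c.kx
  have hl23 : Enc E (v2_l23.t Z M Q X) (R.B23 w z m r) := by
    rw [k.b23]
    exact v2_l23.enc c.kz hm hr c.kx
  have hB2 := v2_b2.enc hR c.kt hYY hU hr c.kx
  have hl13 := enc_norm (enc_mul (enc_neg c.kt) hB2)
  have e13 := k.b13 g.r0 g.m0 g.t0 g.rt g.yy g.lt
  have hl13' : Enc E (pnorm (pmul (pneg T) (v2_b2.t (pnorm (pmul Q Y)) T (pnorm (pmul NN YN))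
      (pnorm (pmul NN UN)) Q X))) (R.B13 w z m r) := by
    rw [e13]
    exact hl13
  refine ⟨_, _, _, _, _, _, _, _, _, _, _, _, _, _, _, _, h, hR, hNF, hBS, h12, h23, h13, ?_,
    hDL, hDS, ?_, hl12, hl23, hB2, hl13', ?_, ?_⟩
  · rw [hGM']
    exact hGM
  · unfold RowF.BN
    rw [hGM']
    exact hBN
  · unfold RowF.V1B
    rw [k.v1]
    exact F.v1.enc c.kw c.kz c.kt hr c.kx hl12 hl23 hl13'
  · unfold RowF.V2B
    rw [k.v2]
    exact F.v2.enc c.kw c.kz c.kt hr c.kx hl12 hl23 hl13'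

/-! ### Direct leaves -/

theorem lv_of {F : VF} {R : RowF} (k : Lk F R) {w z m r lev : ℝ} (hlev : R.Lv w z m r lev)
    (F' : ℝ) (h1 : 0 ≤ F' + R.V1B w z m r) (h2 : 0 ≤ F' + R.V2B w z m r) : 0 ≤ F' - lev := by
  refine hlev F' ?_ ?_
  · rw [k.v1a]
    simpa using h1
  · rw [k.v2a]
    simpa using h2

theorem dirL_sound {E : Pt} {F : VF} {R : RowF} (k : Lk F R) {k' s NN P M Q : ℕ}
    {w z m r lev : ℝ} (g : Gm r m w z) (hn : Enc E NN (-w))
    (hp : Enc E P (x3v (w + z) r / -(E0.G.sg1 w r))) (hm : Enc E M m) (hr : Enc E Q r)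
    (D : Dm R w z m r) (hlev : R.Lv w z m r lev) (h : dirL F k' s NN P M Q = true) :
    R.Sk w z m r lev := by
  unfold dirL at h
  obtain ⟨X, W, SN, Y, C, T, ZN, Z, UN, YN, h, c⟩ := crd_sound g hn hp hm hr h
  obtain ⟨R', NF, BS, K12, K23, K13, GM, DL, DS, BN, L12, L23, B2, L13, V1, V2, h, v⟩ :=
    vals_sound k g hn hm hr c h
  simp only [frc_eq] at h
  have r0 := g.r0
  have hB : Enc E (pneg T) (R.B w z) := by
    rw [k.b]
    exact enc_neg c.kt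
  have hA : Enc E Z (R.A w z) := by
    rw [k.a]
    exact c.kz
  have hL : Enc E NN (R.L w z) := by
    rw [k.l]
    exact hn
  have hH := F.nh.enc c.kx
  have enh := k.nh (w := w) (z := z) (m := m) r0
  have hG := enc_norm (enc_add (enc_mul hH c.kc) v.gm)
  have eg : R.GP w z m r = r * (F.nh.v (m * r) * (-(w + z) / r) + R.GM w z m r) := by
    unfold RowF.GP
    rw [gpf_val, enh]
    ring
  have k1 := enc_add (enc_mul (enc_norm (enc_mul hH (m2f.enc hm hn))) c.kc)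
    (enc_sub (brf.enc c.kx hr hm hL (enc_norm (enc_sub hA hB)) v.nf v.gm v.ds v.bs)
      (v2_abg.enc c.kx hm hL hA hB v.ds hG))
  have r1 := tstV_sound c.kx (enc_one E) hm hm hL hA hB v.bn v.ds hG v.v1 v.v2
    (fun hh => lv0_sound k1 v.v1 v.v2 hh) h
  have r2 := r1.res (bs := (R.NU w z m r + R.NF w z m r) / r + R.BS w z m r) r0 rfl 0
  refine sk_of_res D rfl eg ?_ ?_ (le_of_eq ?_) (lv_of k hlev) r2
  · rw [k.nu, zero_div]
  · rw [zero_add]
  · unfold RowF.FO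
    rw [eg, abf_r r0 rfl, k.nu, zero_div, zero_add, m2f_val, k.l]
    have e1 : R.NF w z m r / r = F.nh.v (m * r) * (-(w + z) / r) := by
      rw [enh, mul_div_cancel_left₀ _ r0.ne']
    have e2 : R.BR w z m r = brf.v (m * r) r m (-w) (R.A w z - R.B w z) (R.NF w z m r)
        (R.GM w z m r) (R.DS w z m r) (R.BS w z m r) := by
      unfold RowF.BR
      rw [k.l]
    rw [e1, e2, div_eq_mul_inv m (-w)]
    ring

/-! ### Leaves which test slopes -/

theorem one_sub {E : Pt} {r m t0 y y' : ℝ} (hr : 0 < r) (H : Hc r m t0) (h0 : -(1 / 8) ≤ r * t0)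
    (hy : 0 ≤ y') (hy' : y' ≤ y) (h1 : (r * y) ^ 2 ≤ 1) :
    1 - D1 t0 r * (r * y' * (3 + 3 / 4 * (r * t0))⁻¹) ≠ 0 := by
  obtain ⟨a1, a2⟩ := D1_b H
  have h2 : 0 ≤ r * y' := mul_nonneg hr.le hy
  have h3 : r * y' ≤ r * y := mul_le_mul_of_nonneg_left hy' hr.le
  have h4 : r * y ≤ 1 := by nlinarith
  have h5 : (0 : ℝ) < 3 + 3 / 4 * (r * t0) := by linarith
  have h6 : D1 t0 r * (r * y' * (3 + 3 / 4 * (r * t0))⁻¹) < 1 := by
    rw [← mul_assoc, ← div_eq_mul_inv, div_lt_one h5]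
    have h7 : D1 t0 r * (r * y') ≤ 7 / 4 * 1 :=
      mul_le_mul a2 (by linarith) h2 (by norm_num)
    linarith
  intro h7
  linarith

theorem slL_sound {E : Pt} {F : VF} {R : RowF} (k : Lk F R) {k' s' NN P M Q : ℕ}
    {w z m r nb lev : ℝ} (g : Gm r m w z) (hn : Enc E NN (-w))
    (hp : Enc E P (x3v (w + z) r / -(E0.G.sg1 w r))) (hm : Enc E M m) (hr : Enc E Q r)
    (D : Dm R w z m r)
    (B : -(E0.G.sg1 w r) ≤ 167 / 50 * m → SBase R w (z0 (-(E0.G.sg1 w r)) r) m r nb)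
    (hlev : R.Lv w z m r lev) (h : slL F k' s' NN P M Q = true) :
    R.Sk w z m r lev := by
  unfold slL at h
  obtain ⟨X, W, SN, Y, C, T, ZN, Z, UN, YN, h, c⟩ := crd_sound g hn hp hm hr h
  obtain ⟨R', NF, BS, K12, K23, K13, GM, DL, DS, BN, L12, L23, B2, L13, V1, V2, h, v⟩ :=
    vals_sound k g hn hm hr c h
  simp only [frc_eq] at h
  obtain ⟨t1, h⟩ := band_true h
  have r0 := g.r0
  have m0 := g.m0
  have n0 := g.n0.ne'
  have s0 := g.s0
  have rs := g.rs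
  have ew := g.ew
  have v0 := g.v0
  set s := -(E0.G.sg1 w r) with hs
  have hS : Enc E (pnorm (pmul NN SN)) s := by
    have := enc_norm (enc_mul hn c.ksn)
    rwa [mul_div_cancel₀ _ n0] at this
  have hs1 : s ≤ 167 / 50 * m := by
    have := pnn_sound (enc_sub (enc_scale 167 50 hm) hS) t1
    push_cast at this
    linarith
  have B' := B hs1
  have wz : w + z0 s r = -2 * (r * E0.G.om s r) := by
    have := wz0 (s := s) (r := r) r0 s0
    rwa [← ew] at this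
  have Hw0 : Hc r m (w0 s r) := by rw [← ew]; exact g.hw
  have hy0 : x3v (w + z0 s r) r = 3 / 2 * s := by
    rw [wz]
    exact x3v_0 r0 s0.le rs
  have xi0 : xi w (z0 s r) r = 3 / 2 * s := by
    have := xi_0 r0 s0 rs
    rwa [← ew] at this
  have Ht0 : Hc r m (w + z0 s r) := by
    have := hc_le Hw0 (t0_abs r0 s0 rs)
    rwa [← ew] at this
  have t0n : w + z0 s r < 0 := by
    rw [wz]
    have := mul_pos r0 (om_pos r0 s0.le rs s0)
    linarith
  have rt0 : -(1 / 8) ≤ r * (w + z0 s r) := by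
    rw [wz]
    exact rt0_ge r0 s0.le rs
  have hv : w + z < w + z0 s r := by rw [wz]; exact v0
  have hV : 0 < (w + z0 s r) - (w + z) := by linarith
  have hyq : x3v (w + z) r = x3v (w + z) r / s * s := (div_mul_cancel₀ _ s0.ne').symm
  have q0 : 0 < x3v (w + z) r / s := div_pos (x3v_pos r0 g.t0 g.rt) s0
  have esr := sr_val r0 s0 q0 g.t0 g.rt wz t0n.le rt0 hyq hy0
  have evv := vv_val r0 s0 hv g.t0 g.rt t0n.le rt0 hyq hy0
  -- the base point
  have hD := enc_neg (enc_one E)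
  have hT0 : Enc E (v2_t0.t (pnorm (pmul NN SN)) Q) (w + z0 s r) := by
    have := v2_t0.enc hS hr
    rwa [t0_val, ← wz] at this
  set T0 := v2_t0.t (pnorm (pmul NN SN)) Q
  have hZ0 : Enc E (pnorm (psub T0 W)) (z0 s r) := by
    have := enc_norm (enc_sub hT0 c.kw)
    rwa [add_sub_cancel_left] at this
  set Z0 := pnorm (psub T0 W)
  have hY0 : Enc E (pscale 3 2 (pnorm (pmul NN SN))) (3 / 2 * s) := by
    have := enc_scale 3 2 hS
    push_cast at this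
    exact this
  set Y0 := pscale 3 2 (pnorm (pmul NN SN))
  have hU0 : Enc E (pnorm (psub Y0 (xi1.t T0 Q))) (3 / 2 * s - E0.G.xi1 (w + z0 s r) r) := by
    have := enc_norm (enc_sub hY0 (xi1.enc hT0 hr))
    rwa [xi1_val] at this
  set U0 := pnorm (psub Y0 (xi1.t T0 Q))
  have hW : Pr E ((w + z0 s r) - (w + z)) W W pzero w w := pr_const c.kw
  have hZ : Pr E ((w + z0 s r) - (w + z)) Z Z0 (pneg pone) z (z0 s r) :=
    ⟨c.kz, hZ0, -1, hD, by ring⟩
  have hT : Pr E ((w + z0 s r) - (w + z)) T T0 (pneg pone) (w + z) (w + z0 s r) :=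
    ⟨c.kt, hT0, -1, hD, by ring⟩
  -- the slope of the third side
  have hrt2 : (r * x3v (w + z) r) ^ 2 ≤ 1 := by
    rw [rx3v_sq r0 g.t0.le g.rt]
    have := g.rt
    have : r * (w + z) ≤ 0 := mul_nonpos_of_nonneg_of_nonpos r0.le g.t0.le
    nlinarith
  have hyy : 3 / 2 * s ≤ x3v (w + z) r := by
    rw [← hy0]
    exact x3v_mono r0 hv.le t0n.le g.rt
  obtain ⟨GR, gr, h, hGR, egr⟩ := k.gr c.ky hS v.hr hT0 hY0 hm hr c.kx
    (one_sub (E := E) r0 Ht0 rt0 (by linarith) hyy hrt2)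
    (one_sub (E := E) r0 Ht0 rt0 (by linarith) le_rfl hrt2) h
  obtain ⟨a1, ka1, ea1⟩ := (xi1_vc.snd hZ hr).d
  obtain ⟨a2, ka2, ea2⟩ := (xi1_vc.snd hT hr).d
  rw [xi1_val, xi1_val] at ea1 ea2
  obtain ⟨d1, kd1, ed1⟩ := (F.w3s.snd hT hm hr c.kx).d
  obtain ⟨d3, kd3, ed3⟩ := (F.hs.snd c.ky hT hm hr c.kx).d
  rw [k.hg m0 g.t0, k.hg m0 t0n] at ed3
  have hUd := enc_norm (enc_neg (enc_add ka1 ka2))
  have hKd := enc_norm (enc_add (enc_add kd1 (enc_mul hUd (F.g.enc c.ky c.kt hm hr c.kx)))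
    (enc_add (enc_mul hU0 kd3) (enc_mul (v2_sr.enc hp hS c.kt hT0 hr) hGR)))
  have e13a := k.k13 r0 m0 g.t0 g.rt
  have e13b := k.k13 (w := w) (z := z0 s r) r0 m0 t0n rt0
  rw [hy0, xi0] at e13b
  rw [k.k13e] at e13a e13b
  have h13b : Enc E (F.k13.t Y0 T0 U0 M Q X) (R.K13 w (z0 s r) m r) := by
    have := F.k13.enc hY0 hT0 hU0 hm hr c.kx
    rw [k.k13e] at this
    rw [e13b]
    exact this
  have h12 : Pr E ((w + z0 s r) - (w + z)) K12 K12 pzero (R.K12 w z m r)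
      (R.K12 w (z0 s r) m r) := by
    have e : R.K12 w (z0 s r) m r = R.K12 w z m r := by rw [k.k12, k.k12]
    rw [e]
    exact pr_const v.k12
  have h23 : Pr E ((w + z0 s r) - (w + z)) K23 (F.k23.t Z0 M Q X)
      (F.k23s.s Z Z0 (pneg pone) M Q X) (R.K23 w z m r) (R.K23 w (z0 s r) m r) := by
    refine ⟨v.k23, ?_, ?_⟩
    · rw [k.k23]
      exact F.k23.enc hZ0 hm hr c.kx
    · rw [k.k23, k.k23]
      exact (F.k23s.snd hZ hm hr c.kx).d
  have eU : (xi w z r - E0.G.xi1 (w + z) r) - (3 / 2 * s - E0.G.xi1 (w + z0 s r) r) =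
      ((w + z0 s r) - (w + z)) * -(a1 + a2) := by
    rw [← xi0]
    unfold xi
    linear_combination (-1 : ℝ) * ea1 - ea2
  rw [hy0] at esr
  have eKd : R.K13 w z m r - R.K13 w (z0 s r) m r = ((w + z0 s r) - (w + z)) *
      ((d1 + -(a1 + a2) * F.g.v (x3v (w + z) r) (w + z) m r (m * r)) +
      ((3 / 2 * s - E0.G.xi1 (w + z0 s r) r) * d3 +
        v2_sr.v (x3v (w + z) r / s) s (w + z) (w + z0 s r) r * gr)) := by
    rw [e13a, e13b]
    linear_combination ed1 + F.g.v (x3v (w + z) r) (w + z) m r (m * r) * eU +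
      (3 / 2 * s - E0.G.xi1 (w + z0 s r) r) * ed3 +
      (3 / 2 * s - E0.G.xi1 (w + z0 s r) r) * egr + gr * esr
  have h13 : Pr E ((w + z0 s r) - (w + z)) K13 (F.k13.t Y0 T0 U0 M Q X) _ (R.K13 w z m r)
      (R.K13 w (z0 s r) m r) := ⟨v.k13, h13b, _, hKd, eKd⟩
  set Kd := (pnorm (padd (padd (F.w3s.s T T0 (pneg pone) M Q X)
    (pmul (pnorm (pneg (padd (xi1_vc.s Z Z0 (pneg pone) Q) (xi1_vc.s T T0 (pneg pone) Q))))
      (F.g.t Y T M Q X))) (padd (pmul U0 (F.hs.s Y T T0 (pneg pone) M Q X))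
      (pmul (v2_sr.t P (pnorm (pmul NN SN)) T T0 Q) GR))))
  -- the tests
  have hDLp := dln_vvv.snd h12 h23 h13
  have hDL' : Pr E ((w + z0 s r) - (w + z)) DL (dln.t K12 (F.k23.t Z0 M Q X)
      (F.k13.t Y0 T0 U0 M Q X)) (dln_vvv.s K12 K12 pzero K23 (F.k23.t Z0 M Q X)
        (F.k23s.s Z Z0 (pneg pone) M Q X) K13 (F.k13.t Y0 T0 U0 M Q X) Kd)
      (R.DL w z m r) (R.DL w (z0 s r) m r) := ⟨v.dl, hDLp.r, hDLp.d⟩
  have hSH := shf_cv.snd hr (pr_const (N := (w + z0 s r) - (w + z)) hn)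
  have hDSp := dsf_zv.snd hDL' B'.d hSH
  obtain ⟨dsd, kds, eds⟩ := hDSp.d
  have eds' : R.DS w z m r = ((w + z0 s r) - (w + z)) * dsd := by
    have e1 : dsf.v (R.DL w (z0 s r) m r) (shf.v r (-w)) = 0 := by
      rw [B'.d, dsf_val, zero_mul]
    unfold RowF.DS
    rw [k.l, ← eds, e1, sub_zero]
  have hGMp := gm2_vvvvvv.snd hW hZ hT h12 h23 h13
  have egm : ∀ z' : ℝ, R.GM w z' m r = gm2.v w z' (w + z') (R.K12 w z' m r) (R.K23 w z' m r)
      (R.K13 w z' m r) := fun z' => by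
    unfold RowF.GM
    rw [k.gm]
  rw [← egm, ← egm] at hGMp
  have hGM' : Pr E ((w + z0 s r) - (w + z)) GM _ _ (R.GM w z m r) (R.GM w (z0 s r) m r) :=
    ⟨v.gm, hGMp.r, hGMp.d⟩
  have enf : ∀ z' : ℝ, R.NF w z' m r = F.nf.v w (w + z') (m * r) := fun z' => by
    unfold RowF.NF
    rw [k.nf]
  have hNFp := F.nfs.snd hW hT c.kx
  rw [← enf, ← enf] at hNFp
  have hNF' : Pr E ((w + z0 s r) - (w + z)) NF _ _ (R.NF w z m r) (R.NF w (z0 s r) m r) :=
    ⟨v.nf, hNFp.r, hNFp.d⟩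
  have ebs : ∀ z' : ℝ, R.BS w z' m r = F.bs.v w z' (w + z') m r (m * r) := fun z' => by
    unfold RowF.BS
    rw [k.bs]
  have hBSp := F.bss.snd hW hZ hT hm hr c.kx
  rw [← ebs, ← ebs] at hBSp
  have hBS' : Pr E ((w + z0 s r) - (w + z)) BS _ _ (R.BS w z m r) (R.BS w (z0 s r) m r) :=
    ⟨v.bs, hBSp.r, hBSp.d⟩
  obtain ⟨nfd, knf, enf'⟩ := hNF'.d
  obtain ⟨bsd, kbs, ebs'⟩ := hBS'.d
  obtain ⟨gpd, kgp, egp⟩ := (gpf_cvv.snd hr hNF' hGM').d
  obtain ⟨bnd, kbn, ebn⟩ := (bnf_ccvvv.snd c.kx hm hNF' hBS' hGM').d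
  have egp' : R.GP w z m r = ((w + z0 s r) - (w + z)) * gpd := by
    have e1 : gpf.v r (R.NF w (z0 s r) m r) (R.GM w (z0 s r) m r) = 0 := B'.gp
    rw [e1, sub_zero] at egp
    exact egp
  have hl12 : Pr E ((w + z0 s r) - (w + z)) L12 L12 pzero (R.B12 w z m r)
      (R.B12 w (z0 s r) m r) := by
    have e : R.B12 w (z0 s r) m r = R.B12 w z m r := by rw [k.b12, k.b12]
    rw [e]
    exact pr_const v.l12
  have hl23 : Pr E ((w + z0 s r) - (w + z)) L23 (v2_l23.t Z0 M Q X)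
      (v2_l23_vccc.s Z Z0 (pneg pone) M Q X) (R.B23 w z m r) (R.B23 w (z0 s r) m r) := by
    refine ⟨v.l23, ?_, ?_⟩
    · rw [k.b23]
      exact v2_l23.enc hZ0 hm hr c.kx
    · rw [k.b23, k.b23]
      exact (v2_l23_vccc.snd hZ hm hr c.kx).d
  have hl13 : Pr E ((w + z0 s r) - (w + z)) L13 pzero
      (pnorm (pmul (v2_vv.t P T T0 Q) B2)) (R.B13 w z m r) (R.B13 w (z0 s r) m r) := by
    have e0 : R.B13 w (z0 s r) m r = 0 := k.b13z (by rw [hy0, xi0])
    rw [e0]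
    refine ⟨v.l13, enc_zero E, _, enc_norm (enc_mul (v2_vv.enc hp c.kt hT0 hr) v.b2), ?_⟩
    rw [k.b13 r0 m0 g.t0 g.rt g.yy g.lt]
    linear_combination (-(B2v w z m r)) * evv
  have hv1 := F.v1s.snd hW hZ hT hr c.kx hl12 hl23 hl13
  have hv2 := F.v2s.snd hW hZ hT hr c.kx hl12 hl23 hl13
  have ev1 : ∀ z' : ℝ, R.V1B w z' m r = F.v1.v w z' (w + z') r (m * r) (R.B12 w z' m r)
      (R.B23 w z' m r) (R.B13 w z' m r) := fun z' => by
    unfold RowF.V1B
    rw [k.v1]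
  have ev2 : ∀ z' : ℝ, R.V2B w z' m r = F.v2.v w z' (w + z') r (m * r) (R.B12 w z' m r)
      (R.B23 w z' m r) (R.B13 w z' m r) := fun z' => by
    unfold RowF.V2B
    rw [k.v2]
  rw [← ev1, ← ev1] at hv1
  rw [← ev2, ← ev2] at hv2
  obtain ⟨v1d, kv1, ev1'⟩ := hv1.d
  obtain ⟨v2d, kv2, ev2'⟩ := hv2.d
  have hB : Enc E (pneg T) (R.B w z) := by
    rw [k.b]
    exact enc_neg c.kt
  have hA : Enc E Z (R.A w z) := by
    rw [k.a]
    exact c.kz
  have hL : Enc E NN (R.L w z) := by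
    rw [k.l]
    exact hn
  have r1 := tstV_sound (fo := R.FO w z m r / ((w + z0 s r) - (w + z))) c.kx hr c.kx hm hL hA hB
    kbn kds kgp kv1 kv2 (fun e => absurd e Bool.false_ne_true) h
  have r2 := r1.res' (bs := bsd) ((0 + nfd) / r)
  have r3 : Res (m * r) r m (R.L w z) (R.A w z) (R.B w z) (0 / r) ((0 + nfd) / r) bnd bsd
      (R.FO w z m r / ((w + z0 s r) - (w + z))) dsd gpd (0 / r + v1d) (0 / r + v2d) := by
    simp only [zero_div, zero_add] at r2 ⊢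
    exact r2
  refine B'.of_res D hV ?_ enf' ebs' eds' egp' ebn ?_ ev1' ?_ ev2' r3 ?_ hlev
  · rw [k.nu, k.nu]; ring
  · rw [k.v1a, k.v1a]; ring
  · rw [k.v2a, k.v2a]; ring
  · rw [mul_div_cancel₀ _ hV.ne']

/-! ### Exits -/

theorem exL_sound {E : Pt} {NN P M Q j : ℕ} {w z m r : ℝ} (g : Gm r m w z) (hz : 0 ≤ z)
    (hn : Enc E NN (-w)) (hp : Enc E P (x3v (w + z) r / -(E0.G.sg1 w r))) (hm : Enc E M m)
    (hr : Enc E Q r) (h : exL NN P M Q j = true) : False := by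
  unfold exL at h
  obtain ⟨X, W, SN, Y, C, T, ZN, Z, UN, YN, h, c⟩ := crd_sound g hn hp hm hr h
  have n0 := g.n0
  rcases e0 : Nat.beq j 0 with _ | _ <;> rw [e0] at h
  · rcases e1 : Nat.beq j 1 with _ | _ <;> rw [e1] at h
    · have h1 := ppos_sound (enc_sub c.kun (enc_scale 3 5 c.kyn)) h
      push_cast at h1
      have h2 := g.u6
      have h3 : (xi w z r - E0.G.xi1 (w + z) r) / -w -
          3 / 5 * ((x3v (w + z) r - E0.G.xi1 (w + z) r) / -w) =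
          ((xi w z r - E0.G.xi1 (w + z) r) - 3 / 5 * (x3v (w + z) r - E0.G.xi1 (w + z) r)) / -w :=
        by ring
      rw [h3] at h1
      have h4 := div_nonpos_of_nonpos_of_nonneg (sub_nonpos.2 h2) n0.le
      linarith
    · have h1 := ppos_sound (enc_sub (enc_scale 3 20 c.kyn) c.kun) h
      push_cast at h1
      have h2 := g.u5
      have h3 : 3 / 20 * ((x3v (w + z) r - E0.G.xi1 (w + z) r) / -w) -
          (xi w z r - E0.G.xi1 (w + z) r) / -w =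
          (3 / 20 * (x3v (w + z) r - E0.G.xi1 (w + z) r) - (xi w z r - E0.G.xi1 (w + z) r)) / -w :=
        by ring
      rw [h3] at h1
      have h4 := div_nonpos_of_nonpos_of_nonneg (sub_nonpos.2 h2) n0.le
      linarith
  · have h1 := ppos_sound (enc_neg c.kzn) h
    have h2 : 0 ≤ z / -w := div_nonneg hz n0.le
    linarith

end Pool.Agent.Strip051.LC.E1.V2
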