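import Pool.Agent.Strip051.LC.E1.V0.Val
import Pool.Agent.Strip051.LC.E1.V2.Fn
import Pool.Agent.Strip051.LC.E1.V2.Geo

/-! # Rests near the full period: the values of the functions below `2 h0` -/

set_option linter.unusedVariables false
set_option linter.unusedSimpArgs false

namespace Pool.Agent.Strip051.LC.E1.V2

open Pool.Agent.Strip051.PB
open Pool.Agent.Strip051.LC.E1.Ch
open Pool.Agent.Strip051.LC.E1.V0
open Pool.Agent.Strip051.LC.E1.G (hg x3v)

/-! ### Slopes of `W3` from the lattice point -/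

theorem lam_hg {v c : ℝ} (hv : 0 < v) (hc : 0 ≤ c) :
    (if v - c ≤ 0 then (0 : ℝ) else min (max (max (v - c) 0 * v⁻¹) 0) 1) = hg (v - c) / v := by
  rcases le_or_gt (v - c) 0 with h | h
  · rw [if_pos h, hg_le h, zero_div]
  · have h1 : 0 ≤ (v - c) * v⁻¹ := mul_nonneg h.le (inv_nonneg.2 hv.le)
    have h2 : (v - c) * v⁻¹ ≤ 1 := by
      rw [← div_eq_mul_inv]
      exact (div_le_one hv).2 (by linarith)
    rw [if_neg h.not_ge, max_eq_left h.le, max_eq_left h1, min_eq_left h2, hg_ge h.le,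
      div_eq_mul_inv]

theorem omk_val {t m r : ℝ} (hm : 0 < m) (ht : t < 0) :
    v2_omk.v t m r (m * r) = G.wK3 r m (-t) / -t := by
  have hv : 0 < -t := by linarith
  have ht0 : t ≠ 0 := ht.ne
  have k1 := lam_hg hv (c := m / 2) (by positivity)
  have k2 := lam_hg hv (c := m) hm.le
  have k3 := lam_hg hv (c := 5 / 2 * m) (by positivity)
  simp only [v2_omk, v2_omk_4, v2_omk_7, v2_omk_11, v2_omk_12, v2_omk_16, v2_omk_26, v2_omk_34,
    vw3_val]
  push_cast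
  rw [k1, k2, k3]
  unfold G.wK3 G.tl
  field_simp
  ring

theorem omb_val {t m r : ℝ} (hm : 0 < m) (ht : t < 0) :
    v2_omb.v t m r (m * r) = G.wB3 r m (-t) / -t := by
  have hv : 0 < -t := by linarith
  have ht0 : t ≠ 0 := ht.ne
  have k1 := lam_hg hv (c := m / 2) (by positivity)
  have k2 := lam_hg hv (c := m) hm.le
  have k3 := lam_hg hv (c := 5 / 2 * m) (by positivity)
  simp only [v2_omb, v2_omb_4, v2_omb_8, v2_omb_15, v2_omb_22]
  push_cast
  rw [k1, k2, k3]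
  unfold G.wB3 G.tl
  field_simp
  ring

/-! ### The kernels -/

theorem uk_v (t m r x : ℝ) : v2_uk.v t m r x = ku.v t m r x := rfl

theorem ub_v (t m r x : ℝ) : v2_ub.v t m r x = kv.v t m r x := rfl

theorem k1p_v (z m r x : ℝ) : v2_k1p.v z m r x = k1p.v z m r x := rfl

theorem b1p_v (z m r x : ℝ) : v2_b1p.v z m r x = b1p.v z m r x := rfl

theorem h0_val (x : ℝ) : v2_h0.v x = Real.sqrt 3 / 2 := by
  simp only [v2_h0]
  push_cast
  ring

theorem rhg {r s k : ℝ} (hr : 0 < r) {a b : ℝ} (hb : 0 < b) (hk : a / b = k) :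
    r * hg (Real.sqrt 3 / 2 * s - a / (b * r)) = max (r * (Real.sqrt 3 / 2 * s) - k) 0 := by
  unfold hg
  rw [mul_max_of_nonneg _ _ hr.le, mul_zero, ← hk]
  congr 1
  field_simp

theorem ruk_val {r : ℝ} (hr : 0 < r) (t m : ℝ) :
    v2_ruk.v t m r (m * r) = r * G.kU' r m t := by
  have k1 := rhg (s := t) hr (a := 1) (b := 16) (by norm_num) (k := 1 / 16) (by norm_num)
  have k2 := rhg (s := t) hr (a := 1) (b := 10) (by norm_num) (k := 1 / 10) (by norm_num)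
  have k3 := rhg (s := t) hr (a := 1) (b := 5) (by norm_num) (k := 1 / 5) (by norm_num)
  have e : ∀ A a1 a2 a3 h1 h2 h3 : ℝ, r * (A + a1 * h1 + a2 * h2 + a3 * h3) =
      r * A + a1 * (r * h1) + a2 * (r * h2) + a3 * (r * h3) := fun _ _ _ _ _ _ _ => by ring
  unfold G.kU' G.kU G.uR
  rw [e, k1, k2, k3]
  simp only [v2_ruk, v2_fak, v2_fak_4, v2_fak_6, v2_fak_9, v2_fbk, u2k, u2k_3, u4k, u4k_2,
    prf_val, eh_val]
  push_cast
  simp only [G.u1, G.u2, G.u3, G.u4, G.u5, G.u6, G.u7, hg]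
  ring

theorem rub_val {r : ℝ} (hr : 0 < r) (t m : ℝ) :
    v2_rub.v t m r (m * r) = r * G.bU' r m t := by
  have k1 := rhg (s := t) hr (a := 1) (b := 16) (by norm_num) (k := 1 / 16) (by norm_num)
  have k2 := rhg (s := t) hr (a := 1) (b := 10) (by norm_num) (k := 1 / 10) (by norm_num)
  have k3 := rhg (s := t) hr (a := 1) (b := 5) (by norm_num) (k := 1 / 5) (by norm_num)
  have e : ∀ A a1 a2 a3 h1 h2 h3 : ℝ, r * (A + a1 * h1 + a2 * h2 + a3 * h3) =
      r * A + a1 * (r * h1) + a2 * (r * h2) + a3 * (r * h3) := fun _ _ _ _ _ _ _ => by ring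
  unfold G.bU' G.bU G.uR
  rw [e, k1, k2, k3]
  simp only [v2_rub, v2_fab, v2_fbb, v2_fbb_6, v2_fbb_11, u1b, u2b, u3b, u4b, u5b, pbf_val, eh_val,
    b0f_val]
  push_cast
  simp only [G.u1, G.u2, G.u3, G.u4, G.u5, G.u6, G.u7, hg]
  ring

/-! ### The circle of radius `√3` -/

section

variable {r t m : ℝ} (hr : 0 < r) (ht : t < 0) (h1 : -(1 / 8) ≤ r * t)

include hr ht h1

theorem vyr_val : x3v t r * v2_vyr.v (x3v t r) r = -t / r := by
  have h2 := rx3v_sq hr ht.le h1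
  have h3 := x3v_sq hr ht.le h1
  have h4 : r * t < 0 := mul_neg_of_pos_of_neg hr ht
  have e1 : Real.sqrt (1 - 1 / 3 * (r * x3v t r) ^ 2) = 1 + r * t / 2 := by
    rw [h2]
    refine (Real.sqrt_eq_iff_mul_self_eq (by nlinarith) (by linarith)).2 ?_
    ring
  simp only [v2_vyr]
  push_cast
  have e2 : (1 : ℝ) - 1 / 3 * (r * x3v t r * (r * x3v t r)) = 1 - 1 / 3 * (r * x3v t r) ^ 2 := by
    ring
  first
  | rw [e1]
  | rw [e2, e1]
  have e3 : (1 : ℝ) + (1 + r * t / 2) ≠ 0 := by linarith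
  have e4 : x3v t r * (2 / 3 * (x3v t r * (1 + (1 + r * t / 2))⁻¹)) =
      2 / 3 * (x3v t r ^ 2 * (1 + (1 + r * t / 2))⁻¹) := by ring
  rw [e4, h3, ← div_eq_mul_inv]
  rw [show -t / r * (3 + 3 / 4 * (r * t)) = (3 / 2 * (-t / r)) * (1 + (1 + r * t / 2)) by ring,
    mul_div_cancel_right₀ _ e3]
  ring

theorem vy_val : x3v t r * (r * x3v t r * (3 + 3 / 4 * (r * t))⁻¹) = -t := by
  have h3 := x3v_t hr ht.le h1
  have e1 : (3 + 3 / 4 * (r * t)) ≠ 0 := by nlinarith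
  have : x3v t r * (r * x3v t r * (3 + 3 / 4 * (r * t))⁻¹) =
      r * x3v t r ^ 2 * (3 + 3 / 4 * (r * t))⁻¹ := by ring
  rw [this, h3, mul_inv_cancel_right₀ e1]

omit hr ht h1 in
theorem g_alg {y vy v kap o d1 C W Y : ℝ} (hy : y ≠ 0) (h1 : y * vy = v) (hC : y * kap = C)
    (hW : o * v = W) (hY : y - d1 * v = Y) :
    (kap - o * vy) * (1 - d1 * vy)⁻¹ = (C - W) / Y := by
  have e1 : C - W = y * (kap - o * vy) := by rw [← hC, ← hW, ← h1]; ring
  have e2 : Y = y * (1 - d1 * vy) := by rw [← hY, ← h1]; ring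
  rw [e1, e2, mul_div_mul_left _ _ hy, div_eq_mul_inv]

theorem gk_val' (hm : 0 < m) : v2_gk.v (x3v t r) t m r (m * r) =
    ((G.C33 r m t).k - (G.W3 r m t).k) / (x3v t r - E0.G.xi1 t r) := by
  have hy := (x3v_pos hr ht h1).ne'
  have hv : -t ≠ 0 := by linarith
  simp only [v2_gk, v2_gk_9, v2_gk_20, ruk_val hr, omk_val hm ht, dd1_val]
  push_cast
  refine g_alg hy (vy_val hr ht h1) ?_ ?_ ?_
  · unfold G.C33
    show _ = x3v t r * (1 + r * G.kU' r m (2 / 3 * x3v t r)) / (2 + r * t / 2)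
    ring
  · show _ = G.wK3 r m (-t)
    rw [div_mul_cancel₀ _ hv]
  · rw [xi1_D]
    ring

theorem gb_val' (hm : 0 < m) : v2_gb.v (x3v t r) t m r (m * r) =
    ((G.C33 r m t).b - (G.W3 r m t).b) / (x3v t r - E0.G.xi1 t r) := by
  have hy := (x3v_pos hr ht h1).ne'
  have hv : -t ≠ 0 := by linarith
  simp only [v2_gb, v2_gb_9, v2_gb_20, rub_val hr, omb_val hm ht, dd1_val, b0f_val]
  push_cast
  refine g_alg hy (vy_val hr ht h1) ?_ ?_ ?_
  · unfold G.C33
    show _ = x3v t r * (G.B0 (m * r) + r * G.bU' r m (2 / 3 * x3v t r)) / (2 + r * t / 2)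
    ring
  · show _ = G.wB3 r m (-t)
    rw [div_mul_cancel₀ _ hv]
  · rw [xi1_D]
    ring

omit hr h1 in
/-- the two forms of the slope -/
theorem hk_gk (y : ℝ) (hm : 0 < m) : v2_hk.v y t m r (m * r) = v2_gk.v y t m r (m * r) := by
  simp only [v2_gk, v2_gk_9, v2_gk_20, v2_hk, v2_hk_9, v2_hk_20, omk_val hm ht, om3k_val hm ht]

omit hr h1 in
theorem hb_gb (y : ℝ) (hm : 0 < m) : v2_hb.v y t m r (m * r) = v2_gb.v y t m r (m * r) := by
  simp only [v2_gb, v2_gb_9, v2_gb_20, v2_hb, v2_hb_9, v2_hb_20, omb_val hm ht, om3b_val hm ht]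

/-- `xi1 / (x3v - xi1)` -/
theorem hf_val : v2_hf.v (r * x3v t r) t r = E0.G.xi1 t r / (x3v t r - E0.G.xi1 t r) := by
  have hy := (x3v_pos hr ht h1).ne'
  have hvy := vy_val hr ht h1
  simp only [v2_hf, v2_hf_10, dd1_val]
  push_cast
  set vy := r * x3v t r * (3 + 3 / 4 * (r * t))⁻¹ with hvy'
  have e1 : E0.G.xi1 t r = x3v t r * (D1 t r * vy) := by
    rw [xi1_D]
    linear_combination (-D1 t r) * hvy
  have e2 : x3v t r - E0.G.xi1 t r = x3v t r * (1 - D1 t r * vy) := by rw [e1]; ring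
  rw [e2, e1, mul_div_mul_left _ _ hy, div_eq_mul_inv]

end

end Pool.Agent.Strip051.LC.E1.V2
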